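import Mathlib
import Pool.Agent.R847.SN.Hom

/-!
# Limits and rates along an ultrafilter
-/

set_option autoImplicit false

open MvPolynomial Filter Topology Asymptotics

namespace Pool.Agent.R847.SN

section gen

variable {X : Type}

lemma uf_choice (U : Ultrafilter X) {κ : Type} [Finite κ] (p : κ → X → Prop)
    (h : ∀ᶠ n in U, ∃ k, p k n) : ∃ k, ∀ᶠ n in U, p k n := by
  by_contra hno
  push Not at hno
  have h1 : ∀ k, ∀ᶠ n in U, ¬ p k n := hno
  have h2 : ∀ᶠ n in U, ∀ k, ¬ p k n := eventually_all.2 h1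
  obtain ⟨n, hn1, hn2⟩ := (h.and h2).exists
  obtain ⟨k, hk⟩ := hn1
  exact hn2 k hk

variable {Ω : Type} [NormedField Ω]

lemma uf_far (U : Ultrafilter X) (z : X → Ω) (c : Ω) (h : ¬ Tendsto z U (𝓝 c)) :
    ∃ ε > 0, ∀ᶠ n in U, ε ≤ ‖z n - c‖ := by
  rw [Metric.tendsto_nhds] at h
  push Not at h
  obtain ⟨ε, hε, h⟩ := h
  refine ⟨ε, hε, ?_⟩
  filter_upwards [h] with n hn
  rwa [dist_eq_norm] at hn

/-- An asymptotic root of a nonzero polynomial converges along an ultrafilter. -/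
lemma root_lim [IsAlgClosed Ω] (U : Ultrafilter X) (z : X → Ω) (n : ℕ) :
    ∀ T : Polynomial Ω, T ≠ 0 → T.natDegree = n → Tendsto (fun n => T.eval (z n)) U (𝓝 0) →
      ∃ c, Tendsto z U (𝓝 c) := by
  induction n with
  | zero =>
    intro T hT hd h
    exfalso
    obtain ⟨a, rfl⟩ := Polynomial.natDegree_eq_zero.1 hd
    have ha : a ≠ 0 := by
      rintro rfl
      exact hT (by simp)
    simp only [Polynomial.eval_C] at h
    exact ha (tendsto_nhds_unique tendsto_const_nhds h)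
  | succ n ih =>
    intro T hT hd h
    have hdeg : T.degree ≠ 0 := by
      rw [Polynomial.degree_eq_natDegree hT, hd]
      exact_mod_cast Nat.succ_ne_zero n
    obtain ⟨c, hc⟩ := IsAlgClosed.exists_root T hdeg
    by_cases hz : Tendsto z U (𝓝 c)
    · exact ⟨c, hz⟩
    · obtain ⟨ε, hε, hfar⟩ := uf_far U z c hz
      obtain ⟨Q, hQ⟩ := Polynomial.dvd_iff_isRoot.2 hc
      have hQ0 : Q ≠ 0 := by
        rintro rfl
        rw [mul_zero] at hQ
        exact hT hQ
      have hQd : Q.natDegree = n := by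
        rw [hQ, Polynomial.natDegree_mul (Polynomial.X_sub_C_ne_zero c) hQ0,
          Polynomial.natDegree_X_sub_C] at hd
        omega
      apply ih Q hQ0 hQd
      rw [tendsto_zero_iff_norm_tendsto_zero] at h ⊢
      have h1 : Tendsto (fun n => ε⁻¹ * ‖T.eval (z n)‖) U (𝓝 0) := by
        simpa using h.const_mul ε⁻¹
      refine squeeze_zero' (Eventually.of_forall fun n => norm_nonneg _) ?_ h1
      filter_upwards [hfar] with n hn
      rw [hQ, Polynomial.eval_mul, norm_mul]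
      have h2 : (Polynomial.X - Polynomial.C c).eval (z n) = z n - c := by simp
      rw [h2, ← mul_assoc]
      apply le_mul_of_one_le_left (norm_nonneg _)
      rw [inv_mul_eq_div, le_div_iff₀ hε, one_mul]
      exact hn

/-- A root of a nonzero polynomial which is a limit is approached at a power rate. -/
lemma root_rate (U : Ultrafilter X) (s : X → ℝ) (hs : Tendsto s U atTop) (T : Polynomial Ω)
    (hT : T ≠ 0) (z : X → Ω) (c : Ω) (hz : Tendsto z U (𝓝 c)) (ρ : ℝ) (hρ : 0 < ρ)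
    (h : (fun n => T.eval (z n)) =O[(U : Filter X)] fun n => (s n) ^ (-ρ)) :
    ∃ ρ' : ℝ, 0 < ρ' ∧ (fun n => z n - c) =O[(U : Filter X)] fun n => (s n) ^ (-ρ') := by
  set μ := T.rootMultiplicity c with hμ
  obtain ⟨Q, hQ, hQ2⟩ := Polynomial.exists_eq_pow_rootMultiplicity_mul_and_not_dvd T hT c
  rw [← hμ] at hQ
  have hQc : Q.eval c ≠ 0 := fun h0 => hQ2 (Polynomial.dvd_iff_isRoot.2 h0)
  have hQt : Tendsto (fun n => Q.eval (z n)) U (𝓝 (Q.eval c)) :=
    (Q.continuous.tendsto c).comp hz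
  have h1 : ∀ᶠ n in U, ‖Q.eval c‖ / 2 ≤ ‖Q.eval (z n)‖ := by
    have h2 : Tendsto (fun n => ‖Q.eval (z n)‖) U (𝓝 ‖Q.eval c‖) := hQt.norm
    have h3 : ‖Q.eval c‖ / 2 < ‖Q.eval c‖ := half_lt_self (norm_pos_iff.2 hQc)
    filter_upwards [h2.eventually (lt_mem_nhds h3)] with n hn
    exact hn.le
  obtain ⟨C, hC⟩ := h.bound
  have hspos : ∀ᶠ n in U, 1 ≤ s n := hs.eventually_ge_atTop 1
  have hκ : 0 < ‖Q.eval c‖ / 2 := half_pos (norm_pos_iff.2 hQc)
  have h2 : ∀ᶠ n in U, ‖z n - c‖ ^ μ ≤ (C / (‖Q.eval c‖ / 2)) * (s n) ^ (-ρ) := by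
    filter_upwards [h1, hC, hspos] with n hn hCn hsn
    have h3 : T.eval (z n) = (z n - c) ^ μ * Q.eval (z n) := by
      rw [hQ, Polynomial.eval_mul, Polynomial.eval_pow]
      simp
    rw [h3, norm_mul, norm_pow,
      Real.norm_of_nonneg (Real.rpow_nonneg (by linarith) _)] at hCn
    rw [div_mul_eq_mul_div, le_div_iff₀ hκ]
    calc ‖z n - c‖ ^ μ * (‖Q.eval c‖ / 2) ≤ ‖z n - c‖ ^ μ * ‖Q.eval (z n)‖ := by
          apply mul_le_mul_of_nonneg_left hn (by positivity)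
      _ ≤ _ := hCn
  by_cases hμ0 : μ = 0
  · exfalso
    have h3 : Tendsto (fun n => (C / (‖Q.eval c‖ / 2)) * (s n) ^ (-ρ)) U (𝓝 0) := by
      have := ((tendsto_rpow_neg_atTop hρ).comp hs).const_mul (C / (‖Q.eval c‖ / 2))
      simpa using this
    have h4 := h3.eventually (gt_mem_nhds (zero_lt_one))
    obtain ⟨n, hn1, hn2⟩ := (h2.and h4).exists
    rw [hμ0, pow_zero] at hn1
    linarith
  · refine ⟨ρ / μ, by positivity, ?_⟩
    rw [isBigO_iff]
    set K := C / (‖Q.eval c‖ / 2) with hK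
    refine ⟨(max K 1) ^ ((μ : ℝ)⁻¹), ?_⟩
    filter_upwards [h2, hspos] with n hn hsn
    have hs0 : 0 < s n := by linarith
    rw [Real.norm_of_nonneg (Real.rpow_nonneg hs0.le _)]
    have h5 : ‖z n - c‖ ^ μ ≤ max K 1 * (s n) ^ (-ρ) := by
      refine hn.trans ?_
      apply mul_le_mul_of_nonneg_right (le_max_left _ _) (Real.rpow_nonneg hs0.le _)
    have h6 : ‖z n - c‖ = (‖z n - c‖ ^ μ) ^ ((μ : ℝ)⁻¹) :=
      (Real.pow_rpow_inv_natCast (norm_nonneg _) hμ0).symm
    rw [h6]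
    calc (‖z n - c‖ ^ μ) ^ ((μ : ℝ)⁻¹) ≤ (max K 1 * (s n) ^ (-ρ)) ^ ((μ : ℝ)⁻¹) := by
          apply Real.rpow_le_rpow (by positivity) h5 (by positivity)
      _ = (max K 1) ^ ((μ : ℝ)⁻¹) * ((s n) ^ (-ρ)) ^ ((μ : ℝ)⁻¹) := by
          rw [Real.mul_rpow (by positivity) (Real.rpow_nonneg hs0.le _)]
      _ = _ := by
          rw [← Real.rpow_mul hs0.le]
          congr 2
          field_simp

end gen

variable {k : Type} [Field k] {Ω : Type} [NormedField Ω] [Algebra k Ω]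
variable {X : Type} {ι : Type} [Fintype ι] [DecidableEq ι]

lemma lip {l : Filter X} (m : ℕ) (g : MvPolynomial ι k) (ε : X → Ω) (z w : X → ι → Ω) (ε0 : Ω)
    (c c' : ι → Ω) (hε : Tendsto ε l (𝓝 ε0)) (hz : Tendsto z l (𝓝 c)) (hw : Tendsto w l (𝓝 c'))
    (φ : X → ℝ) (h : ∀ i, (fun n => z n i - w n i) =O[l] φ) :
    (fun n => H m g (ε n) (z n) - H m g (ε n) (w n)) =O[l] φ := by
  have h1 : (fun n => H m g (ε n) (z n) - H m g (ε n) (w n)) =
      fun n => ∑ i, W m g (ε n) (z n) (w n) i * (z n i - w n i) := by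
    funext n
    exact W_spec _ _ _ _ _
  rw [h1]
  apply IsBigO.fun_sum
  intro i _
  have h2 := (W_tendsto m g ε z w ε0 c c' hε (fun i => (tendsto_pi_nhds.1 hz) i)
    (fun i => (tendsto_pi_nhds.1 hw) i) i).isBigO_one ℝ
  simpa using h2.mul (h i)

lemma expand {l : Filter X} (d : ℕ) (f : ι → MvPolynomial ι k) (ε : X → Ω) (z w : X → ι → Ω)
    (c : ι → Ω) (hdet : (Dm d f c).det ≠ 0) (hε : Tendsto ε l (𝓝 0)) (hz : Tendsto z l (𝓝 c))
    (hw : Tendsto w l (𝓝 c)) (φ : X → ℝ)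
    (h : ∀ i, (fun n => H d (f i) (ε n) (z n) - H d (f i) (ε n) (w n)) =O[l] φ) (i : ι) :
    (fun n => z n i - w n i) =O[l] φ := by
  set M : X → Matrix ι ι Ω := fun n => Wm d f (ε n) (z n) (w n) with hM
  have hMt : Tendsto M l (𝓝 (Dm d f c)) := by
    rw [← Wm_zero]
    apply tendsto_pi_nhds.2
    intro i
    apply tendsto_pi_nhds.2
    intro j
    exact W_tendsto d (f i) ε z w 0 c c hε (fun i => (tendsto_pi_nhds.1 hz) i)
      (fun i => (tendsto_pi_nhds.1 hw) i) j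
  have hdt : Tendsto (fun n => (M n).det) l (𝓝 (Dm d f c).det) :=
    ((continuous_id.matrix_det).tendsto _).comp hMt
  have hadj : ∀ j, (fun n => (M n).adjugate i j) =O[l] (fun _ => (1 : ℝ)) := by
    intro j
    have h1 : Continuous fun A : Matrix ι ι Ω => A.adjugate i j :=
      (continuous_id.matrix_adjugate).matrix_elem i j
    exact ((h1.tendsto _).comp hMt).isBigO_one ℝ
  have h2 : ∀ n, (M n).det * (z n i - w n i) =
      ∑ j, (M n).adjugate i j * (H d (f j) (ε n) (z n) - H d (f j) (ε n) (w n)) := by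
    intro n
    have h3 : (M n).adjugate.mulVec ((M n).mulVec (z n - w n)) i =
        (M n).det * (z n i - w n i) := by
      rw [Matrix.mulVec_mulVec, Matrix.adjugate_mul, Matrix.smul_mulVec, Matrix.one_mulVec]
      rfl
    rw [← h3, hM, ← Wm_spec]
    rfl
  have h3 : (fun n => (M n).det * (z n i - w n i)) =O[l] φ := by
    simp_rw [h2]
    apply IsBigO.fun_sum
    intro j _
    simpa using (hadj j).mul (h j)
  have h4 : (fun n => ((M n).det)⁻¹) =O[l] (fun _ => (1 : ℝ)) :=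
    (hdt.inv₀ hdet).isBigO_one ℝ
  have h5 := h4.mul h3
  simp only [one_mul] at h5
  refine h5.congr' ?_ EventuallyEq.rfl
  have h6 : ∀ᶠ n in l, (M n).det ≠ 0 := hdt.eventually_ne hdet
  filter_upwards [h6] with n hn
  rw [← mul_assoc, inv_mul_cancel₀ hn, one_mul]

omit [Fintype ι] [DecidableEq ι] in
lemma H_tendsto {l : Filter X} (m : ℕ) (g : MvPolynomial ι k) (ε : X → Ω) (z : X → ι → Ω)
    (ε0 : Ω) (c : ι → Ω) (hε : Tendsto ε l (𝓝 ε0)) (hz : Tendsto z l (𝓝 c)) :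
    Tendsto (fun n => H m g (ε n) (z n)) l (𝓝 (H m g ε0 c)) := by
  unfold H
  apply tendsto_finsetSum
  intro j _
  apply (hε.pow _).mul
  exact ((continuous_aeval' (homogeneousComponent j g)).tendsto _).comp hz

omit [DecidableEq ι] in
/-- the size of the values of a polynomial -/
lemma poly_bound (g : MvPolynomial ι k) (m : ℕ) (hg : g.totalDegree ≤ m) :
    ∃ A : ℝ, 0 ≤ A ∧ ∀ (z : ι → Ω) (R : ℝ), 1 ≤ R → (∀ i, ‖z i‖ ≤ R) →
      ‖aeval z g‖ ≤ A * R ^ m := by
  classical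
  refine ⟨∑ κ ∈ g.support, ‖algebraMap k Ω (coeff κ g)‖, Finset.sum_nonneg fun _ _ =>
    norm_nonneg _, fun z R hR hz => ?_⟩
  rw [aeval_def, eval₂_eq', Finset.sum_mul]
  refine (norm_sum_le _ _).trans (Finset.sum_le_sum fun κ hκ => ?_)
  rw [norm_mul]
  apply mul_le_mul_of_nonneg_left _ (norm_nonneg _)
  rw [norm_prod]
  calc ∏ i, ‖z i ^ κ i‖ ≤ ∏ i, R ^ κ i := by
        apply Finset.prod_le_prod
        · intro i _
          exact norm_nonneg _
        · intro i _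
          rw [norm_pow]
          exact pow_le_pow_left₀ (norm_nonneg _) (hz i) _
    _ = R ^ (∑ i, κ i) := Finset.prod_pow_eq_pow_sum _ _ _
    _ ≤ R ^ m := by
        apply pow_le_pow_right₀ hR
        refine le_trans ?_ hg
        have h1 := le_totalDegree hκ
        rw [Finsupp.sum_fintype _ _ (by simp)] at h1
        exact h1

end Pool.Agent.R847.SN
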