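import Mathlib
import Pool.Agent.R847.SN.Rate
import Pool.Agent.R847.HG.Ht

/-!
# Integrality over the leading forms
-/

set_option autoImplicit false

open MvPolynomial Filter Topology Asymptotics

namespace Pool.Agent.R847.SN

variable {k : Type} [Field k] {N : ℕ}

lemma mon_mem (d M : ℕ) (hd : d ≠ 0) (F : Fin (N + 1) → MvPolynomial (Fin (N + 1)) k)
    (q : Fin (N + 1) × Fin (N + 1) → MvPolynomial (Fin (N + 1)) k)
    (hq : ∀ a, (q a).IsHomogeneous M) (h : ∀ j, ∑ i, q (j, i) * F i = X j ^ (M + d))
    (n : ℕ) : ∀ m : Fin (N + 1) →₀ ℕ, ∑ i, m i = n →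
    monomial m (1 : k) ∈ Submodule.span (aeval F : _ →ₐ[k] MvPolynomial (Fin (N + 1)) k).range
      ((fun m => monomial m (1 : k)) '' {m : Fin (N + 1) →₀ ℕ | ∀ i, m i < M + d}) := by
  classical
  set B := (aeval F : _ →ₐ[k] MvPolynomial (Fin (N + 1)) k).range with hB
  set S := Submodule.span B
    ((fun m => monomial m (1 : k)) '' {m : Fin (N + 1) →₀ ℕ | ∀ i, m i < M + d}) with hS
  have hsm : ∀ (a : k) (g : MvPolynomial (Fin (N + 1)) k), g ∈ S → a • g ∈ S := by
    intro a g hg
    have : a • g = (algebraMap k B a) • g := by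
      rw [algebraMap_smul]
    rw [this]
    exact S.smul_mem _ hg
  induction n using Nat.strong_induction_on with
  | _ n ih =>
    intro m hm
    by_cases hbox : ∀ i, m i < M + d
    · exact Submodule.subset_span ⟨m, hbox, rfl⟩
    · push Not at hbox
      obtain ⟨e, hk⟩ := hbox
      set m' : Fin (N + 1) →₀ ℕ := m - Finsupp.single e (M + d) with hm'
      have hmm : m = Finsupp.single e (M + d) + m' := by
        rw [hm', add_tsub_cancel_of_le]
        exact Finsupp.single_le_iff.2 hk
      have hsum : ∑ i, m i = (M + d) + ∑ i, m' i := by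
        conv_lhs => rw [hmm]
        simp [Finset.sum_add_distrib, Finsupp.single_apply]
      have h1 : monomial m (1 : k) = ∑ j, F j * (q (e, j) * monomial m' 1) := by
        have h2 : monomial m (1 : k) = X e ^ (M + d) * monomial m' 1 := by
          rw [X_pow_eq_monomial, monomial_mul, one_mul, ← hmm]
        rw [h2, ← h e, Finset.sum_mul]
        refine Finset.sum_congr rfl fun j _ => ?_
        ring
      rw [h1]
      apply S.sum_mem
      intro j _
      have hFj : F j ∈ B := ⟨X j, by simp⟩
      have h2 : F j * (q (e, j) * monomial m' 1) =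
          (⟨F j, hFj⟩ : B) • (q (e, j) * monomial m' (1 : k)) := rfl
      rw [h2]
      apply S.smul_mem
      set g := q (e, j) * monomial m' (1 : k) with hg
      have hgh : g.IsHomogeneous (M + ∑ i, m' i) := by
        apply (hq (e, j)).mul
        apply isHomogeneous_monomial
        rw [Finsupp.degree_eq_sum]
      rw [← support_sum_monomial_coeff g]
      apply S.sum_mem
      intro e he
      have h3 : monomial e (coeff e g) = coeff e g • monomial e (1 : k) := by
        rw [smul_monomial, smul_eq_mul, mul_one]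
      rw [h3]
      apply hsm
      have h4 : ∑ i, e i = M + ∑ i, m' i := by
        have := hgh (mem_support_iff.1 he)
        rw [Finsupp.weight_apply, Finsupp.sum_fintype _ _ (by simp)] at this
        simpa using this
      apply ih (M + ∑ i, m' i) (by omega) e h4

/-- the leading forms have no common zero -/
def Reg (d : ℕ) (f : Fin (N + 1) → MvPolynomial (Fin (N + 1)) k) : Prop :=
  ∀ z : Fin (N + 1) → AlgebraicClosure k, (∀ i, aeval z (homogeneousComponent d (f i)) = 0) → z = 0

/-- Every coordinate is integral over the leading forms. -/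
lemma exists_int (d : ℕ) (hd : d ≠ 0) (f : Fin (N + 1) → MvPolynomial (Fin (N + 1)) k)
    (hreg : Reg d f) (j : Fin (N + 1)) :
    ∃ (n : ℕ) (q : ℕ → MvPolynomial (Fin (N + 1)) k), ∀ (A : Type) [CommRing A] [Algebra k A]
      (z : Fin (N + 1) → A), (z j) ^ n + ∑ i ∈ Finset.range n,
        aeval (fun r => aeval z (homogeneousComponent d (f r))) (q i) * (z j) ^ i = 0 := by
  classical
  set F : Fin (N + 1) → MvPolynomial (Fin (N + 1)) k := fun i => homogeneousComponent d (f i)
    with hFdef
  have hF : ∀ i, (F i).IsHomogeneous d := fun i => homogeneousComponent_isHomogeneous d (f i)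
  obtain ⟨M, q, hq, h⟩ := Pool.Agent.R847.HG.exists_cert (K := k) F hF hreg
  set B := (aeval F : _ →ₐ[k] MvPolynomial (Fin (N + 1)) k).range with hB
  have hfin : {m : Fin (N + 1) →₀ ℕ | ∀ i, m i < M + d}.Finite := by
    apply (Set.finite_Iic (Finsupp.equivFunOnFinite.symm fun _ => M + d : Fin (N + 1) →₀ ℕ)).subset
    intro m hm
    rw [Set.mem_Iic]
    intro i
    simpa using (hm i).le
  have hfg : Module.Finite B (MvPolynomial (Fin (N + 1)) k) := by
    refine ⟨(Submodule.fg_def).2 ⟨_, hfin.image fun m => monomial m (1 : k), ?_⟩⟩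
    rw [eq_top_iff]
    intro g _
    rw [← support_sum_monomial_coeff g]
    apply Submodule.sum_mem
    intro e _
    have h3 : monomial e (coeff e g) = (algebraMap k B (coeff e g)) • monomial e (1 : k) := by
      rw [algebraMap_smul, smul_monomial, smul_eq_mul, mul_one]
    rw [h3]
    apply Submodule.smul_mem
    exact mon_mem d M hd F q hq h _ e rfl
  obtain ⟨p, hp, hp0⟩ := IsIntegral.of_finite B (X j : MvPolynomial (Fin (N + 1)) k)
  have hex : ∀ i, ∃ r : MvPolynomial (Fin (N + 1)) k, aeval F r =
      (p.coeff i : MvPolynomial (Fin (N + 1)) k) := fun i => (p.coeff i).2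
  choose r hr using hex
  refine ⟨p.natDegree, r, fun A _ _ z => ?_⟩
  rw [Polynomial.eval₂_eq_sum_range, Finset.sum_range_succ, hp.coeff_natDegree, map_one,
    one_mul] at hp0
  have h1 := congrArg (aeval z) hp0
  rw [map_zero, map_add, map_sum, map_pow, aeval_X] at h1
  rw [← h1, add_comm]
  congr 1
  refine Finset.sum_congr rfl fun i _ => ?_
  rw [map_mul, map_pow, aeval_X]
  congr 1
  have h2 : (algebraMap B (MvPolynomial (Fin (N + 1)) k)) (p.coeff i) =
      aeval F (r i) := (hr i).symm
  rw [h2]
  exact (comp_aeval_apply F (aeval z : MvPolynomial (Fin (N + 1)) k →ₐ[k] A) (r i)).symm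

/-- the monic polynomial of a coordinate -/
noncomputable def TT {Ω : Type} [Field Ω] [Algebra k Ω] (n : ℕ)
    (q : ℕ → MvPolynomial (Fin (N + 1)) k) (w : Fin (N + 1) → Ω) :
    Polynomial Ω :=
  Polynomial.X ^ n + ∑ i ∈ Finset.range n, Polynomial.C (aeval w (q i)) * Polynomial.X ^ i

lemma TT_monic {Ω : Type} [Field Ω] [Algebra k Ω] (n : ℕ)
    (q : ℕ → MvPolynomial (Fin (N + 1)) k) (w : Fin (N + 1) → Ω) :
    (TT n q w).Monic := by
  unfold TT
  apply Polynomial.monic_X_pow_add
  rw [← Fin.sum_univ_eq_sum_range fun i => Polynomial.C (aeval w (q i)) * Polynomial.X ^ i]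
  exact Polynomial.degree_sum_fin_lt _

lemma TT_eval {Ω : Type} [Field Ω] [Algebra k Ω] (n : ℕ)
    (q : ℕ → MvPolynomial (Fin (N + 1)) k) (w : Fin (N + 1) → Ω) (t : Ω) :
    (TT n q w).eval t = t ^ n + ∑ i ∈ Finset.range n, aeval w (q i) * t ^ i := by
  unfold TT
  rw [Polynomial.eval_add, Polynomial.eval_pow, Polynomial.eval_X, Polynomial.eval_finsetSum]
  congr 1
  refine Finset.sum_congr rfl fun i _ => ?_
  rw [Polynomial.eval_mul, Polynomial.eval_C, Polynomial.eval_pow, Polynomial.eval_X]

/-- Points with a bounded image are bounded. -/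
lemma proper {Ω : Type} [NormedField Ω] [Algebra k Ω] (d : ℕ) (hd : d ≠ 0)
    (f : Fin (N + 1) → MvPolynomial (Fin (N + 1)) k) (hreg : Reg d f) :
    ∃ C : ℝ, 1 ≤ C ∧ ∀ (ε : Ω) (z : Fin (N + 1) → Ω) (B : ℝ), ‖ε‖ ≤ 1 → 1 ≤ B →
      (∀ i, ‖H d (f i) ε z‖ ≤ B) → ∀ i, ‖z i‖ ≤ C * B := by
  classical
  set F : Fin (N + 1) → MvPolynomial (Fin (N + 1)) k := fun i => homogeneousComponent d (f i)
    with hFdef
  have hF : ∀ i, (F i).IsHomogeneous d := fun i => homogeneousComponent_isHomogeneous d (f i)
  obtain ⟨M, q, hq, h⟩ := Pool.Agent.R847.HG.exists_cert (K := k) F hF hreg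
  choose A hA0 hA using fun a => poly_bound (Ω := Ω) (q a) M (hq a).totalDegree_le
  choose A' hA'0 hA' using fun (i : Fin (N + 1)) (j : ℕ) =>
    poly_bound (Ω := Ω) (homogeneousComponent j (f i)) j
      (homogeneousComponent_isHomogeneous j (f i)).totalDegree_le
  set a : ℝ := ∑ e, A e with ha
  set b : ℝ := ∑ i, ∑ j ∈ Finset.range d, A' i j with hb
  have ha0 : 0 ≤ a := Finset.sum_nonneg fun e _ => hA0 e
  have hb0 : 0 ≤ b := Finset.sum_nonneg fun i _ => Finset.sum_nonneg fun j _ => hA'0 i j
  set n1 : ℝ := (N : ℝ) + 1 with hn1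
  have hn1pos : 1 ≤ n1 := by
    rw [hn1]
    have : (0 : ℝ) ≤ N := Nat.cast_nonneg N
    linarith
  refine ⟨1 + n1 * a * (1 + b), by
    have : 0 ≤ n1 * a * (1 + b) := by positivity
    linarith, fun ε z B hε hB hz => ?_⟩
  -- the largest coordinate
  obtain ⟨i0, _, hi0⟩ := Finset.exists_max_image Finset.univ (fun i => ‖z i‖) Finset.univ_nonempty
  have hi0' : ∀ i, ‖z i‖ ≤ ‖z i0‖ := fun i => hi0 i (Finset.mem_univ i)
  set R := ‖z i0‖ with hR
  have hmain : R ≤ (1 + n1 * a * (1 + b)) * B := by
    rcases le_or_gt R 1 with hR1 | hR1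
    · have : 0 ≤ n1 * a * (1 + b) * B := by positivity
      nlinarith
    · have hR0 : 0 < R := by linarith
      have hFz : ∀ i, ‖aeval z (F i)‖ ≤ (1 + b) * B * R ^ (d - 1) := by
        intro i
        have h1 : aeval z (F i) = H d (f i) ε z - ∑ j ∈ Finset.range d,
            ε ^ (d - j) * aeval z (homogeneousComponent j (f i)) := by
          unfold H
          rw [Finset.sum_range_succ, Nat.sub_self, pow_zero, one_mul, add_sub_cancel_left]
        rw [h1]
        have h2 : ‖∑ j ∈ Finset.range d, ε ^ (d - j) * aeval z (homogeneousComponent j (f i))‖ ≤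
            b * R ^ (d - 1) := by
          refine (norm_sum_le _ _).trans ?_
          have h3 : ∑ j ∈ Finset.range d, ‖ε ^ (d - j) * aeval z (homogeneousComponent j (f i))‖ ≤
              ∑ j ∈ Finset.range d, A' i j * R ^ (d - 1) := by
            refine Finset.sum_le_sum fun j hj => ?_
            rw [Finset.mem_range] at hj
            rw [norm_mul, norm_pow]
            calc ‖ε‖ ^ (d - j) * ‖aeval z (homogeneousComponent j (f i))‖ ≤
                1 * ‖aeval z (homogeneousComponent j (f i))‖ :=
                  mul_le_mul_of_nonneg_right (pow_le_one₀ (norm_nonneg _) hε) (norm_nonneg _)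
              _ ≤ A' i j * R ^ j := by
                  rw [one_mul]
                  exact hA' i j z R hR1.le hi0'
              _ ≤ A' i j * R ^ (d - 1) := by
                  apply mul_le_mul_of_nonneg_left _ (hA'0 i j)
                  exact pow_le_pow_right₀ hR1.le (by omega)
          refine h3.trans ?_
          rw [← Finset.sum_mul]
          apply mul_le_mul_of_nonneg_right _ (by positivity)
          exact Finset.single_le_sum (f := fun i => ∑ j ∈ Finset.range d, A' i j)
            (fun i _ => Finset.sum_nonneg fun j _ => hA'0 i j) (Finset.mem_univ i)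
        have h4 : (1 : ℝ) ≤ R ^ (d - 1) := one_le_pow₀ hR1.le
        calc ‖H d (f i) ε z - ∑ j ∈ Finset.range d,
            ε ^ (d - j) * aeval z (homogeneousComponent j (f i))‖ ≤ B + b * R ^ (d - 1) :=
              (norm_sub_le _ _).trans (add_le_add (hz i) h2)
          _ ≤ (1 + b) * B * R ^ (d - 1) := by
              have e1 : B ≤ B * R ^ (d - 1) := le_mul_of_one_le_right (by linarith) h4
              have e2 : b * R ^ (d - 1) ≤ b * B * R ^ (d - 1) := by
                rw [mul_assoc]
                apply mul_le_mul_of_nonneg_left _ hb0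
                exact le_mul_of_one_le_left (by positivity) hB
              nlinarith
      have h1 : R ^ (M + d) ≤ n1 * (a * R ^ M * ((1 + b) * B * R ^ (d - 1))) := by
        have h2 := congrArg (fun g => ‖aeval z g‖) (h i0)
        simp only [map_sum, map_mul, map_pow, aeval_X, norm_pow] at h2
        rw [← hR] at h2
        rw [← h2]
        refine (norm_sum_le _ _).trans ?_
        have h3 : ∀ j ∈ (Finset.univ : Finset (Fin (N + 1))),
            ‖aeval z (q (i0, j)) * aeval z (F j)‖ ≤ a * R ^ M * ((1 + b) * B * R ^ (d - 1)) := by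
          intro j _
          rw [norm_mul]
          apply mul_le_mul _ (hFz j) (norm_nonneg _) (by positivity)
          refine (hA (i0, j) z R hR1.le hi0').trans ?_
          apply mul_le_mul_of_nonneg_right _ (by positivity)
          exact Finset.single_le_sum (f := A) (fun e _ => hA0 e) (Finset.mem_univ _)
        refine (Finset.sum_le_sum h3).trans ?_
        rw [Finset.sum_const, Finset.card_univ, Fintype.card_fin, nsmul_eq_mul]
        push_cast
        exact le_rfl
      have h5 : R ^ (M + d) = R * (R ^ M * R ^ (d - 1)) := by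
        rw [← pow_add, ← pow_succ']
        congr 1
        omega
      rw [h5] at h1
      have h6 : n1 * (a * R ^ M * ((1 + b) * B * R ^ (d - 1))) =
          (n1 * a * (1 + b) * B) * (R ^ M * R ^ (d - 1)) := by ring
      rw [h6] at h1
      have h7 := le_of_mul_le_mul_right h1 (by positivity)
      nlinarith
  exact fun i => (hi0' i).trans hmain

end Pool.Agent.R847.SN
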