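import Mathlib
import Pool.Agent.R847.SN.Int

/-!
# Convergence and power rates of convergence in preimages
-/

set_option autoImplicit false

open MvPolynomial Filter Topology Asymptotics

namespace Pool.Agent.R847.SN

variable {k : Type} [Field k] {Ω : Type} [NormedField Ω] [Algebra k Ω]
variable {N : ℕ} {X : Type}

lemma q_lip {ι : Type} {l : Filter X} (q : MvPolynomial ι k) (w : X → ι → Ω) (b : ι → Ω)
    (hw : ∀ i, Tendsto (fun n => w n i) l (𝓝 (b i))) (φ : X → ℝ)
    (h : ∀ i, (fun n => w n i - b i) =O[l] φ) :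
    (fun n => aeval (w n) q - aeval b q) =O[l] φ := by
  induction q using MvPolynomial.induction_on with
  | C a =>
    simp only [aeval_C, sub_self]
    exact isBigO_zero _ _
  | add p q hp hq =>
    have h1 := hp.add hq
    refine h1.congr_left fun n => ?_
    rw [map_add, map_add]
    ring
  | mul_X p j hp =>
    have h1 : (fun n => (aeval (w n) p - aeval b p) * w n j) =O[l] φ := by
      simpa using hp.mul ((hw j).isBigO_one ℝ)
    have h2 : (fun n => aeval b p * (w n j - b j)) =O[l] φ := (h j).const_mul_left _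
    refine (h1.add h2).congr_left fun n => ?_
    rw [map_mul, map_mul, aeval_X, aeval_X]
    ring

lemma H_sub {ι : Type} (d : ℕ) (g : MvPolynomial ι k) (ε : Ω) (z : ι → Ω) :
    H d g ε z - aeval z (homogeneousComponent d g) =
      ∑ j ∈ Finset.range d, ε ^ (d - j) * aeval z (homogeneousComponent j g) := by
  unfold H
  rw [Finset.sum_range_succ, Nat.sub_self, pow_zero, one_mul, add_sub_cancel_right]

lemma H_sub_zero {ι : Type} {l : Filter X} (d : ℕ) (g : MvPolynomial ι k) (ε : X → Ω)
    (z : X → ι → Ω) (c : ι → Ω) (hε : Tendsto ε l (𝓝 0)) (hz : Tendsto z l (𝓝 c)) :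
    (fun n => H d g (ε n) (z n) - aeval (z n) (homogeneousComponent d g)) =O[l] ε := by
  simp_rw [H_sub]
  apply IsBigO.fun_sum
  intro j hj
  rw [Finset.mem_range] at hj
  have h3 := (((continuous_aeval' (Ω := Ω) (homogeneousComponent j g)).tendsto _).comp
    hz).isBigO_one ℝ
  have h4 := ((hε.pow (d - j - 1)).isBigO_one ℝ)
  have h5 := (((isBigO_refl ε l).norm_right.mul h4).mul h3)
  simp only [mul_one] at h5
  refine (h5.norm_right.congr_left fun n => ?_).of_norm_right.of_norm_right
  have h6 : ε n ^ (d - j) = ε n * ε n ^ (d - j - 1) := by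
    rw [← pow_succ']
    congr 1
    omega
  rw [h6]
  rfl

/-- Preimages of convergent sequences under a regular system converge. -/
lemma lim_step [IsAlgClosed Ω] (U : Ultrafilter X) (d : ℕ) (hd : d ≠ 0)
    (f : Fin (N + 1) → MvPolynomial (Fin (N + 1)) k) (hreg : Reg d f)
    (ε : X → Ω) (hε : Tendsto ε U (𝓝 0)) (z : X → Fin (N + 1) → Ω) (b : Fin (N + 1) → Ω)
    (h : ∀ i, Tendsto (fun n => H d (f i) (ε n) (z n)) U (𝓝 (b i))) :
    ∃ y : Fin (N + 1) → Ω, Tendsto z U (𝓝 y) ∧ ∀ i, aeval y (homogeneousComponent d (f i)) = b i := by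
  classical
  obtain ⟨C, hC1, hC⟩ := proper (Ω := Ω) d hd f hreg
  set B : ℝ := 1 + ∑ i, ‖b i‖ with hB
  have hB1 : 1 ≤ B := by
    have : 0 ≤ ∑ i, ‖b i‖ := Finset.sum_nonneg fun i _ => norm_nonneg _
    linarith
  have hbi : ∀ i, ‖b i‖ < B := by
    intro i
    have := Finset.single_le_sum (f := fun i => ‖b i‖) (fun i _ => norm_nonneg _)
      (Finset.mem_univ i)
    have h2 : ‖b i‖ ≤ ∑ i, ‖b i‖ := this
    linarith
  have hR1 : 1 ≤ C * B := by nlinarith
  have hbd : ∀ᶠ n in U, ∀ i, ‖z n i‖ ≤ C * B := by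
    have h1 : ∀ᶠ n in U, ‖ε n‖ ≤ 1 := by
      have h2 := hε.norm
      rw [norm_zero] at h2
      filter_upwards [h2.eventually (gt_mem_nhds zero_lt_one)] with n hn
      exact hn.le
    have h3 : ∀ᶠ n in U, ∀ i, ‖H d (f i) (ε n) (z n)‖ ≤ B := by
      rw [eventually_all]
      intro i
      filter_upwards [(h i).norm.eventually (gt_mem_nhds (hbi i))] with n hn
      exact hn.le
    filter_upwards [h1, h3] with n e1 e2
    exact hC (ε n) (z n) B e1 hB1 e2
  have hzO : ∀ j, (fun n => z n j) =O[(U : Filter X)] (fun _ => (1 : ℝ)) := by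
    intro j
    apply IsBigO.of_bound (C * B)
    filter_upwards [hbd] with n hn
    rw [norm_one, mul_one]
    exact hn j
  have hpO : ∀ g : MvPolynomial (Fin (N + 1)) k,
      (fun n => aeval (z n) g) =O[(U : Filter X)] (fun _ => (1 : ℝ)) := by
    intro g
    obtain ⟨A, hA0, hA⟩ := poly_bound (Ω := Ω) g g.totalDegree le_rfl
    apply IsBigO.of_bound (A * (C * B) ^ g.totalDegree)
    filter_upwards [hbd] with n hn
    rw [norm_one, mul_one]
    exact hA (z n) _ hR1 hn
  have hF : ∀ i, Tendsto (fun n => aeval (z n) (homogeneousComponent d (f i))) U (𝓝 (b i)) := by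
    intro i
    have h1 : Tendsto (fun n => H d (f i) (ε n) (z n) -
        aeval (z n) (homogeneousComponent d (f i))) U (𝓝 0) := by
      rw [← isLittleO_one_iff ℝ]
      simp_rw [H_sub]
      apply IsLittleO.fun_sum
      intro j hj
      rw [Finset.mem_range] at hj
      have h2 : (fun n => ε n ^ (d - j)) =o[(U : Filter X)] (fun _ => (1 : ℝ)) := by
        rw [isLittleO_one_iff]
        have := hε.pow (d - j)
        rwa [zero_pow (by omega)] at this
      simpa using h2.mul_isBigO (hpO (homogeneousComponent j (f i)))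
    have h2 := (h i).sub h1
    rw [sub_zero] at h2
    refine h2.congr fun n => ?_
    ring
  have hFt : Tendsto (fun n i => aeval (z n) (homogeneousComponent d (f i))) U (𝓝 b) :=
    tendsto_pi_nhds.2 hF
  have key : ∀ j, ∃ c, Tendsto (fun n => z n j) U (𝓝 c) := by
    intro j
    obtain ⟨n0, q, hq⟩ := exists_int d hd f hreg j
    apply root_lim U _ _ (TT n0 q b) (TT_monic n0 q b).ne_zero rfl
    have h1 : (fun n => (TT n0 q b).eval (z n j)) =
        fun n => ∑ i ∈ Finset.range n0, -((aeval (fun r => aeval (z n)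
          (homogeneousComponent d (f r))) (q i) - aeval b (q i)) * z n j ^ i) := by
      funext n
      have h2 := hq Ω (z n)
      rw [TT_eval]
      rw [← sub_zero (z n j ^ n0 + _), ← h2, add_sub_add_left_eq_sub, ← Finset.sum_sub_distrib]
      refine Finset.sum_congr rfl fun i _ => ?_
      ring
    rw [h1, ← isLittleO_one_iff ℝ]
    apply IsLittleO.fun_sum
    intro i _
    apply IsLittleO.neg_left
    have h2 : (fun n => aeval (fun r => aeval (z n) (homogeneousComponent d (f r))) (q i) -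
        aeval b (q i)) =o[(U : Filter X)] (fun _ => (1 : ℝ)) := by
      rw [isLittleO_one_iff]
      have h3 := ((continuous_aeval' (Ω := Ω) (q i)).tendsto b).comp hFt
      have h4 := h3.sub_const (aeval b (q i))
      rw [sub_self] at h4
      exact h4
    have h5 := h2.mul_isBigO ((hzO j).pow i)
    simpa using h5
  choose y hy using key
  refine ⟨y, tendsto_pi_nhds.2 hy, fun i => ?_⟩
  exact tendsto_nhds_unique (((continuous_aeval' (Ω := Ω)
    (homogeneousComponent d (f i))).tendsto y).comp (tendsto_pi_nhds.2 hy)) (hF i)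

/-- Power rate in the preimage. -/
lemma weak_rate (U : Ultrafilter X) (d : ℕ) (hd : d ≠ 0)
    (f : Fin (N + 1) → MvPolynomial (Fin (N + 1)) k) (hreg : Reg d f)
    (s : X → Ω) (hs : Tendsto (fun n => ‖s n‖) U atTop) (z : X → Fin (N + 1) → Ω)
    (y b : Fin (N + 1) → Ω)
    (hz : Tendsto z U (𝓝 y)) (hy : ∀ i, aeval y (homogeneousComponent d (f i)) = b i)
    (ρ : ℝ) (hρ : 0 < ρ)
    (h : ∀ i, (fun n => H d (f i) (s n)⁻¹ (z n) - b i) =O[(U : Filter X)]
      fun n => ‖s n‖ ^ (-ρ)) :
    ∃ ρ' : ℝ, 0 < ρ' ∧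
      ∀ i, (fun n => z n i - y i) =O[(U : Filter X)] fun n => ‖s n‖ ^ (-ρ') := by
  set ρ0 := min ρ 1 with hρ0
  have hρ0' : 0 < ρ0 := lt_min hρ one_pos
  have hε : Tendsto (fun n => (s n)⁻¹) U (𝓝 0) := by
    rw [tendsto_zero_iff_norm_tendsto_zero]
    simp_rw [norm_inv]
    exact tendsto_inv_atTop_zero.comp hs
  have hmono : ∀ a b : ℝ, a ≤ b → (fun n => ‖s n‖ ^ (-b)) =O[(U : Filter X)]
      fun n => ‖s n‖ ^ (-a) := by
    intro a b hab
    apply IsBigO.of_bound 1
    filter_upwards [hs.eventually_ge_atTop 1] with n hn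
    rw [one_mul, Real.norm_of_nonneg (Real.rpow_nonneg (by linarith) _),
      Real.norm_of_nonneg (Real.rpow_nonneg (by linarith) _)]
    exact Real.rpow_le_rpow_of_exponent_le hn (by linarith)
  have hinv : (fun n => (s n)⁻¹) =O[(U : Filter X)] fun n => ‖s n‖ ^ (-ρ0) := by
    have h1 := hmono ρ0 1 (min_le_right _ _)
    have h2 : (fun n => (s n)⁻¹) =O[(U : Filter X)] fun n => ‖s n‖ ^ (-(1 : ℝ)) := by
      apply IsBigO.of_bound 1
      filter_upwards with n
      rw [Real.rpow_neg_one, one_mul, norm_inv, norm_inv, norm_norm]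
    exact h2.trans h1
  set w : X → Fin (N + 1) → Ω := fun n i => aeval (z n) (homogeneousComponent d (f i)) with hw
  have hwb : ∀ i, (fun n => w n i - b i) =O[(U : Filter X)] fun n => ‖s n‖ ^ (-ρ0) := by
    intro i
    have h1 := (H_sub_zero d (f i) _ z y hε hz).trans hinv
    have h2 := (h i).trans (hmono ρ0 ρ (min_le_left _ _))
    refine (h2.sub h1).congr_left fun n => ?_
    ring
  have hwt : ∀ i, Tendsto (fun n => w n i) U (𝓝 (b i)) := by
    intro i
    rw [← hy i]
    exact ((continuous_aeval' (Ω := Ω) (homogeneousComponent d (f i))).tendsto _).comp hz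
  have key : ∀ j, ∃ ρ' : ℝ, 0 < ρ' ∧
      (fun n => z n j - y j) =O[(U : Filter X)] fun n => ‖s n‖ ^ (-ρ') := by
    intro j
    obtain ⟨n0, q, hq⟩ := exists_int d hd f hreg j
    have hzj : Tendsto (fun n => z n j) U (𝓝 (y j)) := tendsto_pi_nhds.1 hz j
    apply root_rate U (fun n => ‖s n‖) hs (TT n0 q b) (TT_monic n0 q b).ne_zero _ _ hzj ρ0 hρ0'
    have h1 : (fun n => (TT n0 q b).eval (z n j)) =
        fun n => ∑ i ∈ Finset.range n0, -((aeval (w n) (q i) - aeval b (q i)) * z n j ^ i) := by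
      funext n
      have h2 := hq Ω (z n)
      rw [TT_eval]
      rw [← sub_zero (z n j ^ n0 + _), ← h2, add_sub_add_left_eq_sub, ← Finset.sum_sub_distrib]
      refine Finset.sum_congr rfl fun i _ => ?_
      ring
    rw [h1]
    apply IsBigO.fun_sum
    intro i _
    have h2 := (q_lip (q i) w b hwt _ hwb).mul ((hzj.pow i).isBigO_one ℝ)
    simp only [mul_one] at h2
    exact h2.neg_left
  choose ρ' hρ' hkey using key
  refine ⟨Finset.univ.inf' Finset.univ_nonempty ρ', ?_, fun i => ?_⟩
  · rw [Finset.lt_inf'_iff]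
    intro i _
    exact hρ' i
  · exact (hkey i).trans (hmono _ _ (Finset.inf'_le _ (Finset.mem_univ i)))

end Pool.Agent.R847.SN
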