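import Mathlib
import Pool.Agent.R847.SN.Step

/-!
# The tower of the scaled predecessors of an orbit along an ultrafilter
-/

set_option autoImplicit false

open MvPolynomial Filter Topology Asymptotics

namespace Pool.Agent.R847.SN

variable {k : Type} [Field k] {N : ℕ}

/-- scaled predecessors of the points of an orbit -/
structure Tower (d : ℕ) (f : Fin (N + 1) → MvPolynomial (Fin (N + 1)) k) (U : Ultrafilter ℕ)
    (x : ℕ → Fin (N + 1) → k) (Ω : Type) [NormedField Ω] [Algebra k Ω] where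
  s : ℕ → ℕ → Ω
  z : ℕ → ℕ → Fin (N + 1) → Ω
  y : ℕ → Fin (N + 1) → Ω
  hs : ∀ j, Tendsto (fun n => ‖s j n‖) U atTop
  hsd : ∀ j, ∀ᶠ n in U, s (j + 1) n ^ d = s j n
  hp : ∀ j, ∀ᶠ n in U, ∀ i, algebraMap k Ω (x (n - j) i) = s j n * z j n i
  hf : ∀ j, ∀ᶠ n in U, ∀ i, aeval (x (n - (j + 1))) (f i) = x (n - j) i
  hz : ∀ j, Tendsto (z j) U (𝓝 (y j))
  hy : ∀ j i, aeval (y (j + 1)) (homogeneousComponent d (f i)) = y j i
  hy0 : ∀ j, y j ≠ 0
  hrate : ∀ j, ∃ ρ : ℝ, 0 < ρ ∧
    ∀ i, (fun n => z j n i - y j i) =O[(U : Filter ℕ)] fun n => ‖s j n‖ ^ (-ρ)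

lemma map_aevalk {ι A : Type} [CommRing A] [Algebra k A] (w : ι → k)
    (g : MvPolynomial ι k) : algebraMap k A (aeval w g) = aeval (fun i => algebraMap k A (w i)) g :=
  comp_aeval_apply w (Algebra.ofId k A) g

/-- a homogeneous polynomial in two variables does not vanish on a vertical line -/
lemma line_ne_zero (P : MvPolynomial (Fin 2) k) (e : ℕ) (hP : P.IsHomogeneous e) (hP0 : P ≠ 0) :
    aeval ![(1 : Polynomial k), Polynomial.X] P ≠ 0 := by
  classical
  obtain ⟨κ, hκ⟩ := MvPolynomial.support_nonempty.2 hP0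
  intro h0
  have hdeg : ∀ τ ∈ P.support, τ 0 + τ 1 = e := by
    intro τ hτ
    have := hP (mem_support_iff.1 hτ)
    rw [Finsupp.weight_apply, Finsupp.sum_fintype _ _ (by simp), Fin.sum_univ_two] at this
    simpa using this
  have h1 := congrArg (fun T => Polynomial.coeff T (κ 1)) h0
  simp only [Polynomial.coeff_zero] at h1
  have h2 : ∀ a : k, (algebraMap k (Polynomial k)) a = Polynomial.C a := fun a => rfl
  rw [aeval_def, eval₂_eq', Polynomial.finsetSum_coeff, Finset.sum_eq_single κ] at h1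
  · rw [Fin.prod_univ_two] at h1
    simp only [Matrix.cons_val_zero, Matrix.cons_val_one, one_pow, one_mul] at h1
    rw [h2, Polynomial.coeff_C_mul, Polynomial.coeff_X_pow_self, mul_one] at h1
    exact (mem_support_iff.1 hκ) h1
  · intro τ hτ hne
    rw [Fin.prod_univ_two]
    simp only [Matrix.cons_val_zero, Matrix.cons_val_one, one_pow, one_mul]
    rw [h2, Polynomial.coeff_C_mul, Polynomial.coeff_X_pow, if_neg, mul_zero]
    intro h3
    apply hne
    have h4 := hdeg τ hτ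
    have h5 := hdeg κ hκ
    ext i
    fin_cases i
    · show τ 0 = κ 0
      omega
    · exact h3.symm
  · intro h
    exact absurd hκ h

section base

variable {Ω : Type} [NormedField Ω] [Algebra k Ω]

lemma inv_tendsto {X : Type} {l : Filter X} (s : X → Ω) (hs : Tendsto (fun n => ‖s n‖) l atTop) :
    Tendsto (fun n => (s n)⁻¹) l (𝓝 0) := by
  rw [tendsto_zero_iff_norm_tendsto_zero]
  simp_rw [norm_inv]
  exact tendsto_inv_atTop_zero.comp hs

lemma inv_isBigO {X : Type} {l : Filter X} (s : X → Ω) :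
    (fun n => (s n)⁻¹) =O[l] fun n => ‖s n‖ ^ (-(1 : ℝ)) := by
  apply IsBigO.of_bound 1
  filter_upwards with n
  rw [Real.rpow_neg_one, one_mul, norm_inv, norm_inv, norm_norm]

lemma mono_isBigO {X : Type} {l : Filter X} (s : X → Ω) (hs : Tendsto (fun n => ‖s n‖) l atTop)
    (a b : ℝ) (hab : a ≤ b) : (fun n => ‖s n‖ ^ (-b)) =O[l] fun n => ‖s n‖ ^ (-a) := by
  apply IsBigO.of_bound 1
  filter_upwards [hs.eventually_ge_atTop 1] with n hn
  rw [one_mul, Real.norm_of_nonneg (Real.rpow_nonneg (by linarith) _),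
    Real.norm_of_nonneg (Real.rpow_nonneg (by linarith) _)]
  exact Real.rpow_le_rpow_of_exponent_le hn (by linarith)

/-- The limit and the rate at the base of the tower. -/
lemma base_rate [IsAlgClosed Ω] (U : Ultrafilter ℕ) (s : ℕ → Ω)
    (hs : Tendsto (fun n => ‖s n‖) U atTop) (P : MvPolynomial (Fin 2) k)
    (hP : P ≠ 0) (z : ℕ → Ω) (hz : ∀ᶠ n in U, ‖z n‖ ≤ 1)
    (h : ∀ᶠ n in U, aeval ![s n, s n * z n] P = 0) :
    ∃ c : Ω, Tendsto z U (𝓝 c) ∧
      ∃ ρ : ℝ, 0 < ρ ∧ (fun n => z n - c) =O[(U : Filter ℕ)] fun n => ‖s n‖ ^ (-ρ) := by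
  set e := P.totalDegree with he
  set Q := homogeneousComponent e P with hQ
  have hQ0 : Q ≠ 0 := by
    intro h0
    obtain ⟨κ, hκ, hκe⟩ := P.support.exists_mem_eq_sup (MvPolynomial.support_nonempty.2 hP)
      (fun κ => κ.sum fun _ e => e)
    have h1 : coeff κ Q = coeff κ P := by
      rw [hQ, coeff_homogeneousComponent, if_pos]
      rw [he, totalDegree, hκe, Finsupp.degree_eq_sum, Finsupp.sum_fintype _ _ (by simp)]
    rw [h0, coeff_zero] at h1
    exact (mem_support_iff.1 hκ) h1.symm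
  set T' := aeval ![(1 : Polynomial k), Polynomial.X] Q with hT'
  have hT'0 : T' ≠ 0 := line_ne_zero Q e (homogeneousComponent_isHomogeneous e P) hQ0
  set T : Polynomial Ω := T'.map (algebraMap k Ω) with hT
  have hT0 : T ≠ 0 := (Polynomial.map_ne_zero_iff (algebraMap k Ω).injective).2 hT'0
  have hTe : ∀ t : Ω, T.eval t = aeval ![(1 : Ω), t] Q := by
    intro t
    have h1 : T.eval t = Polynomial.aeval t T' := by
      rw [hT, Polynomial.eval_map, Polynomial.aeval_def]
    rw [h1, hT', comp_aeval_apply _ (Polynomial.aeval t : Polynomial k →ₐ[k] Ω)]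
    congr 2
    funext i
    fin_cases i
    · simp
    · simp
  have hε := inv_tendsto s hs
  have hbd : ∀ᶠ n in U, ∀ i, ‖(![(1 : Ω), z n] : Fin 2 → Ω) i‖ ≤ 1 := by
    filter_upwards [hz] with n hn i
    fin_cases i
    · simp
    · simpa using hn
  have h1 : (fun n => H e P (s n)⁻¹ ![(1 : Ω), z n] - aeval ![(1 : Ω), z n] Q) =O[(U : Filter ℕ)]
      fun n => ‖s n‖ ^ (-(1 : ℝ)) := by
    simp_rw [hQ, H_sub]
    apply IsBigO.fun_sum
    intro j hj
    rw [Finset.mem_range] at hj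
    obtain ⟨A, hA0, hA⟩ := poly_bound (Ω := Ω) (homogeneousComponent j P) _ le_rfl
    have h3 : (fun n => aeval ![(1 : Ω), z n] (homogeneousComponent j P)) =O[(U : Filter ℕ)]
        (fun _ => (1 : ℝ)) := by
      apply IsBigO.of_bound A
      filter_upwards [hbd] with n hn
      have := hA ![(1 : Ω), z n] 1 le_rfl hn
      simpa using this
    have h4 := ((hε.pow (e - j - 1)).isBigO_one ℝ)
    have h5 := ((inv_isBigO (l := (U : Filter ℕ)) s).mul h4).mul h3
    simp only [mul_one] at h5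
    refine h5.congr_left fun n => ?_
    have h6 : (s n)⁻¹ ^ (e - j) = (s n)⁻¹ * (s n)⁻¹ ^ (e - j - 1) := by
      rw [← pow_succ']
      congr 1
      omega
    rw [h6]
  have h2 : (fun n => T.eval (z n)) =O[(U : Filter ℕ)] fun n => ‖s n‖ ^ (-(1 : ℝ)) := by
    refine h1.neg_left.congr' ?_ EventuallyEq.rfl
    filter_upwards [h, hs.eventually_gt_atTop 0] with n hn hsn
    have hsn' : s n ≠ 0 := norm_pos_iff.1 hsn
    have h4 := H_eval e P le_rfl (s n)⁻¹ (s n) (mul_inv_cancel₀ hsn') ![(1 : Ω), z n]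
    have h5 : (fun i => s n * (![(1 : Ω), z n] : Fin 2 → Ω) i) = ![s n, s n * z n] := by
      funext i
      fin_cases i
      · simp
      · simp
    rw [h5, hn] at h4
    have h6 := (mul_eq_zero.1 h4).resolve_left (pow_ne_zero _ hsn')
    rw [h6, hTe]
    ring
  have h3 : Tendsto (fun n => T.eval (z n)) U (𝓝 0) :=
    h2.trans_tendsto ((tendsto_rpow_neg_atTop one_pos).comp hs)
  obtain ⟨c, hc⟩ := root_lim U z _ T hT0 rfl h3
  exact ⟨c, hc, root_rate U (fun n => ‖s n‖) hs T hT0 z c hc 1 one_pos h2⟩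

lemma root_big {X : Type} {l : Filter X} (d : ℕ) (hd : d ≠ 0) (a b : X → Ω)
    (hab : ∀ n, a n ^ d = b n) (hb : Tendsto (fun n => ‖b n‖) l atTop) :
    Tendsto (fun n => ‖a n‖) l atTop := by
  have hd0 : (0 : ℝ) < (d : ℝ)⁻¹ := by
    have : (0 : ℝ) < d := by exact_mod_cast Nat.pos_of_ne_zero hd
    positivity
  refine ((tendsto_rpow_atTop hd0).comp hb).congr fun n => ?_
  show ‖b n‖ ^ (d : ℝ)⁻¹ = ‖a n‖
  rw [← hab, norm_pow, Real.pow_rpow_inv_natCast (norm_nonneg _) hd]

end base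

/-- Construction of the tower. -/
lemma exists_tower {Ω : Type} [NormedField Ω] [Algebra k Ω] [IsAlgClosed Ω] (d : ℕ) (hd : 2 ≤ d)
    (f : Fin (N + 1) → MvPolynomial (Fin (N + 1)) k)
    (hdeg : ∀ i, (f i).totalDegree ≤ d) (hreg : Reg d f)
    (x : ℕ → Fin (N + 1) → k) (hx : ∀ n i, x (n + 1) i = aeval (x n) (f i))
    (U : Ultrafilter ℕ) (hU : (U : Filter ℕ) ≤ atTop)
    (hbig : Tendsto (fun n => ‖fun i => algebraMap k Ω (x n i)‖) U atTop)
    (hpair : ∀ i j, ∃ P : MvPolynomial (Fin 2) k, P ≠ 0 ∧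
      ∀ᶠ n in U, aeval ![x n i, x n j] P = 0) :
    Nonempty (Tower d f U x Ω) := by
  classical
  have hd0 : d ≠ 0 := by omega
  -- a largest coordinate
  obtain ⟨i0, hi0⟩ : ∃ i0, ∀ᶠ n in U, ∀ i, ‖algebraMap k Ω (x n i)‖ ≤
      ‖algebraMap k Ω (x n i0)‖ := by
    apply uf_choice U (fun (i0 : Fin (N + 1)) n => ∀ i, ‖algebraMap k Ω (x n i)‖ ≤
      ‖algebraMap k Ω (x n i0)‖)
    filter_upwards with n
    obtain ⟨i, _, hi⟩ := Finset.exists_max_image Finset.univ
      (fun i => ‖algebraMap k Ω (x n i)‖) Finset.univ_nonempty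
    exact ⟨i, fun j => hi j (Finset.mem_univ j)⟩
  have hs0 : Tendsto (fun n => ‖algebraMap k Ω (x n i0)‖) U atTop := by
    refine tendsto_atTop_mono' _ ?_ hbig
    filter_upwards [hi0] with n hn
    rw [pi_norm_le_iff_of_nonneg (norm_nonneg _)]
    exact hn
  -- roots
  have hrt : ∀ a : Ω, ∃ b : Ω, b ^ d = a := fun a => IsAlgClosed.exists_pow_nat_eq a (by omega)
  choose rt hrt using hrt
  set s : ℕ → ℕ → Ω := fun j n => rt^[j] (algebraMap k Ω (x n i0)) with hs
  have hsd : ∀ j n, s (j + 1) n ^ d = s j n := by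
    intro j n
    rw [hs]
    simp only [Function.iterate_succ_apply']
    exact hrt _
  have hst : ∀ j, Tendsto (fun n => ‖s j n‖) U atTop := by
    intro j
    induction j with
    | zero => exact hs0
    | succ j ih => exact root_big d hd0 (s (j + 1)) (s j) (hsd j) ih
  set z : ℕ → ℕ → Fin (N + 1) → Ω := fun j n i => algebraMap k Ω (x (n - j) i) / s j n with hz
  have hsne : ∀ j, ∀ᶠ n in U, s j n ≠ 0 := fun j =>
    ((hst j).eventually_gt_atTop 0).mono fun n hn => norm_pos_iff.1 hn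
  have hp : ∀ j, ∀ᶠ n in U, ∀ i, algebraMap k Ω (x (n - j) i) = s j n * z j n i := by
    intro j
    filter_upwards [hsne j] with n hn i
    rw [hz]
    simp only
    field_simp
  have hf : ∀ j, ∀ᶠ n in U, ∀ i, aeval (x (n - (j + 1))) (f i) = x (n - j) i := by
    intro j
    have h1 : ∀ᶠ n in U, j + 1 ≤ n := hU (eventually_ge_atTop (j + 1))
    filter_upwards [h1] with n hn i
    rw [← hx]
    congr 2
    omega
  -- the recursion of the scaled points
  have hH : ∀ j i, ∀ᶠ n in U, H d (f i) (s (j + 1) n)⁻¹ (z (j + 1) n) = z j n i := by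
    intro j i
    filter_upwards [hf j, hp (j + 1), hp j, hsne j, hsne (j + 1)] with n h1 h2 h3 h4 h5
    have h6 := H_eval d (f i) (hdeg i) (s (j + 1) n)⁻¹ (s (j + 1) n) (mul_inv_cancel₀ h5)
      (z (j + 1) n)
    have h7 : (fun i => s (j + 1) n * z (j + 1) n i) =
        fun i => algebraMap k Ω (x (n - (j + 1)) i) := by
      funext i
      rw [h2 i]
    rw [h7, ← map_aevalk, h1 i, hsd, h3 i] at h6
    exact mul_left_cancel₀ h4 h6
  have hε : ∀ j, Tendsto (fun n => (s j n)⁻¹) U (𝓝 0) := fun j => inv_tendsto _ (hst j)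
  -- the base
  have hz1 : ∀ i, ∀ᶠ n in U, ‖z 0 n i‖ ≤ 1 := by
    intro i
    filter_upwards [hi0, (hst 0).eventually_gt_atTop 0] with n h1 h2
    rw [hz]
    simp only [Nat.sub_zero]
    rw [norm_div, div_le_one h2]
    exact h1 i
  have hz0 : ∀ᶠ n in U, z 0 n i0 = 1 := by
    filter_upwards [hsne 0] with n hn
    rw [hz]
    simp only [Nat.sub_zero]
    exact div_self hn
  have hbase : ∀ j, ∃ c : Ω, Tendsto (fun n => z 0 n j) U (𝓝 c) ∧ ∃ ρ : ℝ, 0 < ρ ∧
      (fun n => z 0 n j - c) =O[(U : Filter ℕ)] fun n => ‖s 0 n‖ ^ (-ρ) := by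
    intro j
    obtain ⟨P, hP, hPn⟩ := hpair i0 j
    apply base_rate U (s 0) (hst 0) P hP _ (hz1 j)
    filter_upwards [hPn, hp 0] with n h1 h3
    have h4 := congrArg (algebraMap k Ω) h1
    rw [map_aevalk, map_zero] at h4
    rw [← h4]
    congr 2
    funext i
    fin_cases i
    · rfl
    · simpa using (h3 j).symm
  choose y0 hy0 hy0r using hbase
  have hy0t : Tendsto (z 0) U (𝓝 y0) := tendsto_pi_nhds.2 hy0
  have hy00 : y0 ≠ 0 := by
    intro h0
    have h1 : Tendsto (fun n => z 0 n i0) U (𝓝 1) := by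
      apply Tendsto.congr' _ tendsto_const_nhds
      filter_upwards [hz0] with n hn
      exact hn.symm
    have h2 := tendsto_nhds_unique (hy0 i0) h1
    rw [h0] at h2
    exact zero_ne_one h2
  -- the limits
  have hlim : ∀ j, ∀ b : Fin (N + 1) → Ω, Tendsto (z j) U (𝓝 b) →
      ∃ y : Fin (N + 1) → Ω, Tendsto (z (j + 1)) U (𝓝 y) ∧
        ∀ i, aeval y (homogeneousComponent d (f i)) = b i := by
    intro j b hb
    apply lim_step U d hd0 f hreg _ (hε (j + 1)) (z (j + 1)) b
    intro i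
    refine Tendsto.congr' ?_ (tendsto_pi_nhds.1 hb i)
    filter_upwards [hH j i] with n hn
    exact hn.symm
  have hex : ∀ j, ∃ y : Fin (N + 1) → Ω, Tendsto (z j) U (𝓝 y) := by
    intro j
    induction j with
    | zero => exact ⟨y0, hy0t⟩
    | succ j ih =>
      obtain ⟨b, hb⟩ := ih
      obtain ⟨y, hy, _⟩ := hlim j b hb
      exact ⟨y, hy⟩
  choose y hy using hex
  have hyy : ∀ j i, aeval (y (j + 1)) (homogeneousComponent d (f i)) = y j i := by
    intro j i
    obtain ⟨y', hy', h1⟩ := hlim j (y j) (hy j)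
    rw [tendsto_nhds_unique (hy (j + 1)) hy']
    exact h1 i
  have hyz : y 0 = y0 := tendsto_nhds_unique (hy 0) hy0t
  have hy00' : ∀ j, y j ≠ 0 := by
    intro j
    induction j with
    | zero => rw [hyz]; exact hy00
    | succ j ih =>
      intro h0
      apply ih
      funext i
      rw [← hyy j i, h0]
      have h1 := aeval_scale (homogeneousComponent d (f i)) d
        (homogeneousComponent_isHomogeneous d (f i)) (0 : Ω) (0 : Fin (N + 1) → Ω)
      rw [zero_pow hd0, zero_mul] at h1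
      simpa using h1
  have hrate : ∀ j, ∃ ρ : ℝ, 0 < ρ ∧
      ∀ i, (fun n => z j n i - y j i) =O[(U : Filter ℕ)] fun n => ‖s j n‖ ^ (-ρ) := by
    intro j
    induction j with
    | zero =>
      choose ρ hρ hρ' using hy0r
      refine ⟨Finset.univ.inf' Finset.univ_nonempty ρ, ?_, fun i => ?_⟩
      · rw [Finset.lt_inf'_iff]
        intro i _
        exact hρ i
      · rw [hyz]
        exact (hρ' i).trans (mono_isBigO _ (hst 0) _ _ (Finset.inf'_le _ (Finset.mem_univ i)))
    | succ j ih =>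
      obtain ⟨ρ, hρ, h1⟩ := ih
      apply weak_rate U d hd0 f hreg (s (j + 1)) (hst (j + 1)) (z (j + 1)) (y (j + 1))
        (y j) (hy (j + 1)) (hyy j) (d * ρ) (by positivity)
      intro i
      refine (h1 i).congr' ?_ ?_
      · filter_upwards [hH j i] with n hn
        rw [hn]
      · filter_upwards with n
        rw [← hsd, norm_pow, ← Real.rpow_natCast, ← Real.rpow_mul (norm_nonneg _)]
        congr 1
        ring
  exact ⟨⟨s, z, y, hst, fun j => Eventually.of_forall (hsd j), hp, hf, hy, hyy, hy00', hrate⟩⟩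

end Pool.Agent.R847.SN
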