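import Mathlib
import Pool.Agent.R847.SN.Leaf
import Pool.Agent.R847.SG.Flag

/-!
# Local estimates for polynomials at the predecessors
-/

set_option autoImplicit false

open MvPolynomial Filter Topology Asymptotics

namespace Pool.Agent.R847.SN

variable {k : Type} [Field k] {N d : ℕ} {f : Fin (N + 1) → MvPolynomial (Fin (N + 1)) k}
  {U : Ultrafilter ℕ} {x : ℕ → Fin (N + 1) → k} {Ω : Type} [NormedField Ω] [Algebra k Ω]

lemma Tower.val (T : Tower d f U x Ω) (j m : ℕ) (g : MvPolynomial (Fin (N + 1)) k)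
    (hg : g.totalDegree ≤ m) :
    ∀ᶠ n in U, algebraMap k Ω (aeval (x (n - j)) g) =
      T.s j n ^ m * H m g (T.s j n)⁻¹ (T.z j n) := by
  filter_upwards [T.hp j, (T.hs j).eventually_gt_atTop 0] with n h1 h2
  rw [H_eval m g hg (T.s j n)⁻¹ (T.s j n) (mul_inv_cancel₀ (norm_pos_iff.1 h2))]
  have h3 : (fun i => T.s j n * T.z j n i) = fun i => algebraMap k Ω (x (n - j) i) := by
    funext i
    rw [h1 i]
  rw [h3]
  exact map_aevalk _ _

lemma Leaves.val {T : Tower d f U x Ω} {k1 J : ℕ} (L : Leaves T k1 J) (j m : ℕ)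
    (hr : ∀ i, (fun n => T.z (k1 + j) n i - (L.a j i).eval (T.s (k1 + j) n)⁻¹)
      =O[(U : Filter ℕ)] fun n => ‖T.s (k1 + j) n‖ ^ (-(J : ℝ)))
    (g : MvPolynomial (Fin (N + 1)) k) :
    (fun n => H m g (T.s (k1 + j) n)⁻¹ (T.z (k1 + j) n) -
      (H m g Polynomial.X (L.a j)).eval (T.s (k1 + j) n)⁻¹)
      =O[(U : Filter ℕ)] fun n => ‖T.s (k1 + j) n‖ ^ (-(J : ℝ)) := by
  have h1 := lip m g (fun n => (T.s (k1 + j) n)⁻¹) (T.z (k1 + j))
    (fun n i => (L.a j i).eval (T.s (k1 + j) n)⁻¹) 0 _ _ (T.hε _) (T.hz _) (L.tendsto j) _ hr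
  refine h1.congr_left fun n => ?_
  rw [eval_H]

/-- Values of equations at the predecessors one period later tend to zero. -/
theorem mon_place (T : Tower d f U x Ω) (hd : 2 ≤ d) (hdeg : ∀ i, (f i).totalDegree ≤ d) (k1 : ℕ)
    (hdet : ∀ j ≥ k1, (Dm d f (T.y j)).det ≠ 0) (l : ℕ) (τ : ℕ → Ω) (hτ : ∀ j, τ j ≠ 0)
    (hyl : ∀ j i, T.y (k1 + j + l) i = τ j * T.y (k1 + j) i) (m : ℕ) :
    ∃ K, ∀ j ≥ K, ∀ g : MvPolynomial (Fin (N + 1)) k, g.totalDegree ≤ m →
      (∀ᶠ n in U, aeval (x (n - j)) g = 0) →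
      Tendsto (fun n => ‖algebraMap k Ω (aeval (x (n - (j + l))) g)‖) U (𝓝 0) := by
  obtain ⟨L⟩ := exists_leaves (by omega) T k1 (m + 1) hdet
  obtain ⟨j0, hj0⟩ := L.rate hd hdeg hdet
  refine ⟨k1 + (j0 + (m + 1)), fun c hk g hg h => ?_⟩
  obtain ⟨j, rfl⟩ : ∃ j, c = k1 + j := ⟨c - k1, by omega⟩
  have hv1 := L.val j m (hj0 j (by omega)) g
  have hv2 := L.val (j + l) m (hj0 (j + l) (by omega)) g
  -- the polynomial of the expansion vanishes to order `m + 1`
  have h1 : Polynomial.X ^ (m + 1) ∣ H m g Polynomial.X (L.a j) := by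
    apply dvd_of_isBigO _ _ _ (T.hs (k1 + j))
    refine hv1.neg_left.congr' ?_ EventuallyEq.rfl
    filter_upwards [T.val (k1 + j) m g hg, h, (T.hs (k1 + j)).eventually_gt_atTop 0]
      with n e1 e2 e3
    rw [e2, map_zero] at e1
    have e4 := (mul_eq_zero.1 e1.symm).resolve_left (pow_ne_zero _ (norm_pos_iff.1 e3))
    rw [e4]
    ring
  have h2 : Polynomial.X ^ (m + 1) ∣ H m g Polynomial.X (fun i => sc (τ j) (L.a j i)) := by
    rw [H_sc _ _ _ (hτ j)]
    exact Dvd.dvd.mul_left (comp_dvd _ _ _ h1) _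
  have h3 : ∀ i, Polynomial.X ^ (m + 1) ∣ L.a (j + l) i - sc (τ j) (L.a j i) := by
    have h4 := L.uniq (by omega) hdet l τ hτ hyl (m + 1) j (by omega)
    have h5 : min (d ^ (m + 1)) (m + 1) = m + 1 := by
      apply min_eq_right
      exact (Nat.lt_pow_self (by omega : 1 < d)).le
    rw [h5] at h4
    exact h4
  have h4 : Polynomial.X ^ (m + 1) ∣ H m g Polynomial.X (L.a (j + l)) := by
    have h5 := W_spec m g Polynomial.X (L.a (j + l)) (fun i => sc (τ j) (L.a j i))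
    have h6 : Polynomial.X ^ (m + 1) ∣ H m g Polynomial.X (L.a (j + l)) -
        H m g Polynomial.X (fun i => sc (τ j) (L.a j i)) := by
      rw [h5]
      exact Finset.dvd_sum fun i _ => Dvd.dvd.mul_left (h3 i) _
    have h7 := h6.add h2
    rwa [sub_add_cancel] at h7
  have h5 := eval_isBigO _ _ h4 _ (T.hs (k1 + (j + l)))
  have h6 := hv2.add h5
  have h7 : (fun n => algebraMap k Ω (aeval (x (n - (k1 + j + l))) g)) =O[(U : Filter ℕ)]
      fun n => ‖T.s (k1 + (j + l)) n‖ ^ (-(1 : ℝ)) := by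
    have h8 : (fun n => (T.s (k1 + (j + l)) n) ^ m * (H m g (T.s (k1 + (j + l)) n)⁻¹
        (T.z (k1 + (j + l)) n) - (H m g Polynomial.X (L.a (j + l))).eval
          (T.s (k1 + (j + l)) n)⁻¹ +
        (H m g Polynomial.X (L.a (j + l))).eval (T.s (k1 + (j + l)) n)⁻¹)) =O[(U : Filter ℕ)]
        fun n => ‖T.s (k1 + (j + l)) n‖ ^ m *
          ‖T.s (k1 + (j + l)) n‖ ^ (-((m + 1 : ℕ) : ℝ)) := by
      apply IsBigO.mul _ h6
      apply IsBigO.of_bound 1
      filter_upwards with n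
      rw [one_mul, norm_pow, norm_pow, norm_norm]
    refine h8.congr' ?_ ?_
    · filter_upwards [T.val (k1 + (j + l)) m g hg] with n e1
      rw [sub_add_cancel, ← e1, add_assoc]
    · filter_upwards [(T.hs (k1 + (j + l))).eventually_gt_atTop 0] with n e1
      rw [← Real.rpow_natCast, ← Real.rpow_add e1]
      congr 1
      push_cast
      ring
  have h8 := h7.trans_tendsto ((tendsto_rpow_neg_atTop one_pos).comp (T.hs _))
  have h9 := h8.norm
  rwa [norm_zero] at h9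

/-- The local estimates for the subspace theorem. -/
theorem sub_place (T : Tower d f U x Ω) (hd : 2 ≤ d) (hdeg : ∀ i, (f i).totalDegree ≤ d) (k1 : ℕ)
    (hdet : ∀ j ≥ k1, (Dm d f (T.y j)).det ≠ 0) (m : ℕ) :
    ∃ K, ∀ j ≥ K, ∀ P : Fin (2 * m + 2) → MvPolynomial (Fin (N + 1)) k,
      (∀ e, (P e).totalDegree ≤ m) → ∃ B : Fin (2 * m + 2) → Fin (2 * m + 2) → Ω,
        (Matrix.of B).det ≠ 0 ∧ ∃ C : ℝ, 0 < C ∧ ∀ᶠ n in U,
          (∀ a, ‖∑ e, B a e * algebraMap k Ω (aeval (x (n - j)) (P e))‖ ≤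
            C * ‖T.s j n‖ ^ ((m : ℝ) - ((a : ℕ) : ℝ))) ∧
          ∀ e, ‖algebraMap k Ω (aeval (x (n - j)) (P e))‖ ≤ C * ‖T.s j n‖ ^ (m : ℝ) := by
  classical
  obtain ⟨L⟩ := exists_leaves (by omega) T k1 (2 * m + 2) hdet
  obtain ⟨j0, hj0⟩ := L.rate hd hdeg hdet
  refine ⟨k1 + j0, fun c hk P hP => ?_⟩
  obtain ⟨j, rfl⟩ : ∃ j, c = k1 + j := ⟨c - k1, by omega⟩
  set G : Fin (2 * m + 2) → Polynomial Ω := fun e => H m (P e) Polynomial.X (L.a j) with hG
  obtain ⟨e, c, he, _, hsupp, hdiag, hφ⟩ := Pool.Agent.R847.SG.exists_flag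
    (fun t j => (G j).coeff t) (2 * m + 2)
    (Finset.univ : Finset (Fin (2 * m + 2))) (by simp)
  have hebij : Function.Bijective e := (Finite.injective_iff_bijective).1 he
  set σ := Equiv.ofBijective e hebij with hσ
  have hS := T.hs (k1 + j)
  refine ⟨c, ?_, ?_⟩
  · -- the determinant
    have h1 : ((Matrix.of c).submatrix id σ).det ≠ 0 := by
      rw [Matrix.det_of_lowerTriangular]
      · rw [Finset.prod_ne_zero_iff]
        intro i _
        exact hdiag i
      · intro i i' hii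
        by_contra hne
        have h1 : c i (e i') ≠ 0 := hne
        obtain ⟨r, hr, hre⟩ := hsupp i (e i') h1
        rw [he hre] at hr
        have h2 : i < i' := by simpa using hii
        exact absurd h2 (not_lt.2 hr)
    intro h0
    apply h1
    rw [Matrix.det_permute', h0, mul_zero]
  · have hval : ∀ e, (fun n => H m (P e) (T.s (k1 + j) n)⁻¹ (T.z (k1 + j) n) -
        (G e).eval (T.s (k1 + j) n)⁻¹) =O[(U : Filter ℕ)]
        fun n => ‖T.s (k1 + j) n‖ ^ (-((2 * m + 2 : ℕ) : ℝ)) := fun e =>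
      L.val j m (hj0 j (by omega)) (P e)
    have hform : ∀ l : Fin (2 * m + 2), (fun n => ∑ r, c l r * H m (P r) (T.s (k1 + j) n)⁻¹
        (T.z (k1 + j) n)) =O[(U : Filter ℕ)] fun n => ‖T.s (k1 + j) n‖ ^ (-((l : ℕ) : ℝ)) := by
      intro l
      have h1 : Polynomial.X ^ (l : ℕ) ∣ ∑ r, Polynomial.C (c l r) * G r := by
        rw [Polynomial.X_pow_dvd_iff]
        intro t ht
        rw [Polynomial.finsetSum_coeff]
        simp_rw [Polynomial.coeff_C_mul]
        exact hφ l t ht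
      have h2 := eval_isBigO _ _ h1 _ hS
      have h3 : ∀ r, (fun n => c l r * (H m (P r) (T.s (k1 + j) n)⁻¹ (T.z (k1 + j) n) -
          (G r).eval (T.s (k1 + j) n)⁻¹)) =O[(U : Filter ℕ)]
          fun n => ‖T.s (k1 + j) n‖ ^ (-((l : ℕ) : ℝ)) := by
        intro r
        refine ((hval r).const_mul_left _).trans (mono_isBigO _ hS _ _ ?_)
        exact_mod_cast l.2.le
      have h4 := (IsBigO.fun_sum (s := Finset.univ) fun r _ => h3 r).add h2
      refine h4.congr_left fun n => ?_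
      rw [Polynomial.eval_finsetSum, ← Finset.sum_add_distrib]
      refine Finset.sum_congr rfl fun r _ => ?_
      rw [Polynomial.eval_mul, Polynomial.eval_C]
      ring
    have hbd : ∀ r, (fun n => H m (P r) (T.s (k1 + j) n)⁻¹ (T.z (k1 + j) n)) =O[(U : Filter ℕ)]
        fun _ => (1 : ℝ) := fun r => (H_tendsto m (P r) _ _ 0 _ (T.hε _) (T.hz _)).isBigO_one ℝ
    choose C1 hC1 using fun l => (hform l).bound
    choose C2 hC2 using fun r => (hbd r).bound
    set C0 : ℝ := 1 + ∑ l, |C1 l| + ∑ r, |C2 r| with hC0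
    have hp1 : 0 ≤ ∑ l, |C1 l| := Finset.sum_nonneg fun l _ => abs_nonneg _
    have hp2 : 0 ≤ ∑ l, |C2 l| := Finset.sum_nonneg fun l _ => abs_nonneg _
    have hC1le : ∀ l, C1 l ≤ C0 := by
      intro l
      have h1 := Finset.single_le_sum (f := fun l => |C1 l|) (fun l _ => abs_nonneg _)
        (Finset.mem_univ l)
      have h2 := le_abs_self (C1 l)
      have h3 : |C1 l| ≤ ∑ l, |C1 l| := h1
      linarith
    have hC2le : ∀ l, C2 l ≤ C0 := by
      intro l
      have h1 := Finset.single_le_sum (f := fun l => |C2 l|) (fun l _ => abs_nonneg _)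
        (Finset.mem_univ l)
      have h2 := le_abs_self (C2 l)
      have h3 : |C2 l| ≤ ∑ l, |C2 l| := h1
      linarith
    refine ⟨C0, by linarith, ?_⟩
    have hV : ∀ᶠ n in U, ∀ r, algebraMap k Ω (aeval (x (n - (k1 + j))) (P r)) =
        T.s (k1 + j) n ^ m * H m (P r) (T.s (k1 + j) n)⁻¹ (T.z (k1 + j) n) :=
      eventually_all.2 fun r => T.val (k1 + j) m (P r) (hP r)
    filter_upwards [hV, eventually_all.2 hC1, eventually_all.2 hC2,
      hS.eventually_gt_atTop 0] with n e1 e2 e3 e4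
    constructor
    · intro a
      have h1 : ∑ r, c a r * algebraMap k Ω (aeval (x (n - (k1 + j))) (P r)) =
          T.s (k1 + j) n ^ m * ∑ r, c a r * H m (P r) (T.s (k1 + j) n)⁻¹ (T.z (k1 + j) n) := by
        rw [Finset.mul_sum]
        refine Finset.sum_congr rfl fun r _ => ?_
        rw [e1 r]
        ring
      rw [h1, norm_mul, norm_pow]
      have h2 := e2 a
      rw [Real.norm_of_nonneg (Real.rpow_nonneg e4.le _)] at h2
      calc ‖T.s (k1 + j) n‖ ^ m *
          ‖∑ r, c a r * H m (P r) (T.s (k1 + j) n)⁻¹ (T.z (k1 + j) n)‖ ≤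
          ‖T.s (k1 + j) n‖ ^ m * (C0 * ‖T.s (k1 + j) n‖ ^ (-((a : ℕ) : ℝ))) := by
            apply mul_le_mul_of_nonneg_left _ (by positivity)
            exact h2.trans (mul_le_mul_of_nonneg_right (hC1le a) (Real.rpow_nonneg e4.le _))
        _ = C0 * ‖T.s (k1 + j) n‖ ^ ((m : ℝ) - ((a : ℕ) : ℝ)) := by
            rw [sub_eq_add_neg, Real.rpow_add e4, Real.rpow_natCast]
            ring
    · intro r
      rw [e1 r, norm_mul, norm_pow, Real.rpow_natCast, mul_comm]
      apply mul_le_mul_of_nonneg_right _ (by positivity)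
      have h2 := e3 r
      rw [norm_one, mul_one] at h2
      exact h2.trans (hC2le r)

end Pool.Agent.R847.SN
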