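import Mathlib
import Pool.Agent.R847.SN.Close

/-!
# The local package at a place where the orbit is unbounded
-/

set_option autoImplicit false

open MvPolynomial Filter Topology Asymptotics

namespace Pool.Agent.R847.SN

variable {k : Type} [Field k] {N d : ℕ} {f : Fin (N + 1) → MvPolynomial (Fin (N + 1)) k}
  {U : Ultrafilter ℕ} {x : ℕ → Fin (N + 1) → k}

section tower

variable {Ω : Type} [NormedField Ω] [Algebra k Ω]

/-- The top form of an equation vanishes at the limit. -/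
lemma Tower.top (T : Tower d f U x Ω) (j m : ℕ) (g : MvPolynomial (Fin (N + 1)) k)
    (hg : g.totalDegree ≤ m) (h : ∀ᶠ n in U, aeval (x (n - j)) g = 0) :
    H m g 0 (T.y j) = 0 := by
  have h1 := H_tendsto m g _ _ 0 _ (T.hε j) (T.hz j)
  apply tendsto_nhds_unique h1
  apply Tendsto.congr' _ tendsto_const_nhds
  filter_upwards [T.val j m g hg, h, (T.hs j).eventually_gt_atTop 0] with n e1 e2 e3
  rw [e2, map_zero] at e1
  exact ((mul_eq_zero.1 e1.symm).resolve_left (pow_ne_zero _ (norm_pos_iff.1 e3))).symm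

/-- A coordinate on which a nonzero polynomial in one variable vanishes is bounded. -/
lemma Tower.coord (T : Tower d f U x Ω) (j : ℕ) (i : Fin (N + 1)) (hi : T.y j i ≠ 0)
    (r : Polynomial k) (hr : ∀ᶠ n in U, r.eval (x (n - j) i) = 0) : r = 0 := by
  by_contra hr0
  apply hi
  classical
  have h1 : ∀ᶠ n in U, (x (n - j) i) ∈ r.roots.toFinset := by
    filter_upwards [hr] with n hn
    rw [Multiset.mem_toFinset, Polynomial.mem_roots hr0, Polynomial.IsRoot.def]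
    exact hn
  set C : ℝ := ∑ a ∈ r.roots.toFinset, ‖algebraMap k Ω a‖ with hC
  have h3 : (fun n => algebraMap k Ω (x (n - j) i)) =O[(U : Filter ℕ)] fun _ => (1 : ℝ) := by
    apply IsBigO.of_bound C
    filter_upwards [h1] with n hn
    rw [norm_one, mul_one]
    exact Finset.single_le_sum (f := fun a : k => ‖algebraMap k Ω a‖) (fun _ _ => norm_nonneg _) hn
  have h4 : (fun n => T.z j n i) =O[(U : Filter ℕ)] fun n => ‖T.s j n‖ ^ (-(1 : ℝ)) := by
    have h5 := h3.mul (inv_isBigO (l := (U : Filter ℕ)) (T.s j))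
    refine h5.congr' ?_ ?_
    · filter_upwards [T.hp j, (T.hs j).eventually_gt_atTop 0] with n e1 e2
      have e2' : T.s j n ≠ 0 := norm_pos_iff.1 e2
      rw [e1 i]
      field_simp
    · filter_upwards with n
      rw [one_mul]
  exact tendsto_nhds_unique (tendsto_pi_nhds.1 (T.hz j) i)
    (h4.trans_tendsto ((tendsto_rpow_neg_atTop one_pos).comp (T.hs j)))

end tower

/-- the local package -/
structure Loc (d : ℕ) (f : Fin (N + 1) → MvPolynomial (Fin (N + 1)) k) (U : Ultrafilter ℕ)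
    (x : ℕ → Fin (N + 1) → k) (W : AbsoluteValue (AlgebraicClosure k) ℝ) where
  y : ℕ → Fin (N + 1) → AlgebraicClosure k
  hy : ∀ j i, aeval (y (j + 1)) (homogeneousComponent d (f i)) = y j i
  hy0 : ∀ j, y j ≠ 0
  top : ∀ (j m : ℕ) (g : MvPolynomial (Fin (N + 1)) k), g.totalDegree ≤ m →
    (∀ᶠ n in U, aeval (x (n - j)) g = 0) → H m g 0 (y j) = 0
  coord : ∀ (j : ℕ) (i : Fin (N + 1)), y j i ≠ 0 → ∀ r : Polynomial k,
    (∀ᶠ n in U, r.eval (x (n - j) i) = 0) → r = 0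
  Λ : ℕ → ℕ → ℝ
  hΛ : ∀ j, Tendsto (Λ j) U atTop
  sub : ∀ k1, (∀ j ≥ k1, (Dm d f (y j)).det ≠ 0) → ∀ m, ∃ K, ∀ j ≥ K,
    ∀ P : Fin (2 * m + 2) → MvPolynomial (Fin (N + 1)) k, (∀ e, (P e).totalDegree ≤ m) →
    ∃ B : Fin (2 * m + 2) → Fin (2 * m + 2) → AlgebraicClosure k,
      (Matrix.of B).det ≠ 0 ∧ ∃ C : ℝ, ∀ᶠ n in U,
        (∀ a, W (∑ e, B a e * algebraMap k _ (aeval (x (n - j)) (P e))) ≤
          Real.exp (C + ((m : ℝ) - ((a : ℕ) : ℝ)) * Λ j n)) ∧
        ∀ e, W (algebraMap k _ (aeval (x (n - j)) (P e))) ≤ Real.exp (C + (m : ℝ) * Λ j n)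
  mon : ∀ k1, (∀ j ≥ k1, (Dm d f (y j)).det ≠ 0) → ∀ (l : ℕ) (τ : ℕ → AlgebraicClosure k),
    (∀ j, τ j ≠ 0) → (∀ j i, y (k1 + j + l) i = τ j * y (k1 + j) i) → ∀ m,
    ∃ K, ∀ j ≥ K, ∀ g : MvPolynomial (Fin (N + 1)) k, g.totalDegree ≤ m →
      (∀ᶠ n in U, aeval (x (n - j)) g = 0) →
      Tendsto (fun n => W (algebraMap k _ (aeval (x (n - (j + l))) g))) U (𝓝 0)

/-- the local package at a place where the orbit is unbounded -/
theorem exists_loc (W : AbsoluteValue (AlgebraicClosure k) ℝ) (d : ℕ) (hd : 2 ≤ d)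
    (f : Fin (N + 1) → MvPolynomial (Fin (N + 1)) k)
    (hdeg : ∀ i, (f i).totalDegree ≤ d) (hreg : Reg d f)
    (x : ℕ → Fin (N + 1) → k) (hx : ∀ n i, x (n + 1) i = aeval (x n) (f i))
    (U : Ultrafilter ℕ) (hU : (U : Filter ℕ) ≤ atTop)
    (hbig : ∀ C : ℝ, ∀ᶠ n in U, ∃ i, C ≤ W (algebraMap k _ (x n i)))
    (hpair : ∀ i j, ∃ P : MvPolynomial (Fin 2) k, P ≠ 0 ∧
      ∀ᶠ n in U, aeval ![x n i, x n j] P = 0) :
    Nonempty (Loc d f U x W) := by
  let iN : NormedField (AlgebraicClosure k) := W.toNormedField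
  have hnorm : ∀ a : AlgebraicClosure k, ‖a‖ = W a := fun a => rfl
  have hbig' : Tendsto (fun n => ‖fun i => algebraMap k (AlgebraicClosure k) (x n i)‖) U
      atTop := by
    rw [tendsto_atTop]
    intro C
    filter_upwards [hbig C] with n hn
    obtain ⟨i, hi⟩ := hn
    rw [← hnorm] at hi
    exact hi.trans (norm_le_pi_norm (fun i => algebraMap k (AlgebraicClosure k) (x n i)) i)
  obtain ⟨T⟩ := exists_tower (Ω := AlgebraicClosure k) d hd f hdeg hreg x hx U hU hbig' hpair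
  refine ⟨⟨T.y, T.hy, T.hy0, T.top, T.coord, fun j n => Real.log ‖T.s j n‖, fun j =>
    Real.tendsto_log_atTop.comp (T.hs j), ?_, ?_⟩⟩
  · intro k1 hdet m
    obtain ⟨K, hK⟩ := sub_place T hd hdeg k1 hdet m
    refine ⟨K, fun j hj P hP => ?_⟩
    obtain ⟨B, hB, C, hC0, hC⟩ := hK j hj P hP
    refine ⟨B, hB, Real.log C, ?_⟩
    filter_upwards [hC, (T.hs j).eventually_gt_atTop 0] with n hn hs
    have e1 : ∀ a : ℝ, C * ‖T.s j n‖ ^ a = Real.exp (Real.log C + a * Real.log ‖T.s j n‖) := by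
      intro a
      rw [Real.exp_add, Real.exp_log hC0, Real.rpow_def_of_pos hs, mul_comm a]
    refine ⟨fun a => ?_, fun e => ?_⟩
    · rw [← e1]
      exact hn.1 a
    · rw [← e1]
      exact hn.2 e
  · intro k1 hdet l τ hτ hyl m
    exact mon_place T hd hdeg k1 hdet l τ hτ hyl m

end Pool.Agent.R847.SN
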