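import Mathlib
import Pool.Agent.R847.SN.Loc

/-!
# The points at infinity of the predecessors are defined over a fixed field
-/

set_option autoImplicit false

open MvPolynomial Filter Topology Asymptotics

namespace Pool.Agent.R847.SN

variable {k : Type} [Field k] {N d : ℕ} {f : Fin (N + 1) → MvPolynomial (Fin (N + 1)) k}
  {U : Ultrafilter ℕ} {x : ℕ → Fin (N + 1) → k} {W : AbsoluteValue (AlgebraicClosure k) ℝ}

/-- polynomials of degree at most `m` in number `2 m + 2` are dependent on the `j`-th predecessors -/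
def Dep (U : Ultrafilter ℕ) (x : ℕ → Fin (N + 1) → k) (m j : ℕ) : Prop :=
  ∀ P : Fin (2 * m + 2) → MvPolynomial (Fin (N + 1)) k,
    (∀ e, (P e).totalDegree ≤ m) → ∃ c : Fin (2 * m + 2) → k, c ≠ 0 ∧
      ∀ᶠ n in U, ∑ e, c e * aeval (x (n - j)) (P e) = 0

/-- Any three coordinates of the limits are dependent over the base field. -/
lemma three_dep (T : Loc d f U x W) (s : ℕ) (h : Dep U x 1 s) (i j r : Fin (N + 1)) :
    ∃ a b c : k, (a ≠ 0 ∨ b ≠ 0 ∨ c ≠ 0) ∧
      algebraMap k _ a * T.y s i + algebraMap k _ b * T.y s j + algebraMap k _ c * T.y s r = 0 := by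
  have hX : ∀ i : Fin (N + 1), (X i : MvPolynomial (Fin (N + 1)) k).totalDegree ≤ 1 := by
    intro i
    rw [totalDegree_X]
  obtain ⟨c, hc, hn⟩ := h ![1, X i, X j, X r] (by
    intro e
    fin_cases e
    · simp
    · exact hX i
    · exact hX j
    · exact hX r)
  set g : MvPolynomial (Fin (N + 1)) k := C (c 0) + C (c 1) * X i + C (c 2) * X j + C (c 3) * X r
    with hg
  have hg1 : g.totalDegree ≤ 1 := by
    have hCX : ∀ (a : k) (i : Fin (N + 1)),
        (C a * X i : MvPolynomial (Fin (N + 1)) k).totalDegree ≤ 1 := by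
      intro a i
      refine (totalDegree_mul _ _).trans ?_
      rw [totalDegree_C, totalDegree_X]
    rw [hg]
    refine (totalDegree_add _ _).trans (max_le ((totalDegree_add _ _).trans
      (max_le ((totalDegree_add _ _).trans (max_le ?_ (hCX _ _))) (hCX _ _))) (hCX _ _))
    rw [totalDegree_C]
    omega
  have hgn : ∀ᶠ n in U, aeval (x (n - s)) g = 0 := by
    filter_upwards [hn] with n h1
    rw [Fin.sum_univ_four] at h1
    rw [hg]
    simp only [map_add, map_mul, aeval_C, aeval_X]
    simpa using h1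
  have h1 := T.top s 1 g hg1 hgn
  rw [H_zero] at h1
  have h2 : homogeneousComponent 1 g = C (c 1) * X i + C (c 2) * X j + C (c 3) * X r := by
    have hCX : ∀ (a : k) (i : Fin (N + 1)),
        homogeneousComponent 1 (C a * X i : MvPolynomial (Fin (N + 1)) k) = C a * X i := by
      intro a i
      rw [homogeneousComponent_C_mul, homogeneousComponent_of_mem (isHomogeneous_X _ i),
        if_pos rfl]
    rw [hg, map_add, map_add, map_add, hCX, hCX, hCX,
      homogeneousComponent_eq_zero 1 (C (c 0)) (by rw [totalDegree_C]; omega), zero_add]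
  rw [h2] at h1
  simp only [map_add, map_mul, aeval_C, aeval_X] at h1
  refine ⟨c 1, c 2, c 3, ?_, h1⟩
  by_contra hall
  push Not at hall
  obtain ⟨e1, e2, e3⟩ := hall
  apply hc
  obtain ⟨n, hn⟩ := hn.exists
  rw [Fin.sum_univ_four] at hn
  simp only [e1, e2, e3, zero_mul, add_zero] at hn
  have h0 : c 0 = 0 := by simpa using hn
  funext e
  fin_cases e
  · exact h0
  · exact e1
  · exact e2
  · exact e3

/-- Two independent coordinates of the limits satisfy a quadratic equation. -/
lemma quad_dep (T : Loc d f U x W) (s : ℕ) (h : Dep U x 2 s) (i j : Fin (N + 1))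
    (hij : ∀ a b : k, algebraMap k _ a * T.y s i + algebraMap k _ b * T.y s j = 0 →
      a = 0 ∧ b = 0) :
    ∃ a b c : k, (a ≠ 0 ∨ b ≠ 0 ∨ c ≠ 0) ∧
      algebraMap k _ a * T.y s i ^ 2 + algebraMap k _ b * (T.y s i * T.y s j) +
        algebraMap k _ c * T.y s j ^ 2 = 0 := by
  obtain ⟨c, hc, hn⟩ := h ![1, X i, X j, X i ^ 2, X i * X j, X j ^ 2] (by
    intro e
    fin_cases e
    · simp
    · show (X i : MvPolynomial (Fin (N + 1)) k).totalDegree ≤ 2
      rw [totalDegree_X]
      omega
    · show (X j : MvPolynomial (Fin (N + 1)) k).totalDegree ≤ 2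
      rw [totalDegree_X]
      omega
    · show (X i ^ 2 : MvPolynomial (Fin (N + 1)) k).totalDegree ≤ 2
      rw [totalDegree_X_pow]
    · show (X i * X j : MvPolynomial (Fin (N + 1)) k).totalDegree ≤ 2
      refine (totalDegree_mul _ _).trans ?_
      rw [totalDegree_X, totalDegree_X]
    · show (X j ^ 2 : MvPolynomial (Fin (N + 1)) k).totalDegree ≤ 2
      rw [totalDegree_X_pow])
  have hCX : ∀ (a : k) (i : Fin (N + 1)),
      (C a * X i : MvPolynomial (Fin (N + 1)) k).totalDegree ≤ 1 := by
    intro a i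
    refine (totalDegree_mul _ _).trans ?_
    rw [totalDegree_C, totalDegree_X]
  have hCXX : ∀ (a : k) (i j : Fin (N + 1)),
      (C a * (X i * X j) : MvPolynomial (Fin (N + 1)) k).totalDegree ≤ 2 := by
    intro a i j
    refine (totalDegree_mul _ _).trans ?_
    have := totalDegree_mul (X i : MvPolynomial (Fin (N + 1)) k) (X j)
    rw [totalDegree_X, totalDegree_X] at this
    rw [totalDegree_C]
    omega
  set g1 : MvPolynomial (Fin (N + 1)) k := C (c 0) + C (c 1) * X i + C (c 2) * X j with hg1
  set g : MvPolynomial (Fin (N + 1)) k := g1 + (C (c 3) * (X i * X i) + C (c 4) * (X i * X j) +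
    C (c 5) * (X j * X j)) with hg
  have hg1d : g1.totalDegree ≤ 1 := by
    rw [hg1]
    refine (totalDegree_add _ _).trans (max_le ((totalDegree_add _ _).trans
      (max_le ?_ (hCX _ _))) (hCX _ _))
    rw [totalDegree_C]
    omega
  have hgd : g.totalDegree ≤ 2 := by
    rw [hg]
    refine (totalDegree_add _ _).trans (max_le (hg1d.trans (by omega)) ?_)
    exact (totalDegree_add _ _).trans (max_le ((totalDegree_add _ _).trans
      (max_le (hCXX _ _ _) (hCXX _ _ _))) (hCXX _ _ _))
  have hgn : ∀ᶠ n in U, aeval (x (n - s)) g = 0 := by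
    filter_upwards [hn] with n h1
    rw [Fin.sum_univ_six] at h1
    rw [hg, hg1]
    simp only [map_add, map_mul, aeval_C, aeval_X]
    simp at h1 ⊢
    linear_combination h1
  have h1 := T.top s 2 g hgd hgn
  rw [H_zero] at h1
  have h2 : homogeneousComponent 2 g = C (c 3) * (X i * X i) + C (c 4) * (X i * X j) +
      C (c 5) * (X j * X j) := by
    have h3 : ∀ (a : k) (i j : Fin (N + 1)),
        homogeneousComponent 2 (C a * (X i * X j) : MvPolynomial (Fin (N + 1)) k) =
          C a * (X i * X j) := by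
      intro a i j
      rw [homogeneousComponent_C_mul,
        homogeneousComponent_of_mem ((isHomogeneous_X _ i).mul (isHomogeneous_X _ j)),
        if_pos rfl]
    rw [hg, map_add, homogeneousComponent_eq_zero 2 g1 (by omega), zero_add, map_add, map_add,
      h3, h3, h3]
  rw [h2] at h1
  simp only [map_add, map_mul, aeval_C, aeval_X] at h1
  refine ⟨c 3, c 4, c 5, ?_, by linear_combination h1⟩
  by_contra hall
  push Not at hall
  obtain ⟨e3, e4, e5⟩ := hall
  have hgg : g = g1 := by
    rw [hg, e3, e4, e5]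
    simp
  rw [hgg] at hgn
  have h4 := T.top s 1 g1 hg1d hgn
  rw [H_zero] at h4
  have h5 : homogeneousComponent 1 g1 = C (c 1) * X i + C (c 2) * X j := by
    have hCX : ∀ (a : k) (i : Fin (N + 1)),
        homogeneousComponent 1 (C a * X i : MvPolynomial (Fin (N + 1)) k) = C a * X i := by
      intro a i
      rw [homogeneousComponent_C_mul, homogeneousComponent_of_mem (isHomogeneous_X _ i),
        if_pos rfl]
    rw [hg1, map_add, map_add, hCX, hCX,
      homogeneousComponent_eq_zero 1 (C (c 0)) (by rw [totalDegree_C]; omega), zero_add]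
  rw [h5] at h4
  simp only [map_add, map_mul, aeval_C, aeval_X] at h4
  obtain ⟨e1, e2⟩ := hij (c 1) (c 2) h4
  apply hc
  obtain ⟨n, hn⟩ := hn.exists
  rw [Fin.sum_univ_six] at hn
  simp only [e1, e2, e3, e4, e5, zero_mul, add_zero] at hn
  have h0 : c 0 = 0 := by simpa using hn
  funext e
  fin_cases e
  · exact h0
  · exact e1
  · exact e2
  · exact e3
  · exact e4
  · exact e5

/-- The quotients of the coordinates of the limit generate a field of degree at most two. -/
lemma quad_gen (T : Loc d f U x W) (s : ℕ) (h1 : Dep U x 1 s) (h2 : Dep U x 2 s)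
    (i : Fin (N + 1)) (hi : T.y s i ≠ 0) :
    ∃ (θ : AlgebraicClosure k) (p q : k), θ ^ 2 = algebraMap k _ p + algebraMap k _ q * θ ∧
      ∀ r, ∃ a b : k, T.y s r / T.y s i = algebraMap k _ a + algebraMap k _ b * θ := by
  by_cases hrat : ∀ r, ∃ a : k, T.y s r / T.y s i = algebraMap k _ a
  · refine ⟨0, 0, 0, by simp, fun r => ?_⟩
    obtain ⟨a, ha⟩ := hrat r
    exact ⟨a, 0, by simp [ha]⟩
  · push Not at hrat
    obtain ⟨j, hj⟩ := hrat
    set θ := T.y s j / T.y s i with hθ
    have hyj : T.y s j = θ * T.y s i := by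
      rw [hθ]
      field_simp
    have hal : ∀ a : k, a ≠ 0 → algebraMap k (AlgebraicClosure k) a ≠ 0 := fun a ha =>
      (map_ne_zero _).2 ha
    have hind : ∀ a b : k, algebraMap k _ a + algebraMap k _ b * θ = 0 → a = 0 ∧ b = 0 := by
      intro a b hab
      have hb : b = 0 := by
        by_contra hb
        apply hj (-a / b)
        have hb' := hal b hb
        rw [map_div₀, map_neg]
        field_simp
        linear_combination hab
      refine ⟨?_, hb⟩
      rw [hb, map_zero, zero_mul, add_zero] at hab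
      exact (map_eq_zero _).1 hab
    have hind' : ∀ a b : k, algebraMap k _ a * T.y s i + algebraMap k _ b * T.y s j = 0 →
        a = 0 ∧ b = 0 := by
      intro a b hab
      apply hind
      rw [hyj] at hab
      have : (algebraMap k _ a + algebraMap k _ b * θ) * T.y s i = 0 := by
        linear_combination hab
      exact (mul_eq_zero.1 this).resolve_right hi
    obtain ⟨a, b, c, habc, hq⟩ := quad_dep T s h2 i j hind'
    have hq' : algebraMap k _ a + algebraMap k _ b * θ + algebraMap k _ c * θ ^ 2 = 0 := by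
      rw [hyj] at hq
      have : (algebraMap k _ a + algebraMap k _ b * θ + algebraMap k _ c * θ ^ 2) *
          T.y s i ^ 2 = 0 := by linear_combination hq
      exact (mul_eq_zero.1 this).resolve_right (pow_ne_zero _ hi)
    have hc : c ≠ 0 := by
      intro hc
      rw [hc] at hq' habc
      have := hind a b (by simpa using hq')
      tauto
    have hc' := hal c hc
    refine ⟨θ, -a / c, -b / c, ?_, fun r => ?_⟩
    · rw [map_div₀, map_div₀, map_neg, map_neg]
      field_simp
      linear_combination hq'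
    · obtain ⟨a', b', c', habc', hl⟩ := three_dep T s h1 i j r
      have hc1 : c' ≠ 0 := by
        intro hc1
        rw [hc1] at hl habc'
        have := hind' a' b' (by simpa using hl)
        tauto
      have hc2 := hal c' hc1
      refine ⟨-a' / c', -b' / c', ?_⟩
      rw [map_div₀, map_div₀, map_neg, map_neg]
      rw [hyj] at hl
      field_simp
      linear_combination hl

open IntermediateField

/-- the field generated by the quotients of the coordinates -/
noncomputable def Kf (y : Fin (N + 1) → AlgebraicClosure k) :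
    IntermediateField k (AlgebraicClosure k) :=
  IntermediateField.adjoin k {t | ∃ i j, y i ≠ 0 ∧ t = y j / y i}

lemma mem_Kf (y : Fin (N + 1) → AlgebraicClosure k) (i j : Fin (N + 1)) (hi : y i ≠ 0) :
    y j / y i ∈ Kf y :=
  IntermediateField.subset_adjoin _ _ ⟨i, j, hi, rfl⟩

lemma Kf_le_simple (y : Fin (N + 1) → AlgebraicClosure k) (i : Fin (N + 1)) (hi : y i ≠ 0)
    (θ : AlgebraicClosure k)
    (h : ∀ r, ∃ a b : k, y r / y i = algebraMap k _ a + algebraMap k _ b * θ) :
    Kf y ≤ k⟮θ⟯ := by
  have h1 : ∀ r, y r / y i ∈ k⟮θ⟯ := by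
    intro r
    obtain ⟨a, b, hab⟩ := h r
    rw [hab]
    have hθ : θ ∈ k⟮θ⟯ := IntermediateField.mem_adjoin_simple_self k θ
    exact add_mem (k⟮θ⟯.algebraMap_mem a) (mul_mem (k⟮θ⟯.algebraMap_mem b) hθ)
  unfold Kf
  rw [IntermediateField.adjoin_le_iff]
  rintro t ⟨i', j', hi', rfl⟩
  have h2 : y j' / y i' = (y j' / y i) / (y i' / y i) := by
    field_simp
  rw [SetLike.mem_coe, h2]
  exact div_mem (h1 j') (h1 i')

lemma finrank_simple_le (θ : AlgebraicClosure k) (p q : k)
    (h : θ ^ 2 = algebraMap k _ p + algebraMap k _ q * θ) :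
    FiniteDimensional k k⟮θ⟯ ∧ Module.finrank k k⟮θ⟯ ≤ 2 := by
  set P : Polynomial k := Polynomial.X ^ 2 - (Polynomial.C q * Polynomial.X + Polynomial.C p)
    with hP
  have hdeg : (Polynomial.C q * Polynomial.X + Polynomial.C p : Polynomial k).degree < 2 :=
    lt_of_le_of_lt Polynomial.degree_linear_le (by norm_num)
  have hPm : P.Monic := Polynomial.monic_X_pow_sub hdeg
  have hPθ : Polynomial.aeval θ P = 0 := by
    rw [hP]
    simp only [map_sub, map_pow, map_add, map_mul, Polynomial.aeval_X, Polynomial.aeval_C]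
    rw [h]
    ring
  have hint : IsIntegral k θ := ⟨P, hPm, by rwa [← Polynomial.aeval_def]⟩
  refine ⟨IntermediateField.adjoin.finiteDimensional hint, ?_⟩
  rw [IntermediateField.adjoin.finrank hint]
  have h1 := Polynomial.natDegree_le_of_dvd (minpoly.dvd k θ hPθ) hPm.ne_zero
  have h2 : P.natDegree ≤ 2 := by
    rw [hP]
    compute_degree
  omega

lemma Kf_mono (y y' : Fin (N + 1) → AlgebraicClosure k) (hy' : y' ≠ 0)
    (h : ∀ i, aeval y' (homogeneousComponent d (f i)) = y i) : Kf y ≤ Kf y' := by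
  obtain ⟨i0, hi0⟩ := Function.ne_iff.1 hy'
  have hi0' : y' i0 ≠ 0 := hi0
  set w : Fin (N + 1) → AlgebraicClosure k := fun r => y' r / y' i0 with hw
  have hyw : ∀ i, y i = y' i0 ^ d * aeval w (homogeneousComponent d (f i)) := by
    intro i
    rw [← h i, ← aeval_scale _ d (homogeneousComponent_isHomogeneous d (f i))]
    congr 2
    funext r
    rw [hw]
    field_simp
  have hwK : ∀ i, aeval w (homogeneousComponent d (f i)) ∈ Kf y' := by
    intro i
    have h1 : w = fun r => (Kf y').val (⟨w r, mem_Kf y' i0 r hi0'⟩ : Kf y') := rfl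
    rw [h1, ← comp_aeval_apply _ (Kf y').val]
    exact (aeval (fun r => (⟨w r, mem_Kf y' i0 r hi0'⟩ : Kf y'))
      (homogeneousComponent d (f i))).2
  conv_lhs => unfold Kf
  rw [IntermediateField.adjoin_le_iff]
  rintro t ⟨i, j, hi, rfl⟩
  rw [SetLike.mem_coe, hyw i, hyw j, mul_div_mul_left _ _ (pow_ne_zero _ hi0')]
  exact div_mem (hwK j) (hwK i)

/-- The quotients of the coordinates of all limits lie in a fixed finite extension. -/
theorem fixed_field (T : Loc d f U x W) (K : ℕ) (hK1 : ∀ j ≥ K, Dep U x 1 j)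
    (hK2 : ∀ j ≥ K, Dep U x 2 j) :
    ∃ (L : IntermediateField k (AlgebraicClosure k)) (_ : FiniteDimensional k L) (k2 : ℕ),
      ∀ s ≥ k2, ∀ i j, T.y s i ≠ 0 → T.y s j / T.y s i ∈ L := by
  have hle : ∀ s ≥ K, ∃ θ : AlgebraicClosure k, Kf (T.y s) ≤ k⟮θ⟯ ∧
      FiniteDimensional k k⟮θ⟯ ∧ Module.finrank k k⟮θ⟯ ≤ 2 := by
    intro s hs
    obtain ⟨i, hi⟩ := Function.ne_iff.1 (T.hy0 s)
    obtain ⟨θ, p, q, hθ, h⟩ := quad_gen T s (hK1 s hs) (hK2 s hs) i hi
    exact ⟨θ, Kf_le_simple _ i hi θ h, finrank_simple_le θ p q hθ⟩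
  have hfd : ∀ s ≥ K, FiniteDimensional k (Kf (T.y s)) := by
    intro s hs
    obtain ⟨θ, h1, h2, _⟩ := hle s hs
    exact FiniteDimensional.of_injective (IntermediateField.inclusion h1).toLinearMap
      (IntermediateField.inclusion_injective h1)
  have hrk : ∀ s ≥ K, Module.finrank k (Kf (T.y s)) ≤ 2 := by
    intro s hs
    obtain ⟨θ, h1, h2, h3⟩ := hle s hs
    exact (IntermediateField.finrank_le_of_le_right h1).trans h3
  have hmono : ∀ s s', s ≤ s' → Kf (T.y s) ≤ Kf (T.y s') := by
    intro s s' hss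
    induction s', hss using Nat.le_induction with
    | base => exact le_rfl
    | succ s' _ ih => exact ih.trans (Kf_mono (d := d) (f := f) _ _ (T.hy0 _) (T.hy s'))
  -- an index of maximal degree
  obtain ⟨k2, hk2, hmax⟩ : ∃ k2 ≥ K, ∀ s ≥ K, Module.finrank k (Kf (T.y s)) ≤
      Module.finrank k (Kf (T.y k2)) := by
    by_contra hno
    push Not at hno
    have hstep : ∀ n : ℕ, ∃ s ≥ K, n ≤ Module.finrank k (Kf (T.y s)) := by
      intro n
      induction n with
      | zero => exact ⟨K, le_rfl, Nat.zero_le _⟩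
      | succ n ih =>
        obtain ⟨s, hs, h1⟩ := ih
        obtain ⟨s', hs', h2⟩ := hno s hs
        exact ⟨s', hs', by omega⟩
    obtain ⟨s, hs, h1⟩ := hstep 3
    have := hrk s hs
    omega
  refine ⟨Kf (T.y k2), hfd k2 hk2, k2, fun s hs i j hi => ?_⟩
  have h1 := hmono k2 s hs
  have h2 := hfd s (by omega)
  have h3 : Kf (T.y k2) = Kf (T.y s) :=
    IntermediateField.eq_of_le_of_finrank_le h1 (hmax s (by omega))
  rw [h3]
  exact mem_Kf _ i j hi

end Pool.Agent.R847.SN
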