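import Mathlib
import Pool.Agent.R847.SN.Quad
import Pool.Agent.R847.HG.Ht
import Pool.Agent.R847.HG.Sys

/-!
# The points at infinity of the predecessors are periodic
-/

set_option autoImplicit false

open MvPolynomial Filter Topology Asymptotics Height

namespace Pool.Agent.R847.SN

variable {k : Type} [Field k] [NumberField k] {N d : ℕ}
  {f : Fin (N + 1) → MvPolynomial (Fin (N + 1)) k}
  {U : Ultrafilter ℕ} {x : ℕ → Fin (N + 1) → k} {W : AbsoluteValue (AlgebraicClosure k) ℝ}

/-- proportional vectors -/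
def PR {E : Type} [Field E] (u w : Fin (N + 1) → E) : Prop := ∃ τ : E, τ ≠ 0 ∧ ∀ i, u i = τ * w i

omit [NumberField k] in
lemma PR.symm {E : Type} [Field E] {u w : Fin (N + 1) → E} (h : PR u w) : PR w u := by
  obtain ⟨τ, hτ, h⟩ := h
  refine ⟨τ⁻¹, inv_ne_zero hτ, fun i => ?_⟩
  rw [h i, inv_mul_cancel_left₀ hτ]

omit [NumberField k] in
lemma PR.trans {E : Type} [Field E] {u v w : Fin (N + 1) → E} (h : PR u v) (h' : PR v w) :
    PR u w := by
  obtain ⟨τ, hτ, h⟩ := h
  obtain ⟨τ', hτ', h'⟩ := h'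
  refine ⟨τ * τ', mul_ne_zero hτ hτ', fun i => ?_⟩
  rw [h i, h' i, mul_assoc]

omit [NumberField k] in
lemma PR_down (y : ℕ → Fin (N + 1) → AlgebraicClosure k)
    (hy : ∀ j i, aeval (y (j + 1)) (homogeneousComponent d (f i)) = y j i) (a b : ℕ)
    (h : PR (y (a + 1)) (y (b + 1))) : PR (y a) (y b) := by
  obtain ⟨τ, hτ, h⟩ := h
  refine ⟨τ ^ d, pow_ne_zero _ hτ, fun i => ?_⟩
  have h1 : y (a + 1) = fun i => τ * y (b + 1) i := funext h
  rw [← hy a i, h1, aeval_scale _ d (homogeneousComponent_isHomogeneous d (f i)), hy b i]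

omit [NumberField k] in
lemma PR_downs (y : ℕ → Fin (N + 1) → AlgebraicClosure k)
    (hy : ∀ j i, aeval (y (j + 1)) (homogeneousComponent d (f i)) = y j i) (a b t : ℕ)
    (h : PR (y (a + t)) (y (b + t))) : PR (y a) (y b) := by
  induction t with
  | zero => exact h
  | succ t ih => exact ih (PR_down y hy _ _ h)

/-- Backward orbits over a number field are periodic. -/
theorem periodic (hd : 2 ≤ d) (hreg : Reg d f)
    (y : ℕ → Fin (N + 1) → AlgebraicClosure k) (hy0 : ∀ j, y j ≠ 0)
    (hy : ∀ j i, aeval (y (j + 1)) (homogeneousComponent d (f i)) = y j i)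
    (L : IntermediateField k (AlgebraicClosure k)) (hL : FiniteDimensional k L) (k2 : ℕ)
    (hmem : ∀ s ≥ k2, ∀ i j, y s i ≠ 0 → y s j / y s i ∈ L) :
    ∃ l ≥ 1, ∀ j, PR (y (j + l)) (y j) := by
  classical
  have hfdQ : FiniteDimensional ℚ L := FiniteDimensional.trans ℚ k L
  have : NumberField L := { to_charZero := inferInstance, to_finiteDimensional := hfdQ }
  set F : Fin (N + 1) → MvPolynomial (Fin (N + 1)) L :=
    fun i => map (algebraMap k L) (homogeneousComponent d (f i)) with hF
  have hFhom : ∀ i, (F i).IsHomogeneous d := fun i =>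
    (homogeneousComponent_isHomogeneous d (f i)).map _
  have h0 : ∀ x : Fin (N + 1) → AlgebraicClosure L, (∀ i, aeval x (F i) = 0) → x = 0 := by
    intro x hx
    let σ : AlgebraicClosure L →ₐ[L] AlgebraicClosure k :=
      IsAlgClosed.lift (M := AlgebraicClosure k) (R := L) (S := AlgebraicClosure L)
    have h1 := hreg (fun i => σ (x i)) fun i => by
      have h2 := congrArg σ (hx i)
      rw [comp_aeval_apply _ σ, map_zero, hF] at h2
      simp only at h2
      rw [aeval_map_algebraMap] at h2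
      exact h2
    funext i
    have h2 := congrFun h1 i
    exact (map_eq_zero σ).1 h2
  obtain ⟨C, hC⟩ := Pool.Agent.R847.HG.exists_lower F hFhom h0
  -- normalised vectors
  have hnz : ∀ s, ∃ i, y s i ≠ 0 := fun s => Function.ne_iff.1 (hy0 s)
  choose ix hix using hnz
  set v : ℕ → Fin (N + 1) → L := fun n j =>
    ⟨y (k2 + n) j / y (k2 + n) (ix (k2 + n)), hmem _ (by omega) _ _ (hix _)⟩ with hv
  have hvix : ∀ n, v n (ix (k2 + n)) = 1 := by
    intro n
    apply Subtype.ext
    show y (k2 + n) (ix (k2 + n)) / y (k2 + n) (ix (k2 + n)) = 1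
    exact div_self (hix _)
  have hyv : ∀ n j, y (k2 + n) j = y (k2 + n) (ix (k2 + n)) * (v n j : AlgebraicClosure k) := by
    intro n j
    show _ = y (k2 + n) (ix (k2 + n)) * (y (k2 + n) j / y (k2 + n) (ix (k2 + n)))
    have := hix (k2 + n)
    field_simp
  have hstep : ∀ n, ∃ c : L, c ≠ 0 ∧ Pool.Agent.R847.HG.stepR F (v (n + 1)) = c • v n := by
    intro n
    set c : L := Pool.Agent.R847.HG.stepR F (v (n + 1)) (ix (k2 + n)) with hc
    have h1 : ∀ j, y (k2 + n) j = y (k2 + (n + 1)) (ix (k2 + (n + 1))) ^ d *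
        ((Pool.Agent.R847.HG.stepR F (v (n + 1)) j : L) : AlgebraicClosure k) := by
      intro j
      have h2 : ((Pool.Agent.R847.HG.stepR F (v (n + 1)) j : L) : AlgebraicClosure k) =
          aeval (fun i => ((v (n + 1) i : L) : AlgebraicClosure k))
            (homogeneousComponent d (f j)) := by
        show L.val (aeval (v (n + 1)) (F j)) = _
        rw [hF]
        simp only
        rw [aeval_map_algebraMap, comp_aeval_apply _ L.val]
        rfl
      rw [h2, ← aeval_scale _ d (homogeneousComponent_isHomogeneous d (f j))]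
      have h3 : (fun i => y (k2 + (n + 1)) (ix (k2 + (n + 1))) *
          ((v (n + 1) i : L) : AlgebraicClosure k)) = y (k2 + n + 1) := by
        funext i
        exact (hyv (n + 1) i).symm
      rw [h3, hy]
    have hA : y (k2 + (n + 1)) (ix (k2 + (n + 1))) ^ d ≠ 0 := pow_ne_zero _ (hix _)
    have hcA : y (k2 + n) (ix (k2 + n)) =
        y (k2 + (n + 1)) (ix (k2 + (n + 1))) ^ d * (c : AlgebraicClosure k) := h1 _
    have hc0 : c ≠ 0 := by
      intro h
      apply hix (k2 + n)
      rw [hcA, h]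
      simp
    refine ⟨c, hc0, ?_⟩
    funext j
    apply Subtype.ext
    have h2 := h1 j
    rw [hyv n j, hcA, mul_assoc] at h2
    have h3 := mul_left_cancel₀ hA h2
    rw [← h3]
    rfl
  -- the heights are bounded
  set B := max (logHeight (v 0)) |C| with hB
  have hBd : ∀ n, logHeight (v n) ≤ B := by
    intro n
    induction n with
    | zero => exact le_max_left _ _
    | succ n ih =>
      obtain ⟨c, hc0, hc⟩ := hstep n
      have h1 := hC (v (n + 1))
      rw [hc] at h1
      have h2 : logHeight (c • v n) = logHeight (v n) := by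
        rw [logHeight_eq_log_mulHeight, mulHeight_smul_eq_mulHeight _ hc0,
          ← logHeight_eq_log_mulHeight]
      rw [h2] at h1
      have h3 : |C| ≤ B := le_max_right _ _
      have h4 := neg_abs_le C
      have h5 : (2 : ℝ) ≤ d := by exact_mod_cast hd
      have h6 : 0 ≤ logHeight (v (n + 1)) := Real.log_nonneg (one_le_mulHeight _)
      have h7 : 2 * logHeight (v (n + 1)) ≤ d * logHeight (v (n + 1)) :=
        mul_le_mul_of_nonneg_right h5 h6
      linarith
  have hBm : ∀ n j, mulHeight₁ (v n j) ≤ Real.exp B := by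
    intro n j
    have h1 := Pool.Agent.R847.HG.ratio_le (v n) (ix (k2 + n)) j
    rw [hvix, div_one] at h1
    refine h1.trans ?_
    have h2 := hBd n
    rw [logHeight_eq_log_mulHeight] at h2
    exact Real.le_exp_of_log_le h2
  have hfin : {z : L | mulHeight₁ z ≤ Real.exp B}.Finite := Northcott.finite_le (Real.exp B)
  have hfin2 : (Set.pi Set.univ fun _ : Fin (N + 1) => {z : L | mulHeight₁ z ≤ Real.exp B}).Finite :=
    Set.Finite.pi fun _ => hfin
  obtain ⟨w, _, hw⟩ : ∃ w ∈ (Set.pi Set.univ fun _ : Fin (N + 1) =>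
      {z : L | mulHeight₁ z ≤ Real.exp B}), {n | v n = w}.Infinite := by
    by_contra hno
    push Not at hno
    have h1 : (Set.univ : Set ℕ) = ⋃ w ∈ (Set.pi Set.univ fun _ : Fin (N + 1) =>
      {z : L | mulHeight₁ z ≤ Real.exp B}), {n | v n = w} := by
      ext n
      simp only [Set.mem_univ, true_iff, Set.mem_iUnion]
      exact ⟨v n, fun j _ => hBm n j, rfl⟩
    have h2 : (Set.univ : Set ℕ).Finite := by
      rw [h1]
      exact hfin2.biUnion fun w hw => Set.not_infinite.1 (by simpa using hno w hw)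
    exact Set.infinite_univ h2
  have hPRw : ∀ n, v n = w → PR (y (k2 + n)) (fun j => ((w j : L) : AlgebraicClosure k)) := by
    intro n hn
    refine ⟨_, hix (k2 + n), fun j => ?_⟩
    rw [← hn]
    exact hyv n j
  obtain ⟨m1, hm1⟩ := hw.nonempty
  obtain ⟨m2, hm2, h12⟩ := hw.exists_gt m1
  refine ⟨m2 - m1, by omega, fun j => ?_⟩
  obtain ⟨m3, hm3, h13⟩ := hw.exists_gt (j + m2 + m1)
  have e1 : PR (y (k2 + m3)) (y (k2 + m2)) := (hPRw m3 hm3).trans (hPRw m2 hm2).symm
  have e2 : PR (y (k2 + m3 - (m2 - m1))) (y (k2 + m1)) := by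
    apply PR_downs (d := d) (f := f) y hy _ _ (m2 - m1)
    have a1 : k2 + m3 - (m2 - m1) + (m2 - m1) = k2 + m3 := by omega
    have a2 : k2 + m1 + (m2 - m1) = k2 + m2 := by omega
    rw [a1, a2]
    exact e1
  have e3 : PR (y (k2 + m3)) (y (k2 + m3 - (m2 - m1))) :=
    ((hPRw m3 hm3).trans (hPRw m1 hm1).symm).trans e2.symm
  apply PR_downs (d := d) (f := f) y hy _ _ (k2 + m3 - (m2 - m1) - j)
  have a1 : j + (m2 - m1) + (k2 + m3 - (m2 - m1) - j) = k2 + m3 := by omega
  have a2 : j + (k2 + m3 - (m2 - m1) - j) = k2 + m3 - (m2 - m1) := by omega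
  rw [a1, a2]
  exact e3

/-- multiples of a period -/
lemma PR_mul (y : ℕ → Fin (N + 1) → AlgebraicClosure k) (l : ℕ)
    (h : ∀ j, PR (y (j + l)) (y j)) (t : ℕ) : ∀ j, PR (y (j + l * t)) (y j) := by
  induction t with
  | zero =>
    intro j
    exact ⟨1, one_ne_zero, fun i => by simp⟩
  | succ t ih =>
    intro j
    have h1 := h (j + l * t)
    have h2 : j + l * (t + 1) = j + l * t + l := by ring
    rw [h2]
    exact h1.trans (ih j)

end Pool.Agent.R847.SN
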