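import Mathlib
import Pool.Agent.R405.SchF
import Pool.Agent.H951R3.PB.F1
import Pool.Agent.R847.HG.Loc

/-!
# Extensions of the places to the algebraic closure
-/

set_option autoImplicit false

namespace Pool.Agent.R847.SN

open NumberField IsDedekindDomain Height Module
open Pool.Agent.Y742.SF (fv fv_le_one_iff fv_mul fv_nonneg fv_pos fv_one fv_zero)
open Pool.Agent.TeamU (Over)
open Pool.Agent.W180.OP (Pl av wt nrm)
open Pool.Agent.R405 (Good fa fa_apply fa_nontrivial fv_lt_one_iff)

variable {k : Type} [Field k] [NumberField k]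

/-- an extension of a place to the algebraic closure -/
def IsExt (v : Pl k) (W : AbsoluteValue (AlgebraicClosure k) ℝ) : Prop :=
  (∀ x : k, W (algebraMap k (AlgebraicClosure k) x) = av v x) ∧
  ∀ (K : Type) [Field K] [NumberField K] [Algebra k K] (φ : K →ₐ[k] AlgebraicClosure k),
    Good v (W.comp φ.toRingHom.injective)

lemma na_int {K : Type} [Field K] (f : AbsoluteValue K ℝ) (hna : IsNonarchimedean f)
    (hn : ∀ a : ℤ, f a ≤ 1) (x : K) (hx : IsIntegral ℤ x) : f x ≤ 1 := by
  by_contra hlt
  rw [not_le] at hlt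
  obtain ⟨p, hp, hpx⟩ := hx
  rw [Polynomial.eval₂_eq_sum_range, Finset.sum_range_succ, hp.coeff_natDegree, map_one,
    one_mul] at hpx
  have h1 : x ^ p.natDegree = -∑ i ∈ Finset.range p.natDegree,
      (algebraMap ℤ K) (p.coeff i) * x ^ i := by
    linear_combination hpx
  rcases Nat.eq_zero_or_pos p.natDegree with h0 | hpos
  · rw [h0] at h1
    simp at h1
  have h2 : f (x ^ p.natDegree) ≤ f x ^ (p.natDegree - 1) := by
    rw [h1, AbsoluteValue.map_neg]
    apply Pool.Agent.R847.HG.na_sum_le hna
    · exact pow_nonneg (f.nonneg _) _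
    · intro i hi
      rw [Finset.mem_range] at hi
      rw [map_mul, map_pow]
      calc f ((algebraMap ℤ K) (p.coeff i)) * f x ^ i ≤ 1 * f x ^ i := by
            apply mul_le_mul_of_nonneg_right _ (pow_nonneg (f.nonneg _) _)
            exact hn _
        _ ≤ f x ^ (p.natDegree - 1) := by
            rw [one_mul]
            exact pow_le_pow_right₀ hlt.le (by omega)
  rw [map_pow] at h2
  have h3 : f x ^ (p.natDegree - 1) < f x ^ p.natDegree :=
    pow_lt_pow_right₀ hlt (by omega)
  linarith

lemma exists_isExt (v : Pl k) : ∃ W, IsExt v W := by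
  rcases v with v | v
  · let _ : Algebra k ℂ := v.embedding.toAlgebra
    let ψ : AlgebraicClosure k →ₐ[k] ℂ := IsAlgClosed.lift
    refine ⟨place ψ.toRingHom, ?_, ?_⟩
    · intro x
      change ‖ψ (algebraMap k (AlgebraicClosure k) x)‖ = v.1 x
      rw [AlgHom.commutes]
      exact InfinitePlace.norm_embedding_eq v x
    · intro K _ _ _ φ
      refine ⟨InfinitePlace.mk (ψ.toRingHom.comp φ.toRingHom), ?_, fun y => rfl⟩
      apply InfinitePlace.ext
      intro x
      change ‖ψ (φ (algebraMap k K x))‖ = v x
      rw [AlgHom.commutes, AlgHom.commutes]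
      exact InfinitePlace.norm_embedding_eq v x
  · obtain ⟨W, hW⟩ := Pool.Agent.H951R3.PB.exists_ext_fin (FinitePlace.mk v)
    have hna := Pool.Agent.H951R3.PB.ext_na (FinitePlace.mk v) W hW
    refine ⟨W, fun x => hW x, ?_⟩
    intro K _ _ _ φ
    set f : AbsoluteValue K ℝ := W.comp φ.toRingHom.injective with hf
    have hfe : ∀ y, f y = W (φ y) := fun y => rfl
    have hfx : ∀ x : k, f (algebraMap k K x) = fv v x := by
      intro x
      rw [hfe, AlgHom.commutes]
      exact hW x
    have hfna : IsNonarchimedean f := by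
      intro x y
      rw [hfe, hfe, hfe, map_add]
      exact hna _ _
    have hfz : ∀ a : ℤ, f a ≤ 1 := by
      intro a
      have h1 := hfx (a : k)
      rw [map_intCast] at h1
      rw [h1]
      have h2 := Pool.Agent.Y742.SF.fv_int v (a : 𝓞 k)
      exact h2
    have hint : ∀ x : 𝓞 K, f (x : K) ≤ 1 := fun x =>
      na_int f hfna hfz _ (RingOfIntegers.isIntegral_coe x)
    let I : Ideal (𝓞 K) :=
      { carrier := {x | f (x : K) < 1}
        add_mem' := by
          intro a b ha hb
          show f ((a + b : 𝓞 K) : K) < 1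
          push_cast
          exact lt_of_le_of_lt (hfna _ _) (max_lt ha hb)
        zero_mem' := by
          show f ((0 : 𝓞 K) : K) < 1
          push_cast
          rw [map_zero]
          exact zero_lt_one
        smul_mem' := by
          intro c a ha
          show f ((c • a : 𝓞 K) : K) < 1
          rw [smul_eq_mul]
          push_cast
          rw [map_mul]
          have h1 := hint c
          have h2 : f (a : K) < 1 := ha
          have h3 := f.nonneg (a : K)
          nlinarith [f.nonneg (c : K)] }
    have hmem : ∀ x : 𝓞 K, x ∈ I ↔ f (x : K) < 1 := fun x => Iff.rfl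
    have hIprime : I.IsPrime := by
      refine ⟨?_, ?_⟩
      · rw [Ideal.ne_top_iff_one, hmem]
        push_cast
        rw [map_one]
        exact lt_irrefl 1
      · intro a b hab
        rw [hmem] at hab
        rw [hmem, hmem]
        by_contra hno
        push Not at hno
        push_cast at hab
        rw [map_mul] at hab
        have h1 := le_antisymm (hint a) hno.1
        have h2 := le_antisymm (hint b) hno.2
        rw [h1, h2, mul_one] at hab
        exact lt_irrefl 1 hab
    have hk : ∀ x : 𝓞 k, algebraMap (𝓞 k) (𝓞 K) x ∈ I ↔ x ∈ v.asIdeal := by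
      intro x
      rw [hmem]
      have h1 : ((algebraMap (𝓞 k) (𝓞 K) x : 𝓞 K) : K) = algebraMap k K (x : k) := rfl
      rw [h1, hfx, fv_lt_one_iff]
      exact HeightOneSpectrum.valuation_lt_one_iff_mem v x
    have hIne : I ≠ ⊥ := by
      intro h0
      obtain ⟨a, ha, ha0⟩ := (Submodule.ne_bot_iff _).1 v.ne_bot
      have h1 := (hk a).2 ha
      rw [h0, Ideal.mem_bot] at h1
      apply ha0
      exact (FaithfulSMul.algebraMap_injective (𝓞 k) (𝓞 K)) (by rw [h1, map_zero])
    let Q : HeightOneSpectrum (𝓞 K) := ⟨I, hIprime, hIne⟩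
    have hOver : Over Q v := by
      show Q.asIdeal.comap (algebraMap (𝓞 k) (𝓞 K)) = v.asIdeal
      ext x
      rw [Ideal.mem_comap]
      exact hk x
    have heq := AbsoluteValue.isEquiv_of_lt_one_imp (v := fa Q) (w := f) (fa_nontrivial Q) (by
      intro x hx
      have hx' : fv Q x < 1 := hx
      rw [fv_lt_one_iff] at hx'
      obtain ⟨n, dd, hnd⟩ := HeightOneSpectrum.exists_primeCompl_mul_eq_of_integer Q x hx'.le
      have h1 : f ((dd : 𝓞 K) : K) = 1 := by
        apply le_antisymm (hint _)
        by_contra hlt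
        rw [not_le] at hlt
        exact dd.2 hlt
      have h2 : Q.valuation K (algebraMap (𝓞 K) K n) < 1 := by
        rw [← hnd, map_mul]
        have h3 := Q.valuation_le_one (K := K) (dd : 𝓞 K)
        exact lt_of_le_of_lt (mul_le_of_le_one_right' h3) hx'
      have h3 : n ∈ I := (HeightOneSpectrum.valuation_lt_one_iff_mem Q n).1 h2
      have h4 : f (algebraMap (𝓞 K) K n) < 1 := h3
      rw [← hnd, map_mul] at h4
      have h5 : f (algebraMap (𝓞 K) K dd) = 1 := h1
      rwa [h5, mul_one] at h4)
    obtain ⟨c, hc, h2⟩ := AbsoluteValue.isEquiv_iff_exists_rpow_eq.1 heq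
    have h3 : ∀ y, fv Q y ^ c = f y := fun y => congrFun h2 y
    refine ⟨Q, c⁻¹, hOver, inv_pos.2 hc, fun x => ?_, fun y => ?_⟩
    · rw [← hfx, ← h3, ← Real.rpow_mul (fv_nonneg _ _), mul_inv_cancel₀ hc.ne', Real.rpow_one]
    · rw [inv_inv]
      exact (h3 y).symm

end Pool.Agent.R847.SN
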