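import Mathlib

/-!
# Galois number fields inside the algebraic closure of a number field
-/

set_option autoImplicit false

namespace Pool.Agent.R847.SN

open Module

theorem exists_gal (k : Type) [Field k] [NumberField k] (T : Set (AlgebraicClosure k))
    (hT : T.Finite) :
    ∃ (K : Type) (_ : Field K) (_ : NumberField K) (_ : Algebra k K) (_ : IsGalois ℚ K)
      (φ : K →ₐ[k] AlgebraicClosure k), (∃ z : K, z ^ 2 = -1) ∧ ∀ t ∈ T, ∃ y, φ y = t := by
  classical
  obtain ⟨i0, hi0⟩ : ∃ i0 : AlgebraicClosure k, i0 ^ 2 = -1 :=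
    IsAlgClosed.exists_pow_nat_eq (-1) (by norm_num)
  set T' : Set (AlgebraicClosure k) := T ∪ {i0} with hT'
  have hT'f : T'.Finite := hT.union (Set.finite_singleton i0)
  set K0 : IntermediateField k (AlgebraicClosure k) := IntermediateField.adjoin k T' with hK0
  have hfd : FiniteDimensional k K0 := by
    have := hT'f.to_subtype
    exact IntermediateField.finiteDimensional_adjoin fun x _ =>
      (AlgebraicClosure.isAlgebraic k).isAlgebraic x |>.isIntegral
  let _ : Algebra ℚ (AlgebraicClosure k) := DivisionRing.toRatAlgebra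
  let _ : Algebra ℚ K0 := DivisionRing.toRatAlgebra
  have hsc : IsScalarTower ℚ k K0 := ⟨fun a b c => by
    simp only [Algebra.smul_def, map_mul]
    rw [mul_assoc]
    congr 1⟩
  have hfdQ : FiniteDimensional ℚ K0 := FiniteDimensional.trans ℚ k K0
  have halgQ : Algebra.IsAlgebraic ℚ (AlgebraicClosure k) := by
    have h1 : IsScalarTower ℚ k (AlgebraicClosure k) := ⟨fun a b c => by
      simp only [Algebra.smul_def, map_mul]
      rw [mul_assoc]
      congr 1⟩
    exact Algebra.IsAlgebraic.trans ℚ k (AlgebraicClosure k)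
  have hcl : IsAlgClosure ℚ (AlgebraicClosure k) := ⟨inferInstance, halgQ⟩
  have hnorm : Normal ℚ (AlgebraicClosure k) := IsAlgClosure.normal ℚ (AlgebraicClosure k)
  set L : IntermediateField ℚ (AlgebraicClosure k) :=
    IntermediateField.normalClosure ℚ K0 (AlgebraicClosure k) with hL
  have hLn : Normal ℚ L := normalClosure.normal ℚ K0 (AlgebraicClosure k)
  have hLf : FiniteDimensional ℚ L := normalClosure.is_finiteDimensional ℚ K0 (AlgebraicClosure k)
  have hLg : IsGalois ℚ L := { }
  let ψ : K0 →ₐ[ℚ] AlgebraicClosure k := (K0.val.toRingHom).toRatAlgHom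
  have hmem : ∀ t : K0, (t : AlgebraicClosure k) ∈ L := by
    intro t
    have h1 : ψ.fieldRange ≤ L := ψ.fieldRange_le_normalClosure
    exact h1 ⟨t, rfl⟩
  let ι : k →+* L :=
    (algebraMap k (AlgebraicClosure k)).codRestrict L.toSubfield.toSubring fun a =>
      hmem (algebraMap k K0 a)
  let iA : Algebra k L := ι.toAlgebra
  have hNF : NumberField L :=
    { to_charZero := inferInstance
      to_finiteDimensional := by
        convert hLf }
  have hGal : @IsGalois ℚ _ L _ DivisionRing.toRatAlgebra := by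
    convert hLg
  let φ : L →ₐ[k] AlgebraicClosure k := { L.val.toRingHom with commutes' := fun r => rfl }
  have hTm : ∀ t ∈ T', t ∈ L := by
    intro t ht
    exact hmem ⟨t, IntermediateField.subset_adjoin k T' ht⟩
  refine ⟨L, inferInstance, hNF, iA, hGal, φ, ?_, ?_⟩
  · refine ⟨⟨i0, hTm i0 (Or.inr rfl)⟩, ?_⟩
    apply Subtype.ext
    exact hi0
  · intro t ht
    exact ⟨⟨t, hTm t (Or.inl ht)⟩, rfl⟩

end Pool.Agent.R847.SN
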