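import Mathlib
import Pool.Agent.R847.SN.Ext
import Pool.Agent.R847.SN.Fld
import Pool.Agent.R405.ProjH
import Pool.Agent.R847.HG.Ht
import Pool.Agent.R847.SN.Rate

/-!
# The subspace theorem for points with given local growth
-/

set_option autoImplicit false

namespace Pool.Agent.R847.SN

open NumberField IsDedekindDomain Height Module Filter Topology
open Pool.Agent.W180.OP (Pl av wt wt_nonneg nrm le_nrm nrm_pos nrm_le nrm_nonneg exists_nrm)
open Pool.Agent.R405 (Good schF logHeight_sum nrm_finite)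

variable {k : Type} [Field k] [NumberField k]

/-- the height of an integral point outside a set of places -/
lemma height_le {n : ℕ} (S : Finset (Pl k))
    (hS : ∀ w : InfinitePlace k, Sum.inl w ∈ S) (Y : Fin n → k) (hY : Y ≠ 0)
    (hint : ∀ v, v ∉ S → ∀ e, av v (Y e) ≤ 1) :
    logHeight Y ≤ ∑ v ∈ S, wt v * Real.log (nrm (av v) Y) := by
  classical
  have hfin := nrm_finite Y hY
  set T : Finset (HeightOneSpectrum (𝓞 k)) := hfin.toFinset ∪ S.toRight with hT
  have h1 := logHeight_sum Y hY T (by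
    intro v hv
    by_contra hne
    apply hv
    rw [hT, Finset.mem_union, Set.Finite.mem_toFinset]
    exact Or.inl hne)
  rw [h1]
  have h2 : ∑ v ∈ S, wt v * Real.log (nrm (av v) Y) =
      ∑ w ∈ S.toLeft, wt (Sum.inl w : Pl k) * Real.log (nrm (av (Sum.inl w : Pl k)) Y) +
      ∑ v ∈ S.toRight, wt (Sum.inr v : Pl k) * Real.log (nrm (av (Sum.inr v : Pl k)) Y) := by
    conv_lhs => rw [← Finset.toLeft_disjSum_toRight (u := S)]
    rw [Finset.sum_disjSum]
  have h3 : S.toLeft = Finset.univ := by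
    rw [Finset.eq_univ_iff_forall]
    intro w
    exact Finset.mem_toLeft.2 (hS w)
  rw [h2, h3]
  apply add_le_add
  · exact le_rfl
  · have h4 : ∀ v ∈ T, v ∉ S.toRight → Real.log (nrm (Pool.Agent.W180.OP.fv v) Y) ≤ 0 := by
      intro v _ hv
      apply Real.log_nonpos (nrm_nonneg _ _)
      apply nrm_le zero_le_one
      intro e
      exact hint (Sum.inr v) (fun h => hv (Finset.mem_toRight.2 h)) e
    have h5 : ∑ v ∈ T, Real.log (nrm (Pool.Agent.W180.OP.fv v) Y) =
        ∑ v ∈ S.toRight, Real.log (nrm (Pool.Agent.W180.OP.fv v) Y) +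
        ∑ v ∈ T \ S.toRight, Real.log (nrm (Pool.Agent.W180.OP.fv v) Y) := by
      rw [add_comm, Finset.sum_sdiff (Finset.subset_union_right)]
    rw [h5]
    have h6 : ∑ v ∈ T \ S.toRight, Real.log (nrm (Pool.Agent.W180.OP.fv v) Y) ≤ 0 := by
      apply Finset.sum_nonpos
      intro v hv
      rw [Finset.mem_sdiff] at hv
      exact h4 v hv.1 hv.2
    have h7 : ∑ v ∈ S.toRight, wt (Sum.inr v : Pl k) * Real.log (nrm (av (Sum.inr v : Pl k)) Y) =
        ∑ v ∈ S.toRight, Real.log (nrm (Pool.Agent.W180.OP.fv v) Y) :=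
      Finset.sum_congr rfl fun v _ => one_mul _
    rw [h7]
    linarith

/-- the product formula for integers outside a set of places -/
lemma prod_formula (S : Finset (Pl k)) (hS : ∀ w : InfinitePlace k, Sum.inl w ∈ S) (t : k)
    (ht : t ≠ 0) (hint : ∀ v, v ∉ S → av v t ≤ 1) : 0 ≤ ∑ v ∈ S, wt v * Real.log (av v t) := by
  have h1 := height_le (n := 1) S hS (fun _ => t) (by
    intro h
    exact ht (congrFun h 0)) (fun v hv _ => hint v hv)
  have h2 : 0 ≤ logHeight (fun _ : Fin 1 => t) := logHeight_nonneg _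
  refine h2.trans (h1.trans (le_of_eq ?_))
  refine Finset.sum_congr rfl fun v _ => ?_
  congr 2
  apply le_antisymm
  · exact nrm_le ((av v).nonneg _) fun _ => le_rfl
  · exact le_nrm (av v) (fun _ : Fin 1 => t) 0

/-- heights of independent points tend to infinity -/
lemma height_tendsto (U : Ultrafilter ℕ) {N : ℕ} (hN : 1 ≤ N) (Y : ℕ → Fin (N + 1) → k)
    (hind : ∀ c : Fin (N + 1) → k, c ≠ 0 → ∀ᶠ n in U, ∑ e, c e * Y n e ≠ 0) :
    Tendsto (fun n => logHeight (Y n)) U atTop := by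
  classical
  rw [tendsto_atTop]
  intro B
  by_contra hno
  have h1 : ∀ᶠ n in U, ¬ B ≤ logHeight (Y n) := Ultrafilter.eventually_not.2 hno
  have hfin : {z : k | mulHeight₁ z ≤ Real.exp B}.Finite := Northcott.finite_le (Real.exp B)
  obtain ⟨⟨c, hc⟩, hcn⟩ : ∃ c : {z : k | mulHeight₁ z ≤ Real.exp B}, ∀ᶠ n in U,
      Y n ⟨1, by omega⟩ / Y n 0 = c := by
    have := hfin.to_subtype
    apply uf_choice U (fun (c : {z : k | mulHeight₁ z ≤ Real.exp B}) n =>
      Y n ⟨1, by omega⟩ / Y n 0 = c)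
    filter_upwards [h1] with n hn
    rw [not_le] at hn
    refine ⟨⟨_, ?_⟩, rfl⟩
    have h2 := Pool.Agent.R847.HG.ratio_le (Y n) 0 ⟨1, by omega⟩
    refine h2.trans ?_
    rw [logHeight_eq_log_mulHeight] at hn
    exact Real.le_exp_of_log_le hn.le
  have h2 := hind (Pi.single 0 1) (by simp)
  have h3 := hind (Pi.single ⟨1, by omega⟩ 1 - Pi.single 0 c) (by
    intro h0
    have := congrFun h0 ⟨1, by omega⟩
    rw [Pi.sub_apply, Pi.single_eq_same, Pi.single_eq_of_ne (by simp [Fin.ext_iff])] at this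
    simp at this)
  obtain ⟨n, e1, e2, e3⟩ := (hcn.and (h2.and h3)).exists
  have e4 : Y n 0 ≠ 0 := by
    intro h0
    apply e2
    simp [Pi.single_apply, h0]
  apply e3
  simp only [Pi.sub_apply, sub_mul, Finset.sum_sub_distrib]
  simp only [Pi.single_apply, ite_mul, one_mul, zero_mul, Finset.sum_ite_eq', Finset.mem_univ,
    if_true]
  have e5 : Y n ⟨1, by omega⟩ / Y n 0 = c := e1
  rw [← e5]
  field_simp
  ring

/-- The subspace theorem for points with given local growth. -/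
theorem sub_glob (S : Finset (Pl k)) (hS : ∀ w : InfinitePlace k, Sum.inl w ∈ S)
    (W : Pl k → AbsoluteValue (AlgebraicClosure k) ℝ) (hW : ∀ v ∈ S, IsExt v (W v))
    (U : Ultrafilter ℕ) (m : ℕ) (Y : ℕ → Fin (2 * m + 2) → k)
    (hint : ∀ n v, v ∉ S → ∀ e, av v (Y n e) ≤ 1) (Λ : Pl k → ℕ → ℝ)
    (hΛ : Tendsto (fun n => ∑ v ∈ S, wt v * Λ v n) U atTop)
    (B : Pl k → Fin (2 * m + 2) → Fin (2 * m + 2) → AlgebraicClosure k)
    (hdet : ∀ v ∈ S, (Matrix.of (B v)).det ≠ 0) (C : Pl k → ℝ)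
    (h1 : ∀ v ∈ S, ∀ᶠ n in U, ∀ a, W v (∑ e, B v a e * algebraMap k _ (Y n e)) ≤
      Real.exp (C v + ((m : ℝ) - ((a : ℕ) : ℝ)) * Λ v n))
    (h2 : ∀ v ∈ S, ∀ᶠ n in U, ∀ e, av v (Y n e) ≤ Real.exp (C v + (m : ℝ) * Λ v n)) :
    ∃ c : Fin (2 * m + 2) → k, c ≠ 0 ∧ ∀ᶠ n in U, ∑ e, c e * Y n e = 0 := by
  classical
  by_contra hno
  push Not at hno
  have hind : ∀ c : Fin (2 * m + 2) → k, c ≠ 0 → ∀ᶠ n in U, ∑ e, c e * Y n e ≠ 0 := by
    intro c hc
    have := hno c hc
    exact this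
  have hN : Tendsto (fun n => logHeight (Y n)) U atTop :=
    height_tendsto U (N := 2 * m + 1) (by omega) Y hind
  -- the field of the forms
  set Tset : Set (AlgebraicClosure k) := ⋃ v ∈ S, ⋃ a, ⋃ e, {B v a e} with hTset
  have hTfin : Tset.Finite := by
    apply Set.Finite.biUnion S.finite_toSet
    intro v _
    exact Set.finite_iUnion fun a => Set.finite_iUnion fun e => Set.finite_singleton _
  obtain ⟨K, _, _, _, _, φ, hi, hK⟩ := exists_gal k Tset hTfin
  have hBK : ∀ v a e, ∃ y : K, v ∈ S → φ y = B v a e := by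
    intro v a e
    by_cases hv : v ∈ S
    · obtain ⟨y, hy⟩ := hK (B v a e) (by
        rw [hTset]
        simp only [Set.mem_iUnion]
        exact ⟨v, hv, a, e, rfl⟩)
      exact ⟨y, fun _ => hy⟩
    · exact ⟨0, fun h => absurd h hv⟩
  choose B' hB' using hBK
  have hφ : ∀ v ∈ S, ∀ a n, φ (∑ e, B' v a e * algebraMap k K (Y n e)) =
      ∑ e, B v a e * algebraMap k _ (Y n e) := by
    intro v hv a n
    rw [map_sum]
    refine Finset.sum_congr rfl fun e _ => ?_
    rw [map_mul, hB' v a e hv, AlgHom.commutes]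
  have hdet' : ∀ v ∈ S, (Matrix.of (B' v)).det ≠ 0 := by
    intro v hv h0
    apply hdet v hv
    have e1 : Matrix.of (B v) = (Matrix.of (B' v)).map φ := by
      ext a e
      exact (hB' v a e hv).symm
    have e2 : ((Matrix.of (B' v)).map φ).det = φ (Matrix.of (B' v)).det :=
      (AlgHom.map_det φ (Matrix.of (B' v))).symm
    rw [e1, e2, h0, map_zero]
  -- independence over the large field
  have hindK : ∀ c : Fin (2 * m + 2) → K, c ≠ 0 →
      ∀ᶠ n in U, ∑ e, c e * algebraMap k K (Y n e) ≠ 0 := by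
    intro c hc
    obtain ⟨e0, he0⟩ := Function.ne_iff.1 hc
    obtain ⟨ψ, hψ⟩ : ∃ ψ : K →ₗ[k] k, ψ (c e0) ≠ 0 := by
      by_contra hall
      push Not at hall
      exact he0 ((Module.forall_dual_apply_eq_zero_iff k _).1 hall)
    filter_upwards [hind (fun e => ψ (c e)) (fun h => hψ (congrFun h e0))] with n hn h0
    apply hn
    have h3 := congrArg ψ h0
    rw [map_zero, map_sum] at h3
    rw [← h3]
    refine Finset.sum_congr rfl fun e _ => ?_
    have h4 : c e * algebraMap k K (Y n e) = Y n e • c e := by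
      rw [Algebra.smul_def, mul_comm]
    rw [h4, map_smul, smul_eq_mul, mul_comm]
  have key := schF hi (U : Filter ℕ) (n := 2 * m + 2) (by omega) S
    (fun v => (W v).comp φ.toRingHom.injective) (fun v hv => (hW v hv).2 K φ) B' hdet' Y hN
    hindK 1 one_pos
  -- nonvanishing of the forms
  have hform : ∀ v ∈ S, ∀ a, ∀ᶠ n in U, ∑ e, B' v a e * algebraMap k K (Y n e) ≠ 0 := by
    intro v hv a
    apply hindK
    intro h0
    apply hdet' v hv
    apply Matrix.det_eq_zero_of_row_eq_zero a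
    intro e
    exact congrFun h0 e
  have hform' : ∀ᶠ n in U, ∀ v ∈ S, ∀ a, ∑ e, B' v a e * algebraMap k K (Y n e) ≠ 0 := by
    rw [Filter.eventually_all_finset]
    intro v hv
    rw [Filter.eventually_all]
    exact hform v hv
  have hY0 : ∀ᶠ n in U, Y n ≠ 0 := by
    filter_upwards [hind (Pi.single 0 1) (by simp)] with n hn h0
    apply hn
    simp [h0]
  have h1' : ∀ᶠ n in U, ∀ v ∈ S, ∀ a, W v (∑ e, B v a e * algebraMap k _ (Y n e)) ≤
      Real.exp (C v + ((m : ℝ) - ((a : ℕ) : ℝ)) * Λ v n) := by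
    rw [Filter.eventually_all_finset]
    exact h1
  have h2' : ∀ᶠ n in U, ∀ v ∈ S, ∀ e, av v (Y n e) ≤ Real.exp (C v + (m : ℝ) * Λ v n) := by
    rw [Filter.eventually_all_finset]
    exact h2
  set r : ℝ := ((2 * m + 2 : ℕ) : ℝ) with hr
  have hbig := hΛ.eventually_gt_atTop ((r + 1) * ∑ v ∈ S, wt v * C v)
  obtain ⟨n, e0, e1, e2, e3, e4, e5⟩ :=
    (key.and (hform'.and (hY0.and (h1'.and (h2'.and hbig))))).exists
  have hht := height_le S hS (Y n) e2 (hint n)
  -- local inequality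
  have hsuma : ∑ a : Fin (2 * m + 2), ((m : ℝ) - ((a : ℕ) : ℝ)) = -((m : ℝ) + 1) := by
    rw [Finset.sum_sub_distrib, Finset.sum_const, Finset.card_univ, Fintype.card_fin,
      nsmul_eq_mul]
    have h2 : ∑ l : Fin (2 * m + 2), ((l : ℕ) : ℝ) = ((m : ℝ) + 1) * (2 * m + 1) := by
      rw [Fin.sum_univ_eq_sum_range (fun l => (l : ℝ))]
      have h3 := Finset.sum_range_id_mul_two (2 * m + 2)
      have h4 : ((∑ i ∈ Finset.range (2 * m + 2), i : ℕ) : ℝ) * 2 =
          (2 * m + 2 : ℝ) * (2 * m + 1) := by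
        have : (((∑ i ∈ Finset.range (2 * m + 2), i) * 2 : ℕ) : ℝ) =
            (((2 * m + 2) * (2 * m + 2 - 1) : ℕ) : ℝ) := by rw [h3]
        push_cast at this ⊢
        exact this
      push_cast at h4
      linarith
    rw [h2]
    push_cast
    ring
  have hloc : ∀ v ∈ S, r * Real.log (nrm (av v) (Y n)) - r * C v + ((m : ℝ) + 1) * Λ v n ≤
      ∑ a, (Real.log (nrm (av v) (Y n)) - Real.log (((W v).comp φ.toRingHom.injective)
        (∑ e, B' v a e * algebraMap k K (Y n e)))) := by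
    intro v hv
    have e6 : ∀ a : Fin (2 * m + 2), Real.log (((W v).comp φ.toRingHom.injective)
        (∑ e, B' v a e * algebraMap k K (Y n e))) ≤
        C v + ((m : ℝ) - ((a : ℕ) : ℝ)) * Λ v n := by
      intro a
      have e7 : ((W v).comp φ.toRingHom.injective)
        (∑ e, B' v a e * algebraMap k K (Y n e)) =
          W v (∑ e, B v a e * algebraMap k _ (Y n e)) := by
        rw [← hφ v hv a n]
        rfl
      rw [e7]
      have e8 : 0 < W v (∑ e, B v a e * algebraMap k _ (Y n e)) := by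
        rw [← hφ v hv a n]
        apply (W v).pos
        rw [Ne, map_eq_zero]
        exact e1 v hv a
      rw [Real.log_le_iff_le_exp e8]
      exact e3 v hv a
    have e9 : ∑ a : Fin (2 * m + 2), (Real.log (nrm (av v) (Y n)) -
        (C v + ((m : ℝ) - ((a : ℕ) : ℝ)) * Λ v n)) ≤
        ∑ a, (Real.log (nrm (av v) (Y n)) - Real.log (((W v).comp φ.toRingHom.injective)
        (∑ e, B' v a e * algebraMap k K (Y n e)))) :=
      Finset.sum_le_sum fun a _ => by linarith [e6 a]
    refine le_trans (le_of_eq ?_) e9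
    rw [Finset.sum_sub_distrib, Finset.sum_add_distrib, ← Finset.sum_mul, hsuma]
    simp only [Finset.sum_const, Finset.card_univ, Fintype.card_fin, nsmul_eq_mul]
    rw [hr]
    ring
  have hup : ∀ v ∈ S, Real.log (nrm (av v) (Y n)) ≤ C v + (m : ℝ) * Λ v n := by
    intro v hv
    rw [Real.log_le_iff_le_exp (nrm_pos _ e2)]
    exact nrm_le (Real.exp_pos _).le (e4 v hv)
  have hsum : ∑ v ∈ S, wt v * (r * Real.log (nrm (av v) (Y n)) - r * C v +
      ((m : ℝ) + 1) * Λ v n) ≤ (r + 1) * logHeight (Y n) := by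
    refine le_trans (Finset.sum_le_sum fun v hv =>
      mul_le_mul_of_nonneg_left (hloc v hv) (wt_nonneg v)) e0
  have hsum2 : (r + 1) * logHeight (Y n) ≤
      (r + 1) * ∑ v ∈ S, wt v * Real.log (nrm (av v) (Y n)) := by
    apply mul_le_mul_of_nonneg_left hht
    have : 0 ≤ r := Nat.cast_nonneg _
    linarith
  have hsum3 : ∑ v ∈ S, wt v * Real.log (nrm (av v) (Y n)) ≤
      ∑ v ∈ S, wt v * (C v + (m : ℝ) * Λ v n) :=
    Finset.sum_le_sum fun v hv => mul_le_mul_of_nonneg_left (hup v hv) (wt_nonneg v)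
  have x1 : ∑ v ∈ S, wt v * (r * Real.log (nrm (av v) (Y n)) - r * C v +
      ((m : ℝ) + 1) * Λ v n) = r * ∑ v ∈ S, wt v * Real.log (nrm (av v) (Y n)) -
      r * ∑ v ∈ S, wt v * C v + ((m : ℝ) + 1) * ∑ v ∈ S, wt v * Λ v n := by
    rw [Finset.mul_sum, Finset.mul_sum, Finset.mul_sum, ← Finset.sum_sub_distrib,
      ← Finset.sum_add_distrib]
    refine Finset.sum_congr rfl fun v _ => ?_
    ring
  have x2 : ∑ v ∈ S, wt v * (C v + (m : ℝ) * Λ v n) =
      ∑ v ∈ S, wt v * C v + (m : ℝ) * ∑ v ∈ S, wt v * Λ v n := by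
    rw [Finset.mul_sum, ← Finset.sum_add_distrib]
    refine Finset.sum_congr rfl fun v _ => ?_
    ring
  rw [x1] at hsum
  rw [x2] at hsum3
  linarith

end Pool.Agent.R847.SN
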