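import Mathlib
import Pool.Agent.R847.SN.Loc
import Pool.Agent.R847.SN.Glob

/-!
# Relations between polynomials at the predecessors, from all places
-/

set_option autoImplicit false

namespace Pool.Agent.R847.SN

open MvPolynomial NumberField IsDedekindDomain Height Module Filter Topology
open Pool.Agent.W180.OP (Pl av wt wt_nonneg nrm le_nrm nrm_pos nrm_le nrm_nonneg exists_nrm)
open Pool.Agent.R405 (Good schF logHeight_sum nrm_finite)

variable {k : Type} [Field k] [NumberField k]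

lemma wt_pos (v : Pl k) : 0 < wt v := by
  rcases v with v | v
  · exact Nat.cast_pos.2 InfinitePlace.mult_pos
  · exact one_pos

lemma exists_scale (s : Finset k) : ∃ D : k, D ≠ 0 ∧
    ∀ a ∈ s, ∀ v : HeightOneSpectrum (𝓞 k), av (Sum.inr v) (D * a) ≤ 1 := by
  classical
  obtain ⟨b, hb⟩ := IsLocalization.exist_integer_multiples_of_finset (nonZeroDivisors (𝓞 k)) s
  refine ⟨algebraMap (𝓞 k) k b, ?_, fun a ha v => ?_⟩
  · have h1 := nonZeroDivisors.ne_zero b.2
    rwa [Ne, RingOfIntegers.coe_eq_zero_iff]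
  · obtain ⟨c, hc⟩ := hb a ha
    have h1 : algebraMap (𝓞 k) k b * a = algebraMap (𝓞 k) k c := by
      rw [hc, Algebra.smul_def]
    rw [h1]
    exact Pool.Agent.Y742.SF.fv_int v c

lemma int_eval {ι : Type} [Fintype ι] (v : HeightOneSpectrum (𝓞 k)) (g : MvPolynomial ι k)
    (hg : ∀ κ, av (Sum.inr v) (coeff κ g) ≤ 1) (z : ι → k)
    (hz : ∀ i, av (Sum.inr v) (z i) ≤ 1) : av (Sum.inr v) (aeval z g) ≤ 1 := by
  have hna : IsNonarchimedean (av (Sum.inr v) : AbsoluteValue k ℝ) := by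
    intro a b
    exact FinitePlace.add_le (FinitePlace.mk v) a b
  rw [aeval_def, eval₂_eq']
  apply Pool.Agent.R847.HG.na_sum_le hna _ _ _ zero_le_one
  intro κ _
  rw [map_mul, map_prod]
  have h1 : av (Sum.inr v) ((algebraMap k k) (coeff κ g)) ≤ 1 := hg κ
  have h2 : ∏ i, av (Sum.inr v) (z i ^ κ i) ≤ 1 := by
    apply Finset.prod_le_one
    · intro i _
      exact (av _).nonneg _
    · intro i _
      rw [map_pow]
      exact pow_le_one₀ ((av _).nonneg _) (hz i)
  have h3 : 0 ≤ ∏ i, av (Sum.inr v) (z i ^ κ i) :=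
    Finset.prod_nonneg fun i _ => (av _).nonneg _
  exact mul_le_one₀ h1 h3 h2

/-- polynomials with integral coefficients up to scaling -/
lemma scale_poly {ι κ : Type} [Fintype κ] (P : κ → MvPolynomial ι k) :
    ∃ D : k, D ≠ 0 ∧ ∀ e m (v : HeightOneSpectrum (𝓞 k)),
      av (Sum.inr v) (coeff m (C D * P e)) ≤ 1 := by
  classical
  obtain ⟨D, hD, h⟩ := exists_scale (Finset.univ.biUnion fun e : κ =>
    (P e).support.image fun m => coeff m (P e))
  refine ⟨D, hD, fun e m v => ?_⟩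
  rw [coeff_C_mul]
  by_cases hm : m ∈ (P e).support
  · exact h _ (Finset.mem_biUnion.2 ⟨e, Finset.mem_univ e, Finset.mem_image_of_mem _ hm⟩) v
  · rw [notMem_support_iff.1 hm, mul_zero, map_zero]
    exact zero_le_one

variable {N d : ℕ} {f : Fin (N + 1) → MvPolynomial (Fin (N + 1)) k}
  {U : Ultrafilter ℕ} {x : ℕ → Fin (N + 1) → k}

/-- the global data -/
structure Glob (d : ℕ) (f : Fin (N + 1) → MvPolynomial (Fin (N + 1)) k) (U : Ultrafilter ℕ)
    (x : ℕ → Fin (N + 1) → k) where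
  S : Finset (Pl k)
  W : Pl k → AbsoluteValue (AlgebraicClosure k) ℝ
  hS : ∀ w : InfinitePlace k, Sum.inl w ∈ S
  hW : ∀ v, IsExt v (W v)
  hx : ∀ n i, x (n + 1) i = aeval (x n) (f i)
  hU : (U : Filter ℕ) ≤ atTop
  hint : ∀ n v, v ∉ S → ∀ i, av v (x n i) ≤ 1
  big : Finset (Pl k)
  hbig : big ⊆ S
  v0 : Pl k
  hv0 : v0 ∈ big
  loc : ∀ v : big, Loc d f U x (W v)
  bdd : ∀ v ∈ S, v ∉ big → ∀ j, ∃ C : ℝ, ∀ᶠ n in U, ∀ i, av v (x (n - j) i) ≤ C

lemma Glob.out (G : Glob d f U x) (v : Pl k) (hv : v ∉ G.S) (g : MvPolynomial (Fin (N + 1)) k)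
    (hg : ∀ m (v : HeightOneSpectrum (𝓞 k)), av (Sum.inr v) (coeff m g) ≤ 1) (n : ℕ) :
    av v (aeval (x n) g) ≤ 1 := by
  rcases v with w | v
  · exact absurd (G.hS w) hv
  · exact int_eval v g (fun m => hg m v) (x n) (G.hint n _ hv)

lemma Glob.val_bdd (G : Glob d f U x) (v : Pl k) (hv : v ∈ G.S) (hv' : v ∉ G.big) (j : ℕ)
    (g : MvPolynomial (Fin (N + 1)) k) :
    ∃ C : ℝ, ∀ᶠ n in U, av v (aeval (x (n - j)) g) ≤ Real.exp C := by
  let iN : NormedField (AlgebraicClosure k) := (G.W v).toNormedField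
  obtain ⟨A, hA0, hA⟩ := poly_bound (Ω := AlgebraicClosure k) g g.totalDegree le_rfl
  obtain ⟨C, hC⟩ := G.bdd v hv hv' j
  set R := max C 1 with hR
  have hR1 : 1 ≤ R := le_max_right _ _
  refine ⟨Real.log (A * R ^ g.totalDegree + 1), ?_⟩
  filter_upwards [hC] with n hn
  rw [Real.exp_log (by positivity)]
  have h1 := hA (fun i => algebraMap k _ (x (n - j) i)) R hR1 (by
    intro i
    have h2 : ‖algebraMap k (AlgebraicClosure k) (x (n - j) i)‖ = av v (x (n - j) i) :=
      (G.hW v).1 _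
    rw [h2]
    exact (hn i).trans (le_max_left _ _))
  rw [← map_aevalk] at h1
  have h3 : ‖algebraMap k (AlgebraicClosure k) (aeval (x (n - j)) g)‖ =
      av v (aeval (x (n - j)) g) := (G.hW v).1 _
  rw [h3] at h1
  linarith

/-- Relations between polynomials of bounded degree. -/
theorem Glob.sub_dep (G : Glob d f U x) (k1 : ℕ)
    (hdet : ∀ v, ∀ j ≥ k1, (Dm d f ((G.loc v).y j)).det ≠ 0) (m : ℕ) :
    ∃ K, ∀ j ≥ K, ∀ P : Fin (2 * m + 2) → MvPolynomial (Fin (N + 1)) k,
      (∀ e, (P e).totalDegree ≤ m) → ∃ c : Fin (2 * m + 2) → k, c ≠ 0 ∧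
        ∀ᶠ n in U, ∑ e, c e * aeval (x (n - j)) (P e) = 0 := by
  classical
  choose K hK using fun v => (G.loc v).sub k1 (hdet v) m
  refine ⟨∑ v, K v, fun j hj P hP => ?_⟩
  have hKj : ∀ v, K v ≤ j := fun v =>
    (Finset.single_le_sum (fun _ _ => Nat.zero_le _) (Finset.mem_univ v)).trans hj
  obtain ⟨D, hD, hDP⟩ := scale_poly P
  set P' : Fin (2 * m + 2) → MvPolynomial (Fin (N + 1)) k := fun e => C D * P e with hP'
  have hP'deg : ∀ e, (P' e).totalDegree ≤ m := by
    intro e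
    refine (totalDegree_mul _ _).trans ?_
    rw [totalDegree_C, zero_add]
    exact hP e
  choose B hB Cv hCv using fun v => hK v j (hKj v) P' hP'deg
  have hbd : ∀ v : Pl k, ∃ C : ℝ, v ∈ G.S → v ∉ G.big → ∀ᶠ n in U, ∀ e,
      av v (aeval (x (n - j)) (P' e)) ≤ Real.exp C := by
    intro v
    by_cases hv : v ∈ G.S ∧ v ∉ G.big
    · choose c hc using fun e => G.val_bdd v hv.1 hv.2 j (P' e)
      refine ⟨∑ e, |c e|, fun _ _ => ?_⟩
      filter_upwards [eventually_all.2 hc] with n hn e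
      refine (hn e).trans (Real.exp_le_exp.2 ?_)
      exact (le_abs_self _).trans (Finset.single_le_sum (f := fun e => |c e|)
        (fun _ _ => abs_nonneg _) (Finset.mem_univ e))
    · exact ⟨0, fun h1 h2 => absurd ⟨h1, h2⟩ hv⟩
  choose c hc using hbd
  -- the data at all places
  set Λ : Pl k → ℕ → ℝ := fun v n => if h : v ∈ G.big then (G.loc ⟨v, h⟩).Λ j n else 0 with hΛ
  set BB : Pl k → Fin (2 * m + 2) → Fin (2 * m + 2) → AlgebraicClosure k := fun v =>
    if h : v ∈ G.big then B ⟨v, h⟩ else (1 : Matrix _ _ _) with hBB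
  set CC : Pl k → ℝ := fun v => if h : v ∈ G.big then Cv ⟨v, h⟩ else c v with hCC
  have hBB1 : ∀ v (h : v ∈ G.big), BB v = B ⟨v, h⟩ := fun v h => dif_pos h
  have hBB0 : ∀ v, v ∉ G.big → BB v = (1 : Matrix _ _ _) := fun v h => dif_neg h
  have hCC1 : ∀ v (h : v ∈ G.big), CC v = Cv ⟨v, h⟩ := fun v h => dif_pos h
  have hCC0 : ∀ v, v ∉ G.big → CC v = c v := fun v h => dif_neg h
  have hΛ1 : ∀ v (h : v ∈ G.big) n, Λ v n = (G.loc ⟨v, h⟩).Λ j n := fun v h n => dif_pos h
  have hΛ0 : ∀ v, v ∉ G.big → ∀ n, Λ v n = 0 := fun v h n => dif_neg h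
  have hWav : ∀ v (t : k), G.W v (algebraMap k _ t) = av v t := fun v t => (G.hW v).1 t
  obtain ⟨c', hc'0, hc'⟩ := sub_glob G.S G.hS G.W (fun v _ => G.hW v) U m
    (fun n e => aeval (x (n - j)) (P' e))
    (fun n v hv e => G.out v hv (P' e) (fun m v => hDP e m v) _) Λ (by
      have h1 : ∀ v ∈ G.S, ∀ᶠ n in U, 0 ≤ Λ v n := by
        intro v _
        by_cases h : v ∈ G.big
        · filter_upwards [((G.loc ⟨v, h⟩).hΛ j).eventually_ge_atTop 0] with n hn
          rw [hΛ1 v h]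
          exact hn
        · filter_upwards with n
          rw [hΛ0 v h]
      have h1' : ∀ᶠ n in U, ∀ v ∈ G.S, 0 ≤ Λ v n := by
        rw [Filter.eventually_all_finset]
        exact h1
      have h2 : Tendsto (fun n => wt G.v0 * Λ G.v0 n) U atTop := by
        apply Tendsto.const_mul_atTop (wt_pos _)
        refine ((G.loc ⟨G.v0, G.hv0⟩).hΛ j).congr fun n => ?_
        rw [hΛ1 _ G.hv0]
      refine tendsto_atTop_mono' _ ?_ h2
      filter_upwards [h1'] with n hn
      exact Finset.single_le_sum (f := fun v => wt v * Λ v n)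
        (fun v hv => mul_nonneg (wt_nonneg v) (hn v hv)) (G.hbig G.hv0)) BB
    (by
      intro v _
      by_cases h : v ∈ G.big
      · rw [hBB1 v h]
        exact hB _
      · rw [hBB0 v h]
        have : (Matrix.of (1 : Matrix (Fin (2 * m + 2)) (Fin (2 * m + 2))
            (AlgebraicClosure k))) = 1 := rfl
        rw [this, Matrix.det_one]
        exact one_ne_zero) CC
    (by
      intro v hv
      by_cases h : v ∈ G.big
      · filter_upwards [hCv ⟨v, h⟩] with n hn a
        have e1 := hn.1 a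
        rw [hBB1 v h, hCC1 v h, hΛ1 v h]
        exact e1
      · filter_upwards [hc v hv h] with n hn a
        rw [hBB0 v h, hCC0 v h, hΛ0 v h]
        rw [Finset.sum_eq_single a]
        · rw [Matrix.one_apply_eq, one_mul, hWav, mul_zero, add_zero]
          exact hn a
        · intro b _ hb
          rw [Matrix.one_apply_ne (Ne.symm hb), zero_mul]
        · intro h
          exact absurd (Finset.mem_univ _) h)
    (by
      intro v hv
      by_cases h : v ∈ G.big
      · filter_upwards [hCv ⟨v, h⟩] with n hn e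
        have e1 := hn.2 e
        rw [hWav] at e1
        rw [hCC1 v h, hΛ1 v h]
        exact e1
      · filter_upwards [hc v hv h] with n hn e
        rw [hCC0 v h, hΛ0 v h]
        rw [mul_zero, add_zero]
        exact hn e)
  refine ⟨c', hc'0, ?_⟩
  filter_upwards [hc'] with n hn
  have h1 : D * ∑ e, c' e * aeval (x (n - j)) (P e) = 0 := by
    rw [← hn, Finset.mul_sum]
    refine Finset.sum_congr rfl fun e _ => ?_
    rw [hP']
    simp only [map_mul, aeval_C]
    have : (algebraMap k k) D = D := rfl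
    rw [this]
    ring
  exact (mul_eq_zero.1 h1).resolve_left hD

/-- Equations propagate along a common period. -/
theorem Glob.mon (G : Glob d f U x) (k1 : ℕ)
    (hdet : ∀ v, ∀ j ≥ k1, (Dm d f ((G.loc v).y j)).det ≠ 0) (l : ℕ)
    (τ : ∀ _ : G.big, ℕ → AlgebraicClosure k) (hτ : ∀ v j, τ v j ≠ 0)
    (hyl : ∀ v j i, (G.loc v).y (k1 + j + l) i = τ v j * (G.loc v).y (k1 + j) i) (m : ℕ) :
    ∃ K, ∀ j ≥ K, ∀ g : MvPolynomial (Fin (N + 1)) k, g.totalDegree ≤ m →
      (∀ᶠ n in U, aeval (x (n - j)) g = 0) → ∀ᶠ n in U, aeval (x (n - (j + l))) g = 0 := by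
  classical
  choose K hK using fun v => (G.loc v).mon k1 (hdet v) l (τ v) (hτ v) (hyl v) m
  refine ⟨∑ v, K v, fun j hj g hg h => ?_⟩
  have hKj : ∀ v, K v ≤ j := fun v =>
    (Finset.single_le_sum (fun _ _ => Nat.zero_le _) (Finset.mem_univ v)).trans hj
  obtain ⟨D, hD, hDP⟩ := scale_poly (fun _ : Unit => g)
  set g' : MvPolynomial (Fin (N + 1)) k := C D * g with hg'
  have hval : ∀ n, aeval (x n) g' = D * aeval (x n) g := by
    intro n
    rw [hg', map_mul, aeval_C]
    rfl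
  have hg'deg : g'.totalDegree ≤ m := by
    refine (totalDegree_mul _ _).trans ?_
    rw [totalDegree_C, zero_add]
    exact hg
  have h' : ∀ᶠ n in U, aeval (x (n - j)) g' = 0 := by
    filter_upwards [h] with n hn
    rw [hval, hn, mul_zero]
  by_contra hno
  have hne : ∀ᶠ n in U, aeval (x (n - (j + l))) g' ≠ 0 := by
    have h1 : ∀ᶠ n in U, ¬ aeval (x (n - (j + l))) g = 0 := Ultrafilter.eventually_not.2 hno
    filter_upwards [h1] with n hn
    rw [hval]
    exact mul_ne_zero hD hn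
  -- upper bounds
  have hbd : ∀ v : Pl k, ∃ C : ℝ, v ∈ G.S → v ∉ G.big → ∀ᶠ n in U,
      av v (aeval (x (n - (j + l))) g') ≤ Real.exp C := by
    intro v
    by_cases hv : v ∈ G.S ∧ v ∉ G.big
    · obtain ⟨C, hC⟩ := G.val_bdd v hv.1 hv.2 (j + l) g'
      exact ⟨C, fun _ _ => hC⟩
    · exact ⟨0, fun h1 h2 => absurd ⟨h1, h2⟩ hv⟩
  choose c hc using hbd
  have hsmall : ∀ v ∈ G.big, ∀ M : ℝ, ∀ᶠ n in U,
      av v (aeval (x (n - (j + l))) g') ≤ Real.exp M := by
    intro v hv M
    have h1 := hK ⟨v, hv⟩ j (hKj _) g' hg'deg h'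
    filter_upwards [h1.eventually (gt_mem_nhds (Real.exp_pos M))] with n hn
    rw [← (G.hW v).1]
    exact hn.le
  set A : ℝ := ∑ v ∈ G.S, wt v * |c v| with hA
  set b : Pl k → ℝ := fun v => if v = G.v0 then -((A + 1) / wt G.v0) else if v ∈ G.big then 0
    else c v with hb
  have hall : ∀ᶠ n in U, ∀ v ∈ G.S, av v (aeval (x (n - (j + l))) g') ≤ Real.exp (b v) := by
    rw [Filter.eventually_all_finset]
    intro v hv
    rw [hb]
    by_cases h1 : v = G.v0
    · simp only [h1, if_true]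
      exact hsmall _ G.hv0 _
    · simp only [h1, if_false]
      by_cases h2 : v ∈ G.big
      · simp only [h2, if_true]
        exact hsmall v h2 0
      · simp only [h2, if_false]
        exact hc v hv h2
  obtain ⟨n, e1, e2⟩ := (hne.and hall).exists
  have h3 := prod_formula G.S G.hS _ e1 (fun v hv => G.out v hv g' (fun m v => hDP () m v) _)
  have h4 : ∑ v ∈ G.S, wt v * Real.log (av v (aeval (x (n - (j + l))) g')) ≤
      ∑ v ∈ G.S, wt v * b v := by
    refine Finset.sum_le_sum fun v hv => mul_le_mul_of_nonneg_left ?_ (wt_nonneg v)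
    rw [Real.log_le_iff_le_exp ((av v).pos e1)]
    exact e2 v hv
  have h5 : ∑ v ∈ G.S, wt v * b v = wt G.v0 * b G.v0 + ∑ v ∈ G.S.erase G.v0, wt v * b v :=
    (Finset.add_sum_erase _ _ (G.hbig G.hv0)).symm
  have h6 : ∑ v ∈ G.S.erase G.v0, wt v * b v ≤ A := by
    refine le_trans ?_ (Finset.sum_le_sum_of_subset_of_nonneg (Finset.erase_subset G.v0 G.S)
      fun v _ _ => mul_nonneg (wt_nonneg v) (abs_nonneg _))
    refine Finset.sum_le_sum fun v hv => mul_le_mul_of_nonneg_left ?_ (wt_nonneg v)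
    have h7 : v ≠ G.v0 := (Finset.mem_erase.1 hv).1
    rw [hb]
    simp only [h7, if_false]
    split_ifs
    · exact abs_nonneg _
    · exact le_abs_self _
  have h8 : wt G.v0 * b G.v0 = -(A + 1) := by
    rw [hb]
    simp only [if_true]
    have := (wt_pos G.v0).ne'
    field_simp
  rw [h5, h8] at h4
  linarith

end Pool.Agent.R847.SN
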