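import Mathlib
import Pool.Agent.R847.SN.Per
import Pool.Agent.R847.SN.Sub

/-!
# The closures of the return points are periodic
-/

set_option autoImplicit false

open MvPolynomial Filter Topology Asymptotics

namespace Pool.Agent.R847.SN

section ideals

variable {k : Type} [Field k] {N d : ℕ} {f : Fin (N + 1) → MvPolynomial (Fin (N + 1)) k}
  {U : Ultrafilter ℕ} {x : ℕ → Fin (N + 1) → k}

/-- the equations of the `j`-th predecessors -/
def Pid (U : Ultrafilter ℕ) (x : ℕ → Fin (N + 1) → k) (j : ℕ) :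
    Ideal (MvPolynomial (Fin (N + 1)) k) where
  carrier := {g | ∀ᶠ n in U, aeval (x (n - j)) g = 0}
  add_mem' := by
    intro a b ha hb
    filter_upwards [ha, hb] with n h1 h2
    rw [map_add, h1, h2, add_zero]
  zero_mem' := Eventually.of_forall fun n => map_zero _
  smul_mem' := by
    intro c g hg
    filter_upwards [hg] with n h1
    rw [smul_eq_mul, map_mul, h1, mul_zero]

lemma mem_Pid (j : ℕ) (g : MvPolynomial (Fin (N + 1)) k) :
    g ∈ Pid U x j ↔ ∀ᶠ n in U, aeval (x (n - j)) g = 0 := Iff.rfl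

lemma Pid_prime (j : ℕ) (g h : MvPolynomial (Fin (N + 1)) k)
    (hgh : g * h ∈ Pid U x j) (hg : g ∉ Pid U x j) : h ∈ Pid U x j := by
  rw [mem_Pid] at hgh hg ⊢
  have h1 : ∀ᶠ n in U, ¬ aeval (x (n - j)) g = 0 := Ultrafilter.eventually_not.2 hg
  filter_upwards [hgh, h1] with n e1 e2
  rw [map_mul] at e1
  exact (mul_eq_zero.1 e1).resolve_left e2

lemma comp_mem (hx : ∀ n i, x (n + 1) i = aeval (x n) (f i)) (hU : (U : Filter ℕ) ≤ atTop) (j : ℕ)
    (g : MvPolynomial (Fin (N + 1)) k) (hg : g ∈ Pid U x j) : bind₁ f g ∈ Pid U x (j + 1) := by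
  rw [mem_Pid] at hg ⊢
  have h0 : ∀ᶠ n in U, j + 1 ≤ n := hU (eventually_ge_atTop (j + 1))
  filter_upwards [hg, h0] with n h1 h2
  rw [aeval_bind₁]
  have h3 : (fun i => aeval (x (n - (j + 1))) (f i)) = x (n - j) := by
    funext i
    rw [← hx]
    congr 2
    omega
  rw [h3, h1]

lemma comps_mem (hx : ∀ n i, x (n + 1) i = aeval (x n) (f i)) (hU : (U : Filter ℕ) ≤ atTop)
    (j t : ℕ) (g : MvPolynomial (Fin (N + 1)) k) (hg : g ∈ Pid U x j) :
    (bind₁ f)^[t] g ∈ Pid U x (j + t) := by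
  induction t with
  | zero => exact hg
  | succ t ih =>
    rw [Function.iterate_succ_apply', ← add_assoc]
    exact comp_mem hx hU _ _ ih

/-- the equations of almost all predecessors in a residue class -/
def Pinf (U : Ultrafilter ℕ) (x : ℕ → Fin (N + 1) → k) (l : ℕ) :
    Ideal (MvPolynomial (Fin (N + 1)) k) where
  carrier := {g | ∀ᶠ j in atTop, g ∈ Pid U x (j * l)}
  add_mem' := by
    intro a b ha hb
    filter_upwards [ha, hb] with n h1 h2
    exact add_mem h1 h2
  zero_mem' := Eventually.of_forall fun n => zero_mem _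
  smul_mem' := by
    intro c g hg
    filter_upwards [hg] with n h1
    exact Ideal.mul_mem_left _ _ h1

lemma mem_Pinf (l : ℕ) (g : MvPolynomial (Fin (N + 1)) k) :
    g ∈ Pinf U x l ↔ ∀ᶠ j in atTop, g ∈ Pid U x (j * l) := Iff.rfl

/-- the `j`-th predecessors have an unbounded coordinate -/
def Coord (U : Ultrafilter ℕ) (x : ℕ → Fin (N + 1) → k) (j : ℕ) (i : Fin (N + 1)) : Prop :=
  ∀ r : Polynomial k, (∀ᶠ n in U, r.eval (x (n - j) i) = 0) → r = 0

lemma Coord.mem {j : ℕ} {i : Fin (N + 1)} (h : Coord U x j i) (r : Polynomial k)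
    (hr : Polynomial.aeval (X i : MvPolynomial (Fin (N + 1)) k) r ∈ Pid U x j) : r = 0 := by
  apply h
  rw [mem_Pid] at hr
  filter_upwards [hr] with n hn
  rw [← Polynomial.aeval_algHom_apply, aeval_X] at hn
  rw [← hn, Polynomial.coe_aeval_eq_eval]

/-- powers of `g` with coefficients polynomials in one coordinate -/
lemma elim (l j : ℕ) (i : Fin (N + 1)) (hi : Coord U x (j * l) i)
    (g : MvPolynomial (Fin (N + 1)) k) (hg : g ∈ Pid U x (j * l))
    (hcancel : ∀ h, g * h ∈ Pinf U x l → h ∈ Pinf U x l) (hle : Pinf U x l ≤ Pid U x (j * l))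
    (n : ℕ) :
    ∀ r : ℕ → Polynomial k, ∑ b ∈ Finset.range n,
      Polynomial.aeval (X i : MvPolynomial (Fin (N + 1)) k) (r b) * g ^ b ∈ Pinf U x l →
      ∀ b < n, r b = 0 := by
  induction n with
  | zero =>
    intro r _ b hb
    omega
  | succ n ih =>
    intro r hr b hb
    rw [Finset.sum_range_succ'] at hr
    rw [pow_zero, mul_one] at hr
    have h1 : ∑ b ∈ Finset.range n, Polynomial.aeval (X i : MvPolynomial (Fin (N + 1)) k)
        (r (b + 1)) * g ^ (b + 1) = g * ∑ b ∈ Finset.range n,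
        Polynomial.aeval (X i : MvPolynomial (Fin (N + 1)) k) (r (b + 1)) * g ^ b := by
      rw [Finset.mul_sum]
      refine Finset.sum_congr rfl fun b _ => ?_
      ring
    rw [h1] at hr
    have h0 : r 0 = 0 := by
      apply hi.mem
      have h2 := hle hr
      exact (Ideal.add_mem_iff_right _ (Ideal.mul_mem_right _ _ hg)).1 h2
    rw [h0, map_zero, add_zero] at hr
    have h3 := ih (fun b => r (b + 1)) (hcancel _ hr)
    rcases Nat.eq_zero_or_pos b with rfl | hb'
    · exact h0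
    · have h4 := h3 (b - 1) (by omega)
      rwa [Nat.sub_add_cancel hb'] at h4

/-- The equations stabilise along a residue class. -/
theorem stable (hcoord : ∀ j, ∃ i, Coord U x j i) (l : ℕ) (hl : 1 ≤ l)
    (hmon : ∀ m : ℕ, ∃ K, ∀ j ≥ K, ∀ g : MvPolynomial (Fin (N + 1)) k, g.totalDegree ≤ m →
      g ∈ Pid U x j → g ∈ Pid U x (j + l))
    (hsub : ∀ m : ℕ, ∃ K, ∀ j ≥ K, ∀ P : Fin (2 * m + 2) → MvPolynomial (Fin (N + 1)) k,
      (∀ e, (P e).totalDegree ≤ m) → ∃ c : Fin (2 * m + 2) → k, c ≠ 0 ∧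
        ∑ e, C (c e) * P e ∈ Pid U x j) :
    ∃ j, Pid U x (j * l) = Pinf U x l := by
  classical
  have hup : ∀ m : ℕ, ∃ K, ∀ j ≥ K, ∀ g : MvPolynomial (Fin (N + 1)) k, g.totalDegree ≤ m →
      g ∈ Pid U x (j * l) → g ∈ Pinf U x l := by
    intro m
    obtain ⟨K, hK⟩ := hmon m
    refine ⟨K, fun j hj g hg h => ?_⟩
    rw [mem_Pinf, eventually_atTop]
    refine ⟨j, fun j' hj' => ?_⟩
    induction j', hj' using Nat.le_induction with
    | base => exact h
    | succ j' hj'' ih =>
      rw [add_mul, one_mul]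
      apply hK _ _ g hg ih
      calc K ≤ j' * 1 := by omega
        _ ≤ j' * l := Nat.mul_le_mul_left _ hl
  -- finite generation
  obtain ⟨s, hs⟩ := (isNoetherian_def.1 (inferInstance :
    IsNoetherian (MvPolynomial (Fin (N + 1)) k) (MvPolynomial (Fin (N + 1)) k))) (Pinf U x l)
  have hev : ∀ᶠ j in atTop, ∀ g ∈ s, g ∈ Pid U x (j * l) := by
    rw [Filter.eventually_all_finset]
    intro g hg
    have h1 : g ∈ Pinf U x l := by
      rw [← hs]
      exact Submodule.subset_span hg
    exact h1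
  obtain ⟨j, hj⟩ := hev.exists
  have hle : Pinf U x l ≤ Pid U x (j * l) := by
    rw [← hs]
    exact Submodule.span_le.2 hj
  refine ⟨j, le_antisymm (fun g hg => ?_) hle⟩
  by_contra hgn
  obtain ⟨i, hi⟩ := hcoord (j * l)
  set e := g.totalDegree + 1 with he
  set m := 6 * e with hm
  set q := 4 * e + 1 with hq
  obtain ⟨K0, hK0⟩ := hup g.totalDegree
  obtain ⟨K1, hK1⟩ := hup m
  obtain ⟨K2, hK2⟩ := hsub m
  have hcancel : ∀ h, g * h ∈ Pinf U x l → h ∈ Pinf U x l := by
    intro h hgh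
    rw [mem_Pinf] at hgh ⊢
    filter_upwards [hgh, eventually_ge_atTop K0] with j' h1 h2
    apply Pid_prime _ _ _ h1
    intro h3
    exact hgn (hK0 j' h2 g le_rfl h3)
  -- an injection into the exponents
  have hcard : Fintype.card (Fin (2 * m + 2)) ≤ Fintype.card (Fin 3 × Fin q) := by
    rw [Fintype.card_prod, Fintype.card_fin, Fintype.card_fin, Fintype.card_fin, hm, hq]
    omega
  obtain ⟨η⟩ := Function.Embedding.nonempty_of_card_le hcard
  obtain ⟨c, hc, hR⟩ := hK2 ((K1 + K2) * l) (by nlinarith)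
    (fun t => X i ^ ((η t).2 : ℕ) * g ^ ((η t).1 : ℕ)) (by
      intro t
      refine (totalDegree_mul _ _).trans ?_
      have h1 : (X i ^ ((η t).2 : ℕ) : MvPolynomial (Fin (N + 1)) k).totalDegree ≤ 4 * e := by
        rw [totalDegree_X_pow]
        have := (η t).2.2
        omega
      have h2 : (g ^ ((η t).1 : ℕ)).totalDegree ≤ 2 * e := by
        refine (totalDegree_pow _ _).trans ?_
        have := (η t).1.2
        nlinarith
      omega)
  set R := ∑ t, C (c t) * (X i ^ ((η t).2 : ℕ) * g ^ ((η t).1 : ℕ)) with hRdef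
  have hRdeg : R.totalDegree ≤ m := by
    rw [hRdef]
    apply totalDegree_finsetSum_le
    intro t _
    refine (totalDegree_mul _ _).trans ?_
    rw [totalDegree_C, zero_add]
    refine (totalDegree_mul _ _).trans ?_
    have h1 : (X i ^ ((η t).2 : ℕ) : MvPolynomial (Fin (N + 1)) k).totalDegree ≤ 4 * e := by
      rw [totalDegree_X_pow]
      have := (η t).2.2
      omega
    have h2 : (g ^ ((η t).1 : ℕ)).totalDegree ≤ 2 * e := by
      refine (totalDegree_pow _ _).trans ?_
      have := (η t).1.2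
      nlinarith
    omega
  have hRinf : R ∈ Pinf U x l := hK1 (K1 + K2) (by omega) R hRdeg hR
  set c' : Fin 3 × Fin q → k := Function.extend η c 0 with hc'
  set r : ℕ → Polynomial k := fun b => if hb : b < 3 then
    ∑ a : Fin q, Polynomial.C (c' (⟨b, hb⟩, a)) * Polynomial.X ^ (a : ℕ) else 0 with hr
  have hReq : R = ∑ b ∈ Finset.range 3,
      Polynomial.aeval (X i : MvPolynomial (Fin (N + 1)) k) (r b) * g ^ b := by
    have h1 : R = ∑ p : Fin 3 × Fin q, C (c' p) * (X i ^ (p.2 : ℕ) * g ^ (p.1 : ℕ)) := by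
      rw [hRdef, ← Finset.sum_subset (Finset.subset_univ (Finset.univ.map η)), Finset.sum_map]
      · refine Finset.sum_congr rfl fun t _ => ?_
        rw [hc', η.injective.extend_apply]
      · intro p _ hp
        have h2 : ¬ ∃ t, η t = p := by
          rintro ⟨t, rfl⟩
          exact hp (Finset.mem_map_of_mem η (Finset.mem_univ t))
        rw [hc', Function.extend_apply' _ _ _ h2]
        simp
    rw [h1, Fintype.sum_prod_type, ← Fin.sum_univ_eq_sum_range
      (fun b => Polynomial.aeval (X i : MvPolynomial (Fin (N + 1)) k) (r b) * g ^ b)]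
    refine Finset.sum_congr rfl fun b _ => ?_
    rw [hr]
    simp only [b.2, dif_pos, Fin.eta, map_sum, map_mul, Polynomial.aeval_C, map_pow,
      Polynomial.aeval_X]
    rw [Finset.sum_mul]
    refine Finset.sum_congr rfl fun a _ => ?_
    rw [mul_assoc]
    rfl
  rw [hReq] at hRinf
  have hall := elim l j i hi g hg hcancel hle 3 r hRinf
  apply hc
  funext t
  have h1 := hall (η t).1 (η t).1.2
  rw [hr] at h1
  simp only [(η t).1.2, dif_pos, Fin.eta] at h1
  have h2 := congrArg (fun p => Polynomial.coeff p ((η t).2 : ℕ)) h1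
  simp only [Polynomial.finsetSum_coeff, Polynomial.coeff_C_mul, Polynomial.coeff_X_pow,
    Polynomial.coeff_zero] at h2
  rw [Finset.sum_eq_single (η t).2] at h2
  · rw [if_pos rfl, mul_one] at h2
    have h3 : ((η t).1, (η t).2) = η t := rfl
    rw [h3, hc', η.injective.extend_apply] at h2
    exact h2
  · intro a _ ha
    rw [if_neg, mul_zero]
    intro h
    exact ha (Fin.ext h.symm)
  · intro h
    exact absurd (Finset.mem_univ _) h

end ideals

variable {k : Type} [Field k] [NumberField k] {N d : ℕ}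
  {f : Fin (N + 1) → MvPolynomial (Fin (N + 1)) k}
  {U : Ultrafilter ℕ} {x : ℕ → Fin (N + 1) → k}

/-- A common period of the limits at all places where the orbit is unbounded. -/
theorem Glob.period (G : Glob d f U x) (hd : 2 ≤ d) (hreg : Reg d f) (k1 : ℕ)
    (hdet : ∀ v, ∀ j ≥ k1, (Dm d f ((G.loc v).y j)).det ≠ 0) :
    ∃ l ≥ 1, ∃ τ : ∀ _ : G.big, ℕ → AlgebraicClosure k, (∀ v j, τ v j ≠ 0) ∧
      ∀ v j i, (G.loc v).y (k1 + j + l) i = τ v j * (G.loc v).y (k1 + j) i := by
  classical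
  obtain ⟨K1, hK1⟩ := G.sub_dep k1 hdet 1
  obtain ⟨K2, hK2⟩ := G.sub_dep k1 hdet 2
  have hper : ∀ v : G.big, ∃ l ≥ 1, ∀ j, PR ((G.loc v).y (j + l)) ((G.loc v).y j) := by
    intro v
    obtain ⟨L, hL, k2, hmem⟩ := fixed_field (G.loc v) (max K1 K2)
      (fun j hj => hK1 j (le_trans (le_max_left _ _) hj))
      (fun j hj => hK2 j (le_trans (le_max_right _ _) hj))
    exact periodic hd hreg _ (G.loc v).hy0 (G.loc v).hy L hL k2 hmem
  choose l hl hPR using hper
  have hdvd : ∀ v, l v ∣ ∏ v, l v := fun v => Finset.dvd_prod_of_mem l (Finset.mem_univ v)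
  have hall : ∀ v j, PR ((G.loc v).y (j + ∏ v, l v)) ((G.loc v).y j) := by
    intro v j
    obtain ⟨t, ht⟩ := hdvd v
    rw [ht]
    exact PR_mul _ _ (hPR v) t j
  choose τ hτ h using hall
  refine ⟨∏ v, l v, Nat.one_le_iff_ne_zero.2 (Finset.prod_ne_zero_iff.2 fun v _ =>
    (by have := hl v; omega)), fun v j => τ v (k1 + j), fun v j => hτ v _, fun v j i => ?_⟩
  exact h v (k1 + j) i

/-- Almost all return points have a fixed arithmetic progression of returns. -/
theorem Glob.fin (G : Glob d f U x) (hd : 2 ≤ d) (hreg : Reg d f)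
    (k1 : ℕ) (hdet : ∀ v, ∀ j ≥ k1, (Dm d f ((G.loc v).y j)).det ≠ 0) :
    ∃ l ≥ 1, ∀ᶠ n in U, ∀ t, ∀ h : MvPolynomial (Fin (N + 1)) k,
      (∀ᶠ n' in U, aeval (x n') h = 0) → aeval (x (n + l * t)) h = 0 := by
  classical
  obtain ⟨l, hl, τ, hτ, hyl⟩ := G.period hd hreg k1 hdet
  refine ⟨l, hl, ?_⟩
  have hcoord : ∀ j, ∃ i, Coord U x j i := by
    intro j
    obtain ⟨i, hi⟩ := Function.ne_iff.1 ((G.loc ⟨G.v0, G.hv0⟩).hy0 j)
    exact ⟨i, (G.loc ⟨G.v0, G.hv0⟩).coord j i hi⟩
  obtain ⟨j, hj⟩ := stable hcoord l hl (fun m => G.mon k1 hdet l τ hτ hyl m) (by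
    intro m
    obtain ⟨K, hK⟩ := G.sub_dep k1 hdet m
    refine ⟨K, fun j hj P hP => ?_⟩
    obtain ⟨c, hc, h⟩ := hK j hj P hP
    refine ⟨c, hc, ?_⟩
    rw [mem_Pid]
    filter_upwards [h] with n hn
    rw [map_sum, ← hn]
    refine Finset.sum_congr rfl fun e _ => ?_
    rw [map_mul, aeval_C]
    rfl)
  set c := j * l with hk
  -- invariance
  have hinv : ∀ g ∈ Pid U x c, (bind₁ f)^[l] g ∈ Pid U x c := by
    intro g hg
    rw [hj, mem_Pinf] at hg ⊢
    rw [eventually_atTop] at hg ⊢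
    obtain ⟨a, ha⟩ := hg
    refine ⟨a + 1, fun b hb => ?_⟩
    have h1 := comps_mem G.hx G.hU ((b - 1) * l) l g (ha (b - 1) (by omega))
    have h2 : (b - 1) * l + l = b * l := by
      obtain ⟨b', rfl⟩ : ∃ b', b = b' + 1 := ⟨b - 1, by omega⟩
      rw [Nat.add_sub_cancel]
      ring
    rwa [h2] at h1
  have hcomp : ∀ (t m : ℕ) (g : MvPolynomial (Fin (N + 1)) k),
      aeval (x m) ((bind₁ f)^[t] g) = aeval (x (m + t)) g := by
    intro t
    induction t with
    | zero => intro m g; rfl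
    | succ t ih =>
      intro m g
      rw [Function.iterate_succ_apply', aeval_bind₁]
      have h1 : (fun i => aeval (x m) (f i)) = x (m + 1) := by
        funext i
        exact (G.hx m i).symm
      rw [h1, ih]
      congr 2
      ring_nf
  obtain ⟨s, hs⟩ := (isNoetherian_def.1 (inferInstance :
    IsNoetherian (MvPolynomial (Fin (N + 1)) k) (MvPolynomial (Fin (N + 1)) k))) (Pid U x c)
  have hev : ∀ᶠ n in U, ∀ g ∈ s, aeval (x (n - c)) g = 0 := by
    rw [Filter.eventually_all_finset]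
    intro g hg
    have h1 : g ∈ Pid U x c := by
      rw [← hs]
      exact Submodule.subset_span hg
    exact h1
  have hge : ∀ᶠ n in U, c ≤ n := G.hU (eventually_ge_atTop c)
  filter_upwards [hev, hge] with n h1 h2
  have h3 : ∀ g ∈ Pid U x c, aeval (x (n - c)) g = 0 := by
    intro g hg
    have h4 : Pid U x c ≤ RingHom.ker (aeval (x (n - c)) : MvPolynomial (Fin (N + 1)) k →ₐ[k] k) := by
      rw [← hs]
      apply Submodule.span_le.2
      intro g hg
      rw [SetLike.mem_coe, RingHom.mem_ker]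
      exact h1 g hg
    exact (RingHom.mem_ker).1 (h4 hg)
  have h4 : ∀ t, ∀ g ∈ Pid U x c, aeval (x (n - c + l * t)) g = 0 := by
    intro t
    induction t with
    | zero => exact h3
    | succ t ih =>
      intro g hg
      have h5 := ih _ (hinv g hg)
      rw [hcomp] at h5
      have e1 : n - c + l * (t + 1) = n - c + l * t + l := by ring
      rw [e1, h5]
  intro t h hh
  have h5 : h ∈ Pid U x 0 := by
    rw [mem_Pid]
    exact hh
  have h6 := comps_mem G.hx G.hU 0 c h h5
  rw [zero_add] at h6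
  have h7 := h4 t _ h6
  rw [hcomp] at h7
  have e1 : n + l * t = n - c + l * t + c := by
    generalize l * t = w
    omega
  rw [e1, h7]

end Pool.Agent.R847.SN
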