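import Mathlib
import Pool.Agent.R847.SN.End

/-!
# Construction of the global data
-/

set_option autoImplicit false

namespace Pool.Agent.R847.SN

open MvPolynomial NumberField IsDedekindDomain Height Module Filter Topology
open Pool.Agent.W180.OP (Pl av wt wt_nonneg nrm le_nrm nrm_pos nrm_le nrm_nonneg exists_nrm
  fv_support_finite)
open Pool.Agent.R405 (Good schF logHeight_sum nrm_finite)

variable {k : Type} [Field k] [NumberField k] {N d : ℕ}
  {f : Fin (N + 1) → MvPolynomial (Fin (N + 1)) k}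
  {U : Ultrafilter ℕ} {x : ℕ → Fin (N + 1) → k}

/-- a finite set of places outside of which a finite set of elements is integral -/
lemma exists_S (s : Finset k) : ∃ S : Finset (Pl k), (∀ w : InfinitePlace k, Sum.inl w ∈ S) ∧
    ∀ v, v ∉ S → ∀ t ∈ s, av v t ≤ 1 := by
  classical
  have hfin : (⋃ t ∈ s, {v : HeightOneSpectrum (𝓞 k) | t ≠ 0 ∧
      Pool.Agent.W180.OP.fv v t ≠ 1}).Finite := by
    apply Set.Finite.biUnion s.finite_toSet
    intro t _
    by_cases ht : t = 0
    · apply Set.finite_empty.subset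
      rintro v ⟨h, _⟩
      exact h ht
    · exact (fv_support_finite ht).subset fun v hv => hv.2
  refine ⟨(Finset.univ.image Sum.inl) ∪ (hfin.toFinset.image Sum.inr), fun w => ?_, ?_⟩
  · exact Finset.mem_union_left _ (Finset.mem_image_of_mem _ (Finset.mem_univ w))
  · intro v hv t ht
    rcases v with w | v
    · exact absurd (Finset.mem_union_left _ (Finset.mem_image_of_mem _ (Finset.mem_univ w))) hv
    · by_contra hlt
      apply hv
      apply Finset.mem_union_right
      apply Finset.mem_image_of_mem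
      rw [Set.Finite.mem_toFinset]
      simp only [Set.mem_iUnion]
      refine ⟨t, ht, ?_, ?_⟩
      · rintro rfl
        apply hlt
        rw [map_zero]
        exact zero_le_one
      · intro h
        exact hlt (le_of_eq h)

lemma uf_not (U : Ultrafilter ℕ) (v : Pl k) (x : ℕ → Fin (N + 1) → k)
    (h : ¬ ∀ C : ℝ, ∀ᶠ n in U, ∃ i, C ≤ av v (x n i)) :
    ∃ C : ℝ, ∀ᶠ n in U, ∀ i, av v (x n i) ≤ C := by
  push Not at h
  obtain ⟨C, hC⟩ := h
  refine ⟨C, ?_⟩
  filter_upwards [hC] with n hn i
  exact (hn i).le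

/-- Bounded preimages at a place. -/
lemma bdd_step (hd : d ≠ 0) (hdeg : ∀ i, (f i).totalDegree ≤ d) (hreg : Reg d f)
    (hx : ∀ n i, x (n + 1) i = aeval (x n) (f i)) (hU : (U : Filter ℕ) ≤ atTop)
    (v : Pl k) (W : AbsoluteValue (AlgebraicClosure k) ℝ) (hW : IsExt v W)
    (h : ∃ C : ℝ, ∀ᶠ n in U, ∀ i, av v (x n i) ≤ C) (j : ℕ) :
    ∃ C : ℝ, ∀ᶠ n in U, ∀ i, av v (x (n - j) i) ≤ C := by
  induction j with
  | zero => exact h
  | succ j ih =>
    obtain ⟨C, hC⟩ := ih
    let iN : NormedField (AlgebraicClosure k) := W.toNormedField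
    obtain ⟨C', hC'1, hC'⟩ := proper (Ω := AlgebraicClosure k) d hd f hreg
    have hn : ∀ a : k, ‖algebraMap k (AlgebraicClosure k) a‖ = av v a := fun a => hW.1 a
    refine ⟨C' * max C 1, ?_⟩
    have h0 : ∀ᶠ n in U, j + 1 ≤ n := hU (eventually_ge_atTop (j + 1))
    filter_upwards [hC, h0] with n h1 h2
    have h3 : ∀ i, aeval (x (n - (j + 1))) (f i) = x (n - j) i := by
      intro i
      rw [← hx]
      congr 2
      omega
    have h4 := hC' 1 (fun i => algebraMap k _ (x (n - (j + 1)) i)) (max C 1) (by simp)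
      (le_max_right _ _) (by
        intro i
        have h5 := H_eval d (f i) (hdeg i) (1 : AlgebraicClosure k) 1 (by simp)
          (fun i => algebraMap k _ (x (n - (j + 1)) i))
        simp only [one_pow, one_mul] at h5
        rw [h5, ← map_aevalk, h3, hn]
        exact (h1 i).trans (le_max_left _ _))
    intro i
    have h5 := h4 i
    rwa [hn] at h5

/-- The orbit is unbounded at some place. -/
lemma exists_big (S : Finset (Pl k)) (hS : ∀ w : InfinitePlace k, Sum.inl w ∈ S)
    (hint : ∀ n v, v ∉ S → ∀ i, av v (x n i) ≤ 1) (hinj : Function.Injective x)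
    (hU : (U : Filter ℕ) ≤ atTop) :
    ∃ v ∈ S, ∀ C : ℝ, ∀ᶠ n in U, ∃ i, C ≤ av v (x n i) := by
  classical
  by_contra hno
  push Not at hno
  have h1 : ∀ v ∈ S, ∃ C : ℝ, ∀ᶠ n in U, ∀ i, av v (x n i) ≤ C := by
    intro v hv
    apply uf_not
    intro hall
    obtain ⟨C, hC⟩ := hno v hv
    have h2 := hall C
    obtain ⟨n, e1, e2⟩ := (h2.and hC).exists
    obtain ⟨i, hi⟩ := e1
    exact absurd (e2 i) (not_lt.2 hi)
  have h2 : ∀ v : Pl k, ∃ C : ℝ, v ∈ S → ∀ᶠ n in U, ∀ i, av v (x n i) ≤ C := by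
    intro v
    by_cases hv : v ∈ S
    · obtain ⟨C, hC⟩ := h1 v hv
      exact ⟨C, fun _ => hC⟩
    · exact ⟨0, fun h => absurd h hv⟩
  choose C hC using h2
  have h3 : ∀ᶠ n in U, ∀ v ∈ S, ∀ i, av v (x n i) ≤ C v := by
    rw [Filter.eventually_all_finset]
    exact hC
  set B : ℝ := ∑ v ∈ S, wt v * Real.log (max (C v) 1) with hB
  have h4 : ∀ᶠ n in U, ∀ i, mulHeight₁ (x n i) ≤ Real.exp B := by
    filter_upwards [h3] with n hn i
    have hY : (![x n i, 1] : Fin 2 → k) ≠ 0 := by
      intro h0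
      have := congrFun h0 1
      simp at this
    have h5 := height_le S hS ![x n i, 1] hY (by
      intro v hv e
      fin_cases e
      · exact hint n v hv i
      · simp)
    have h6 : ∑ v ∈ S, wt v * Real.log (nrm (av v) ![x n i, 1]) ≤ B := by
      refine Finset.sum_le_sum fun v hv => mul_le_mul_of_nonneg_left ?_ (wt_nonneg v)
      apply Real.log_le_log (nrm_pos _ hY)
      apply nrm_le (by positivity)
      intro e
      fin_cases e
      · exact (hn v hv i).trans (le_max_left _ _)
      · simp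
    have h7 := h5.trans h6
    rw [logHeight_eq_log_mulHeight] at h7
    rw [mulHeight₁_eq_mulHeight]
    exact Real.le_exp_of_log_le h7
  have hfin : {z : k | mulHeight₁ z ≤ Real.exp B}.Finite := Northcott.finite_le (Real.exp B)
  have h8 : ∀ i, ∃ c : k, ∀ᶠ n in U, x n i = c := by
    intro i
    have := hfin.to_subtype
    obtain ⟨⟨c, hc⟩, hcn⟩ := uf_choice U (fun (c : {z : k | mulHeight₁ z ≤ Real.exp B}) n =>
      x n i = c) (by
        filter_upwards [h4] with n hn
        exact ⟨⟨_, hn i⟩, rfl⟩)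
    exact ⟨c, hcn⟩
  choose c hc using h8
  have h9 : ∀ᶠ n in U, x n = c := by
    filter_upwards [eventually_all.2 hc] with n hn
    exact funext hn
  obtain ⟨n, hn⟩ := h9.exists
  have h10 : ∀ᶠ n' in U, n + 1 ≤ n' := hU (eventually_ge_atTop (n + 1))
  obtain ⟨n', e1, e2⟩ := (h9.and h10).exists
  have := hinj (hn.trans e1.symm)
  omega

/-- Existence of the global data. -/
theorem exists_glob (hd : 2 ≤ d) (hdeg : ∀ i, (f i).totalDegree ≤ d) (hreg : Reg d f)
    (hx : ∀ n i, x (n + 1) i = aeval (x n) (f i)) (hinj : Function.Injective x)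
    (hU : (U : Filter ℕ) ≤ atTop)
    (hpair : ∀ i j, ∃ P : MvPolynomial (Fin 2) k, P ≠ 0 ∧
      ∀ᶠ n in U, aeval ![x n i, x n j] P = 0) :
    Nonempty (Glob d f U x) := by
  classical
  obtain ⟨S, hS, hSint⟩ := exists_S ((Finset.univ.biUnion fun i =>
    (f i).support.image fun m => coeff m (f i)) ∪ (Finset.univ.image fun i => x 0 i))
  have hint : ∀ n v, v ∉ S → ∀ i, av v (x n i) ≤ 1 := by
    intro n v hv
    rcases v with w | v
    · exact absurd (hS w) hv
    · induction n with
      | zero =>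
        intro i
        exact hSint _ hv _ (Finset.mem_union_right _ (Finset.mem_image_of_mem _
          (Finset.mem_univ i)))
      | succ n ih =>
        intro i
        rw [hx]
        apply int_eval v (f i) _ (x n) ih
        intro κ
        by_cases hκ : κ ∈ (f i).support
        · exact hSint _ hv _ (Finset.mem_union_left _ (Finset.mem_biUnion.2
            ⟨i, Finset.mem_univ i, Finset.mem_image_of_mem _ hκ⟩))
        · rw [notMem_support_iff.1 hκ, map_zero]
          exact zero_le_one
  choose W hW using fun v : Pl k => exists_isExt v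
  obtain ⟨v0, hv0, hbig0⟩ := exists_big S hS hint hinj hU
  set big : Finset (Pl k) := S.filter fun v => ∀ C : ℝ, ∀ᶠ n in U, ∃ i, C ≤ av v (x n i)
    with hbigdef
  have hloc : ∀ v : big, Nonempty (Loc d f U x (W v)) := by
    intro v
    have h1 := (Finset.mem_filter.1 v.2).2
    apply exists_loc (W v) d hd f hdeg hreg x hx U hU _ hpair
    intro C
    filter_upwards [h1 C] with n hn
    obtain ⟨i, hi⟩ := hn
    refine ⟨i, ?_⟩
    rw [(hW v).1]
    exact hi
  refine ⟨⟨S, W, hS, hW, hx, hU, hint, big, Finset.filter_subset _ _, v0,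
    Finset.mem_filter.2 ⟨hv0, hbig0⟩, fun v => (hloc v).some, ?_⟩⟩
  intro v hv hv' j
  apply bdd_step (by omega) hdeg hreg hx hU v (W v) (hW v) _ j
  apply uf_not
  intro h
  exact hv' (Finset.mem_filter.2 ⟨hv, h⟩)

end Pool.Agent.R847.SN
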