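import Mathlib
import Pool.Agent.R847.SN.Data
import Pool.Agent.R847.SG.Final

/-!
# Dynamical Mordell-Lang for curves and regular polynomial endomorphisms over number fields
-/

set_option autoImplicit false

open MvPolynomial Filter Topology Asymptotics

namespace Pool.Agent.R847.SN

section cmp

variable {k : Type} [Field k] [Algebra k ℂ] {ι : Type} [Fintype ι]

/-- the image of a complex polynomial under a functional on the coefficients -/
noncomputable def cmp (φ : Module.Dual k ℂ) (P : MvPolynomial ι ℂ) : MvPolynomial ι k :=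
  ∑ κ ∈ P.support, monomial κ (φ (coeff κ P))

omit [Fintype ι] in
lemma coeff_cmp (φ : Module.Dual k ℂ) (P : MvPolynomial ι ℂ) (κ : ι →₀ ℕ) :
    coeff κ (cmp φ P) = φ (coeff κ P) := by
  classical
  unfold cmp
  rw [coeff_sum]
  simp_rw [coeff_monomial]
  rw [Finset.sum_ite_eq']
  split_ifs with h
  · rfl
  · rw [notMem_support_iff.1 h, map_zero]

lemma aeval_cmp (φ : Module.Dual k ℂ) (P : MvPolynomial ι ℂ) (w : ι → k) :
    aeval w (cmp φ P) = φ (eval (fun i => algebraMap k ℂ (w i)) P) := by
  classical
  have h1 : eval (fun i => algebraMap k ℂ (w i)) P = ∑ κ ∈ P.support,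
      (∏ i, w i ^ κ i) • coeff κ P := by
    rw [eval_eq']
    refine Finset.sum_congr rfl fun κ _ => ?_
    rw [Algebra.smul_def, map_prod, mul_comm]
    simp only [map_pow]
  unfold cmp
  rw [h1, map_sum, map_sum]
  refine Finset.sum_congr rfl fun κ _ => ?_
  rw [map_smul, smul_eq_mul, aeval_monomial, Finsupp.prod_fintype _ _ (by simp), mul_comm]
  rfl

omit [Fintype ι] in
lemma cmp_deg (φ : Module.Dual k ℂ) (P : MvPolynomial ι ℂ) :
    (cmp φ P).totalDegree ≤ P.totalDegree := by
  classical
  unfold totalDegree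
  apply Finset.sup_mono
  intro κ hκ
  rw [mem_support_iff, coeff_cmp] at hκ
  rw [mem_support_iff]
  intro h
  rw [h, map_zero] at hκ
  exact hκ rfl

omit [Fintype ι] in
lemma cmp_comp (φ : Module.Dual k ℂ) (P : MvPolynomial ι ℂ) (m : ℕ) :
    cmp φ (homogeneousComponent m P) = homogeneousComponent m (cmp φ P) := by
  ext κ
  rw [coeff_cmp, coeff_homogeneousComponent, coeff_homogeneousComponent, coeff_cmp]
  split_ifs
  · rfl
  · rw [map_zero]

/-- A complex polynomial all of whose images vanish at an algebraic point vanishes there. -/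
lemma comp_zero {Ω : Type} [Field Ω] [Algebra k Ω] (σ : Ω →ₐ[k] ℂ) (P : MvPolynomial ι ℂ)
    (y : ι → Ω) (h : ∀ φ : Module.Dual k ℂ, aeval y (cmp φ P) = 0) :
    eval (fun i => σ (y i)) P = 0 := by
  classical
  set b := Module.Basis.ofVectorSpace k ℂ with hb
  set s := P.support.biUnion fun κ => (b.repr (coeff κ P)).support with hs
  have h1 : ∀ κ ∈ P.support, coeff κ P = ∑ t ∈ s, (b.repr (coeff κ P) t) • b t := by
    intro κ hκ
    conv_lhs => rw [← b.linearCombination_repr (coeff κ P)]
    rw [Finsupp.linearCombination_apply, Finsupp.sum]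
    apply Finset.sum_subset
    · intro t ht
      exact Finset.mem_biUnion.2 ⟨κ, hκ, ht⟩
    · intro t _ ht
      rw [Finsupp.notMem_support_iff.1 ht, zero_smul]
  have h2 : ∀ t, ∑ κ ∈ P.support, algebraMap k Ω (b.repr (coeff κ P) t) *
      ∏ i, y i ^ κ i = 0 := by
    intro t
    have h3 := h (b.coord t)
    unfold cmp at h3
    rw [map_sum] at h3
    rw [← h3]
    refine Finset.sum_congr rfl fun κ _ => ?_
    rw [aeval_monomial, Finsupp.prod_fintype _ _ (by simp)]
    rfl
  rw [eval_eq']
  calc ∑ κ ∈ P.support, coeff κ P * ∏ i, σ (y i) ^ κ i =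
      ∑ κ ∈ P.support, ∑ t ∈ s, b t * σ (algebraMap k Ω (b.repr (coeff κ P) t) *
        ∏ i, y i ^ κ i) := by
        refine Finset.sum_congr rfl fun κ hκ => ?_
        conv_lhs => rw [h1 κ hκ]
        rw [Finset.sum_mul]
        refine Finset.sum_congr rfl fun t _ => ?_
        rw [map_mul, AlgHom.commutes, map_prod, Algebra.smul_def]
        simp only [map_pow]
        ring
    _ = ∑ t ∈ s, b t * σ (∑ κ ∈ P.support, algebraMap k Ω (b.repr (coeff κ P) t) *
        ∏ i, y i ^ κ i) := by
        rw [Finset.sum_comm]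
        refine Finset.sum_congr rfl fun t _ => ?_
        rw [map_sum, Finset.mul_sum]
    _ = 0 := by
        apply Finset.sum_eq_zero
        intro t _
        rw [h2 t, map_zero, mul_zero]

end cmp

variable {k : Type} [Field k] [NumberField k] [Algebra k ℂ] {N : ℕ}

/-- the directions of the points at infinity of a closed set -/
def AtInf (V : Set (MvPolynomial (Fin (N + 1)) ℂ)) (y : Fin (N + 1) → ℂ) : Prop :=
  ∀ g : MvPolynomial (Fin (N + 1)) ℂ, (∀ z, (∀ h ∈ V, eval z h = 0) → eval z g = 0) →
    eval y (homogeneousComponent g.totalDegree g) = 0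

/-- **Dynamical Mordell-Lang for curves and regular polynomial endomorphisms.** -/
theorem dml_k (d : ℕ) (hd : 2 ≤ d) (f : Fin (N + 1) → MvPolynomial (Fin (N + 1)) k)
    (hdeg : ∀ i, (f i).totalDegree ≤ d) (hreg : Reg d f)
    (V : Set (MvPolynomial (Fin (N + 1)) ℂ))
    (hV : ∀ i j, ∃ P : MvPolynomial (Fin 2) ℂ, P ≠ 0 ∧
      ∀ z : Fin (N + 1) → ℂ, (∀ h ∈ V, eval z h = 0) → eval ![z i, z j] P = 0)
    (hcrit : ∀ y : ℕ → Fin (N + 1) → ℂ, (∀ j, y j ≠ 0) →
      (∀ j i, aeval (y (j + 1)) (homogeneousComponent d (f i)) = y j i) → AtInf V (y 0) →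
      {j | (Dm d f (y j)).det = 0}.Finite)
    (x : ℕ → Fin (N + 1) → k) (hx : ∀ n i, x (n + 1) i = aeval (x n) (f i)) :
    ∃ T : Finset (ℕ × ℕ), {n : ℕ | ∀ h ∈ V, eval (fun i => algebraMap k ℂ (x n i)) h = 0} =
      {n : ℕ | ∃ q ∈ T, ∃ m : ℕ, n = q.1 * m + q.2} := by
  classical
  set Z : Set ℕ := {n : ℕ | ∀ h ∈ V, eval (fun i => algebraMap k ℂ (x n i)) h = 0} with hZ
  apply Pool.Agent.R847.SG.compact_AP
  intro U hU hZU
  by_cases hinj : Function.Injective x
  · have hpair : ∀ i j, ∃ P : MvPolynomial (Fin 2) k, P ≠ 0 ∧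
        ∀ᶠ n in U, aeval ![x n i, x n j] P = 0 := by
      intro i j
      obtain ⟨P, hP, hP0⟩ := hV i j
      obtain ⟨κ, hκ⟩ := MvPolynomial.support_nonempty.2 hP
      obtain ⟨φ, hφ⟩ : ∃ φ : Module.Dual k ℂ, φ (coeff κ P) ≠ 0 := by
        by_contra hno
        push Not at hno
        exact (mem_support_iff.1 hκ) ((Module.forall_dual_apply_eq_zero_iff k _).1 hno)
      refine ⟨cmp φ P, ?_, ?_⟩
      · intro h0
        apply hφ
        rw [← coeff_cmp, h0, coeff_zero]
      · filter_upwards [hZU] with n hn
        have h1 := hP0 _ hn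
        rw [aeval_cmp]
        have h2 : (fun e => algebraMap k ℂ ((![x n i, x n j] : Fin 2 → k) e)) =
            ![algebraMap k ℂ (x n i), algebraMap k ℂ (x n j)] := by
          funext e
          fin_cases e <;> rfl
        rw [h2, h1, map_zero]
    obtain ⟨G⟩ := exists_glob hd hdeg hreg hx hinj hU hpair
    -- the embedding of the algebraic closure
    let σ : AlgebraicClosure k →ₐ[k] ℂ :=
      IsAlgClosed.lift (M := ℂ) (R := k) (S := AlgebraicClosure k)
    have hfin : ∀ v : G.big, {j | (Dm d f ((G.loc v).y j)).det = 0}.Finite := by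
      intro v
      set L := G.loc v with hL
      have hinf : AtInf V (fun i => σ (L.y 0 i)) := by
        intro g hg
        apply comp_zero σ
        intro φ
        rw [cmp_comp]
        have h1 := L.top 0 g.totalDegree (cmp φ g) (cmp_deg φ g) (by
          filter_upwards [hZU] with n hn
          rw [Nat.sub_zero, aeval_cmp, hg _ hn, map_zero])
        rwa [H_zero] at h1
      have h2 := hcrit (fun j i => σ (L.y j i)) (by
        intro j h0
        apply L.hy0 j
        funext i
        have h3 := congrFun h0 i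
        exact (map_eq_zero σ).1 h3) (by
        intro j i
        rw [← L.hy j i, comp_aeval_apply _ σ]) hinf
      refine h2.subset ?_
      intro j hj
      have h3 : (Dm d f (L.y j)).det = 0 := hj
      show (Dm d f (fun i => σ (L.y j i))).det = 0
      rw [← Dm_map σ]
      have h4 := AlgHom.map_det σ (Dm d f (L.y j))
      rw [h3, map_zero] at h4
      exact h4.symm
    obtain ⟨k1, hk1⟩ : ∃ k1, ∀ v : G.big, ∀ j ≥ k1, (Dm d f ((G.loc v).y j)).det ≠ 0 := by
      choose b hb using fun v => (hfin v).bddAbove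
      refine ⟨∑ v, b v + 1, fun v j hj h0 => ?_⟩
      have h1 : j ≤ b v := hb v h0
      have h2 := Finset.single_le_sum (f := b) (fun _ _ => Nat.zero_le _) (Finset.mem_univ v)
      omega
    obtain ⟨l, hl, h⟩ := G.fin hd hreg k1 hk1
    refine ⟨l, hl, ?_⟩
    filter_upwards [h] with n hn t g hg
    apply (Module.forall_dual_apply_eq_zero_iff k _).1
    intro φ
    have h1 := hn t (cmp φ g) (by
      filter_upwards [hZU] with n' hn'
      rw [aeval_cmp, hn' g hg, map_zero])
    rwa [aeval_cmp] at h1
  · -- a preperiodic orbit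
    rw [Function.Injective] at hinj
    push Not at hinj
    obtain ⟨a, b, hab, hne⟩ := hinj
    have key : ∀ a b, a < b → x a = x b →
        ∃ r ≥ 1, ∀ᶠ n in U, ∀ t, n + r * t ∈ Z := by
      intro a b hlt hab
      have h1 : ∀ m, x (a + m) = x (b + m) := by
        intro m
        induction m with
        | zero => exact hab
        | succ m ih =>
          funext i
          rw [← add_assoc, ← add_assoc, hx, hx, ih]
      have h2 : ∀ n ≥ a, ∀ t, x (n + (b - a) * t) = x n := by
        intro n hn t
        induction t with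
        | zero => rfl
        | succ t ih =>
          rw [← ih]
          have h3 := h1 (n + (b - a) * t - a)
          have e1 : a + (n + (b - a) * t - a) = n + (b - a) * t := by
            generalize (b - a) * t = w
            omega
          have e2 : b + (n + (b - a) * t - a) = n + (b - a) * (t + 1) := by
            rw [mul_add, mul_one]
            generalize (b - a) * t = w
            omega
          rw [e1, e2] at h3
          exact h3.symm
      refine ⟨b - a, by omega, ?_⟩
      have h3 : ∀ᶠ n in U, a ≤ n := hU (eventually_ge_atTop a)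
      filter_upwards [h3, hZU] with n h4 h5 t g hg
      rw [h2 n h4 t]
      exact h5 g hg
    rcases lt_or_gt_of_ne hne with h | h
    · exact key a b h hab
    · exact key b a h hab.symm

/-- The same with complex polynomials with algebraic coefficients. -/
theorem dml_alg (d : ℕ) (hd : 2 ≤ d) (f : Fin (N + 1) → MvPolynomial (Fin (N + 1)) ℂ)
    (hdeg : ∀ i, (f i).totalDegree ≤ d) (halg : ∀ i κ, IsAlgebraic ℚ (coeff κ (f i)))
    (hreg : ∀ z : Fin (N + 1) → ℂ, (∀ i, eval z (homogeneousComponent d (f i)) = 0) → z = 0)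
    (V : Set (MvPolynomial (Fin (N + 1)) ℂ))
    (hV : ∀ i j, ∃ P : MvPolynomial (Fin 2) ℂ, P ≠ 0 ∧
      ∀ z : Fin (N + 1) → ℂ, (∀ h ∈ V, eval z h = 0) → eval ![z i, z j] P = 0)
    (hcrit : ∀ y : ℕ → Fin (N + 1) → ℂ, (∀ j, y j ≠ 0) →
      (∀ j i, eval (y (j + 1)) (homogeneousComponent d (f i)) = y j i) → AtInf V (y 0) →
      {j | (Matrix.of fun i i' => eval (y j)
        (pderiv i' (homogeneousComponent d (f i)))).det = 0}.Finite)
    (x : ℕ → Fin (N + 1) → ℂ) (hx : ∀ n i, x (n + 1) i = eval (x n) (f i))
    (hx0 : ∀ i, IsAlgebraic ℚ (x 0 i)) :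
    ∃ T : Finset (ℕ × ℕ), {n : ℕ | ∀ h ∈ V, eval (x n) h = 0} =
      {n : ℕ | ∃ q ∈ T, ∃ m : ℕ, n = q.1 * m + q.2} := by
  classical
  -- the field of the coefficients and the coordinates
  set T0 : Set ℂ := (⋃ i, ⋃ κ ∈ (f i).support, {coeff κ (f i)}) ∪ (⋃ i, {x 0 i}) with hT0
  have hT0f : T0.Finite := by
    apply Set.Finite.union
    · exact Set.finite_iUnion fun i => Set.Finite.biUnion (f i).support.finite_toSet
        fun κ _ => Set.finite_singleton _
    · exact Set.finite_iUnion fun i => Set.finite_singleton _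
  have hT0a : ∀ t ∈ T0, IsIntegral ℚ t := by
    intro t ht
    apply IsAlgebraic.isIntegral
    rcases ht with ht | ht
    · simp only [Set.mem_iUnion] at ht
      obtain ⟨i, κ, _, rfl⟩ := ht
      exact halg i κ
    · simp only [Set.mem_iUnion] at ht
      obtain ⟨i, rfl⟩ := ht
      exact hx0 i
  set k : IntermediateField ℚ ℂ := IntermediateField.adjoin ℚ T0 with hk
  have hfd : FiniteDimensional ℚ k := by
    have := hT0f.to_subtype
    exact IntermediateField.finiteDimensional_adjoin hT0a
  have : NumberField k := { to_charZero := inferInstance, to_finiteDimensional := hfd }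
  have hcm : ∀ i κ, coeff κ (f i) ∈ k := by
    intro i κ
    by_cases hκ : κ ∈ (f i).support
    · apply IntermediateField.subset_adjoin
      left
      simp only [Set.mem_iUnion]
      exact ⟨i, κ, hκ, rfl⟩
    · rw [notMem_support_iff.1 hκ]
      exact zero_mem _
  have hx0m : ∀ i, x 0 i ∈ k := by
    intro i
    apply IntermediateField.subset_adjoin
    right
    simp only [Set.mem_iUnion]
    exact ⟨i, rfl⟩
  have hf' : ∀ i, ∃ g : MvPolynomial (Fin (N + 1)) k, map (algebraMap k ℂ) g = f i := by
    intro i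
    refine ⟨∑ κ ∈ (f i).support, monomial κ ⟨coeff κ (f i), hcm i κ⟩, ?_⟩
    rw [map_sum]
    simp_rw [map_monomial]
    conv_rhs => rw [← support_sum_monomial_coeff (f i)]
    rfl
  choose g hg using hf'
  have hinjk : Function.Injective (algebraMap k ℂ) := (algebraMap k ℂ).injective
  have hhc : ∀ i, homogeneousComponent d (f i) =
      map (algebraMap k ℂ) (homogeneousComponent d (g i)) := by
    intro i
    rw [← hg i]
    ext κ
    rw [coeff_map, coeff_homogeneousComponent, coeff_homogeneousComponent, coeff_map]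
    split_ifs
    · rfl
    · rw [map_zero]
  have hev : ∀ (z : Fin (N + 1) → ℂ) (p : MvPolynomial (Fin (N + 1)) k),
      eval z (map (algebraMap k ℂ) p) = aeval z p := by
    intro z p
    rw [aeval_def, eval₂_eq_eval_map]
  -- the orbit
  set x' : ℕ → Fin (N + 1) → k := fun n => (fun z i => aeval z (g i))^[n]
    (fun i => ⟨x 0 i, hx0m i⟩) with hx'
  have hx'x : ∀ n i, algebraMap k ℂ (x' n i) = x n i := by
    intro n
    induction n with
    | zero =>
      intro i
      rfl
    | succ n ih =>
      intro i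
      rw [hx']
      simp only [Function.iterate_succ_apply']
      rw [map_aevalk, hx, ← hg i, hev]
      congr 2
      funext r
      exact ih r
  have hreg' : Reg d g := by
    intro z hz
    let σ : AlgebraicClosure k →ₐ[k] ℂ :=
      IsAlgClosed.lift (M := ℂ) (R := k) (S := AlgebraicClosure k)
    have h1 := hreg (fun i => σ (z i)) fun i => by
      rw [hhc, hev, ← comp_aeval_apply _ σ, hz i, map_zero]
    funext i
    exact (map_eq_zero σ).1 (congrFun h1 i)
  obtain ⟨T, hT⟩ := dml_k d hd g (by
    intro i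
    refine le_trans ?_ (hdeg i)
    rw [← hg i]
    unfold totalDegree
    rw [support_map_of_injective _ hinjk]) hreg' V hV (by
      intro y hy0 hy hinf
      have h1 := hcrit y hy0 (by
        intro j i
        rw [hhc, hev]
        exact hy j i) hinf
      refine h1.subset ?_
      intro j hj
      have h3 : (Dm d g (y j)).det = 0 := hj
      show (Matrix.of fun i i' => eval (y j)
        (pderiv i' (homogeneousComponent d (f i)))).det = 0
      rw [← h3]
      congr 1
      ext i i'
      rw [Matrix.of_apply, hhc, pderiv_map, hev]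
      rfl) x' (by
      intro n i
      rw [hx']
      simp only [Function.iterate_succ_apply'])
  refine ⟨T, ?_⟩
  rw [← hT]
  ext n
  simp only [Set.mem_ofPred_eq]
  have h1 : (fun i => algebraMap k ℂ (x' n i)) = x n := funext (hx'x n)
  rw [h1]

end Pool.Agent.R847.SN
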