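import Mathlib
import Pool.Agent.R847.SN.Final
import Pool.Agent.R847.PC.Proj

/-!
# A family of regular endomorphisms without periodic critical points at infinity
-/

set_option autoImplicit false

open MvPolynomial

namespace Pool.Agent.R847.SN

variable {N : ℕ}

open Pool.Agent.R847.PC Pool.Agent.H936R2

lemma fs_hom (d : ℕ) (ζ : ℂ) (i : Fin (N + 1)) : (fs N d ζ i).IsHomogeneous d := by
  unfold fs
  have h1 : (X 0 - C (1 - ζ) * X (i + 1) : MvPolynomial (Fin (N + 1)) ℂ).IsHomogeneous 1 := by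
    apply (isHomogeneous_X _ _).sub
    have h2 := (isHomogeneous_C (Fin (N + 1)) (1 - ζ)).mul (isHomogeneous_X ℂ (i + 1))
    rwa [zero_add] at h2
  have h3 := h1.pow d
  rwa [one_mul] at h3

lemma fs_deg (d : ℕ) (ζ : ℂ) (i : Fin (N + 1)) (g : MvPolynomial (Fin (N + 1)) ℂ)
    (hg : g.totalDegree < d) : (fs N d ζ i + g).totalDegree ≤ d :=
  (totalDegree_add _ _).trans (max_le (fs_hom d ζ i).totalDegree_le hg.le)

lemma fs_top (d : ℕ) (ζ : ℂ) (i : Fin (N + 1)) (g : MvPolynomial (Fin (N + 1)) ℂ)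
    (hg : g.totalDegree < d) : homogeneousComponent d (fs N d ζ i + g) = fs N d ζ i := by
  rw [map_add, homogeneousComponent_of_mem (fs_hom d ζ i), if_pos rfl,
    homogeneousComponent_eq_zero d g hg, add_zero]

lemma fs_alg (d : ℕ) (ζ : ℂ) (hd : d ≠ 0) (hζ : ζ ^ d = 1) (i : Fin (N + 1)) (κ : Fin (N + 1) →₀ ℕ) :
    IsAlgebraic ℚ (coeff κ (fs N d ζ i)) := by
  have hζa : IsAlgebraic ℚ ζ := by
    apply IsIntegral.isAlgebraic
    apply IsIntegral.of_pow (Nat.pos_of_ne_zero hd)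
    rw [hζ]
    exact isIntegral_one
  set k := algebraicClosure ℚ ℂ with hk
  have hζk : 1 - ζ ∈ k := sub_mem (one_mem _) (mem_algebraicClosure_iff.2 hζa)
  obtain ⟨c, hc⟩ : ∃ c : k, algebraMap k ℂ c = 1 - ζ := ⟨⟨1 - ζ, hζk⟩, rfl⟩
  have h1 : fs N d ζ i = map (algebraMap k ℂ)
      ((X 0 - C c * X (i + 1)) ^ d) := by
    unfold fs
    rw [← hc, map_pow, map_sub, map_X, map_mul, map_X, map_C]
  rw [h1, coeff_map]
  exact mem_algebraicClosure_iff.1 (coeff κ ((X 0 - C c * X (i + 1)) ^ d : MvPolynomial _ k)).2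

lemma finite_of_lt (P : ℕ → Prop) (n0 : ℕ) (h : ∀ j, n0 ≤ j → ¬ P j) : {j | P j}.Finite := by
  refine (Set.finite_Iio n0).subset ?_
  intro j hj
  by_contra hge
  rw [Set.mem_Iio, not_lt] at hge
  exact h j hge hj

lemma fs_crit_finite (d : ℕ) (ζ : ℂ) (hd : d ≠ 0) (hζ : ζ ^ d = 1) (hζ1 : ζ ≠ 1)
    (y : ℕ → Fin (N + 1) → ℂ) (hy0 : ∀ j, y j ≠ 0)
    (hy : ∀ j i, eval (y (j + 1)) (fs N d ζ i) = y j i) :
    {j | (Matrix.of fun i i' => eval (y j) (pderiv i' (fs N d ζ i))).det = 0}.Finite := by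
  have hstep : ∀ j, pt (fs N d ζ) (y (j + 1)) = y j := by
    intro j
    funext i
    rw [pt]
    exact hy j i
  have hit : ∀ m j, (pt (fs N d ζ))^[m] (y (j + m)) = y j := by
    intro m
    induction m with
    | zero => intro j; rfl
    | succ m ih =>
      intro j
      rw [Function.iterate_succ_apply, ← add_assoc, hstep, ih]
  have hmono : Monotone fun j => nd (y j) := by
    apply monotone_nat_of_le_succ
    intro j
    show nd (y j) ≤ nd (y (j + 1))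
    have h1 := nd_fs_le (d := d) (ζ := ζ) (y (j + 1))
    rwa [hstep] at h1
  -- the bounded monotone sequence is eventually constant
  obtain ⟨n0, hn0⟩ : ∃ n0, ∀ j, n0 ≤ j → nd (y j) = nd (y n0) := by
    have hb : ∀ j, nd (y j) ≤ N + 1 := fun j => nd_le _
    obtain ⟨n0, hn0⟩ : ∃ n0, ∀ j, nd (y j) ≤ nd (y n0) := by
      have hfin : (Set.range fun j => nd (y j)).Finite :=
        (Set.finite_Iic (N + 1)).subset (by rintro _ ⟨j, rfl⟩; exact hb j)
      obtain ⟨m, ⟨n0, hm⟩, hmax⟩ := Set.exists_max_image _ id hfin ⟨_, 0, rfl⟩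
      refine ⟨n0, fun j => ?_⟩
      have h2 : nd (y n0) = m := hm
      rw [h2]
      exact hmax _ ⟨j, rfl⟩
    exact ⟨n0, fun j hj => le_antisymm (hn0 j) (hmono hj)⟩
  apply finite_of_lt _ (n0 + (N + 2))
  intro j hge hj
  obtain ⟨l, hl⟩ : ∃ l, j = l + (N + 2) := ⟨j - (N + 2), by omega⟩
  have e : jac (fs N d ζ) (y j) =
      Matrix.of fun i i' => eval (y j) (pderiv i' (fs N d ζ i)) := by
    ext i i'
    rw [Matrix.of_apply, jac]
  have hj' : (jac (fs N d ζ) (y j)).det = 0 := by rw [e]; exact hj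
  have h1 := fs_drop hd hζ hζ1 (y j) (hy0 j) hj'
  have h2 := hit (N + 2) l
  rw [← hl] at h2
  rw [h2, hn0 l (by omega), hn0 j (by omega)] at h1
  exact lt_irrefl _ h1

theorem dml_fs (d : ℕ) (hd : 2 ≤ d) (ζ : ℂ) (hζ : ζ ^ d = 1) (hζ1 : ζ ≠ 1)
    (g : Fin (N + 1) → MvPolynomial (Fin (N + 1)) ℂ)
    (hg : ∀ i, (g i).totalDegree < d) (halg : ∀ i κ, IsAlgebraic ℚ (coeff κ (g i)))
    (V : Set (MvPolynomial (Fin (N + 1)) ℂ))
    (hV : ∀ i j, ∃ P : MvPolynomial (Fin 2) ℂ, P ≠ 0 ∧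
      ∀ z : Fin (N + 1) → ℂ, (∀ h ∈ V, eval z h = 0) → eval ![z i, z j] P = 0)
    (x : ℕ → Fin (N + 1) → ℂ)
    (hx : ∀ n i, x (n + 1) i = eval (x n) ((X 0 - C (1 - ζ) * X (i + 1)) ^ d + g i))
    (hx0 : ∀ i, IsAlgebraic ℚ (x 0 i)) :
    ∃ T : Finset (ℕ × ℕ), {n : ℕ | ∀ h ∈ V, eval (x n) h = 0} =
      {n : ℕ | ∃ q ∈ T, ∃ m : ℕ, n = q.1 * m + q.2} := by
  have hd0 : d ≠ 0 := by omega
  have hζ0 : ζ ≠ 0 := by
    rintro rfl
    rw [zero_pow hd0] at hζ
    exact zero_ne_one hζ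
  have htop : ∀ i, homogeneousComponent d (fs N d ζ i + g i) = fs N d ζ i :=
    fun i => fs_top d ζ i (g i) (hg i)
  apply dml_alg d hd (fun i => fs N d ζ i + g i) (fun i => fs_deg d ζ i (g i) (hg i))
    (fun i κ => by
      rw [coeff_add]
      exact (fs_alg d ζ hd0 hζ i κ).add (halg i κ)) ?_ V hV ?_ x hx hx0
  · intro z hz
    apply fs_ne hd0 hζ1 hζ0 z
    intro i
    have h1 := hz i
    rwa [htop] at h1
  · intro y hy0 hy _
    have h1 := fs_crit_finite d ζ hd0 hζ hζ1 y hy0 (by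
      intro j i
      have h2 := hy j i
      rwa [htop] at h2)
    simp only [htop]
    exact h1

end Pool.Agent.R847.SN
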